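import Pool.Agent.W823.QT.Stm
import Pool.Agent.H663R5.MTA1
import Pool.Agent.H509R3.MT.A3

/-!
# MP_26aa9e_pr, part KERB: sup bound for the transition kernel
-/

set_option autoImplicit false

namespace Pool.Agent.W692.QTKERB

open MeasureTheory ProbabilityTheory Filter Topology Pool.Agent.W845.Traps
open scoped ENNReal NNReal
open Pool.Agent.H143R3.MT (sk)

instance (s : ℝ≥0) : IsProbabilityMeasure (skellam s) :=
  Pool.Agent.H663R5.MTA1.taskA1.1 s

/-- the bound in one dimension -/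
theorem one_dim : ∃ A : ℝ, 1 ≤ A ∧ ∀ (u : ℝ≥0) (k : ℤ),
    skellam u {k} ≤ ENNReal.ofReal (A / √(1 + (u : ℝ))) := by
  obtain ⟨C', hC'⟩ := Pool.Agent.H509R3.MT.taskA3
  obtain ⟨C, hC⟩ : ∃ C : ℝ, ∀ (s : ℝ≥0) (k : ℤ), 0 < s → sk s k ≤ ENNReal.ofReal (C / √(s : ℝ)) :=
    ⟨C', hC'⟩
  refine ⟨2 * (|C| + 1), by linarith [abs_nonneg C], fun u k => ?_⟩
  have hs : 0 < √(1 + (u : ℝ)) := Real.sqrt_pos.2 (by positivity)
  have hC0 := abs_nonneg C
  rcases le_total u 1 with hu | hu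
  · have h1 : √(1 + (u : ℝ)) ≤ 2 * (|C| + 1) := by
      have h2 : (u : ℝ) ≤ 1 := by exact_mod_cast hu
      have h3 : √(1 + (u : ℝ)) ≤ 2 := by
        rw [Real.sqrt_le_left (by norm_num)]
        linarith
      linarith
    have h4 : (1 : ℝ≥0∞) ≤ ENNReal.ofReal (2 * (|C| + 1) / √(1 + (u : ℝ))) := by
      rw [← ENNReal.ofReal_one]
      apply ENNReal.ofReal_le_ofReal
      rw [le_div_iff₀ hs, one_mul]
      exact h1
    exact le_trans prob_le_one h4
  · have hu0 : 0 < u := lt_of_lt_of_le one_pos hu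
    have hu0' : (0 : ℝ) < u := by exact_mod_cast hu0
    have hu' : (1 : ℝ) ≤ u := by exact_mod_cast hu
    refine le_trans (hC u k hu0) ?_
    apply ENNReal.ofReal_le_ofReal
    have h5 : 0 < √(u : ℝ) := Real.sqrt_pos.2 hu0'
    have h6 : √(1 + (u : ℝ)) ≤ 2 * √(u : ℝ) := by
      rw [Real.sqrt_le_left (by positivity), mul_pow, Real.sq_sqrt hu0'.le]
      linarith
    rw [div_le_div_iff₀ h5 hs]
    have h7 : C ≤ |C| := le_abs_self C
    calc C * √(1 + (u : ℝ)) ≤ (|C| + 1) * √(1 + (u : ℝ)) :=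
          mul_le_mul_of_nonneg_right (by linarith) hs.le
      _ ≤ (|C| + 1) * (2 * √(u : ℝ)) := mul_le_mul_of_nonneg_left h6 (by linarith)
      _ = 2 * (|C| + 1) * √(u : ℝ) := by ring

theorem main : Pool.Agent.W823.QT.KERB_T := by
  intro d hd κ hκ
  obtain ⟨A, hA, h⟩ := one_dim
  have hd0 : (0 : ℝ) < d := by
    have : 0 < d := by omega
    exact_mod_cast this
  have hκ0 : (0 : ℝ) < κ := by exact_mod_cast hκ
  set c : ℝ := min 1 (κ / d) with hc
  have hc0 : 0 < c := lt_min one_pos (by positivity)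
  have hsc : 0 < √c := Real.sqrt_pos.2 hc0
  refine ⟨(A / √c) ^ 5, by positivity, fun s x => ?_⟩
  have hs0 : (0 : ℝ) ≤ s := s.2
  set F : ℝ≥0∞ := ENNReal.ofReal (A / √c / √(1 + (s : ℝ))) with hF
  have h1 : ∀ i : Fin d, skellam (κ * s / d) {x i} ≤ min 1 F := by
    intro i
    refine le_min prob_le_one (le_trans (h _ _) ?_)
    apply ENNReal.ofReal_le_ofReal
    rw [div_div, ← Real.sqrt_mul hc0.le]
    apply div_le_div_of_nonneg_left (by linarith) (Real.sqrt_pos.2 (by positivity))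
    apply Real.sqrt_le_sqrt
    have h2 : c ≤ 1 := min_le_left _ _
    have h3 : c * s ≤ κ / d * s := mul_le_mul_of_nonneg_right (min_le_right _ _) hs0
    push_cast
    have h4 : (κ : ℝ) * s / d = κ / d * s := by ring
    rw [h4]
    nlinarith
  have h2 : stepLaw d κ s {x} ≤ (min 1 F) ^ d := by
    unfold stepLaw
    rw [Measure.pi_singleton]
    refine le_trans (Finset.prod_le_prod' (fun i _ => h1 i)) ?_
    rw [Finset.prod_const, Finset.card_univ, Fintype.card_fin]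
  refine le_trans h2 ?_
  have h3 : (min 1 F) ^ d ≤ (min 1 F) ^ 5 := pow_le_pow_right_of_le_one' (min_le_left _ _) hd
  refine le_trans h3 ?_
  have h4 : (min 1 F) ^ 5 ≤ F ^ 5 := pow_le_pow_left' (min_le_right _ _) 5
  refine le_trans h4 ?_
  have hsq : 0 < √(1 + (s : ℝ)) := Real.sqrt_pos.2 (by positivity)
  rw [hF, ← ENNReal.ofReal_pow (by positivity), div_pow]
  apply ENNReal.ofReal_le_ofReal
  have h5 : (√(1 + (s : ℝ))) ^ 5 = (1 + (s : ℝ)) ^ (5 / 2 : ℝ) := by
    rw [Real.sqrt_eq_rpow, ← Real.rpow_natCast, ← Real.rpow_mul (by positivity)]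
    norm_num
  rw [h5, Real.rpow_neg (by positivity), div_eq_mul_inv]

end Pool.Agent.W692.QTKERB
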