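import Pool.Agent.W692.NNBlock

/-!
# The block construction and the perturbation
-/

set_option autoImplicit false

open Finset Filter
open scoped Topology

namespace Pool.Agent.W692.NN

section Criterion

variable {X : Type*} [NormedAddCommGroup X] [NormedSpace ℝ X]

/-- convergence of the expansions, from convergence on a set with dense span -/
theorem tendsto_of_dense (e : ℕ → X) (e' : ℕ → X →L[ℝ] ℝ) (C : ℝ)
    (hC : ∀ n x, ‖∑ m ∈ range n, e' m x • e m‖ ≤ C * ‖x‖) (D : Set X)
    (hD : Dense (Submodule.span ℝ D : Set X))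
    (hconv : ∀ x ∈ D, Tendsto (fun n => ∑ m ∈ range n, e' m x • e m) atTop (𝓝 x)) (x : X) :
    Tendsto (fun n => ∑ m ∈ range n, e' m x • e m) atTop (𝓝 x) := by
  have hspan : ∀ x ∈ Submodule.span ℝ D,
      Tendsto (fun n => ∑ m ∈ range n, e' m x • e m) atTop (𝓝 x) := by
    intro x hx
    induction hx using Submodule.span_induction with
    | mem x hx => exact hconv x hx
    | zero => simp
    | add x y _ _ hx hy =>
      have := hx.add hy
      refine this.congr fun n => ?_
      rw [← Finset.sum_add_distrib]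
      exact Finset.sum_congr rfl fun m _ => by rw [map_add, add_smul]
    | smul c x _ hx =>
      have := hx.const_smul c
      refine this.congr fun n => ?_
      rw [Finset.smul_sum]
      exact Finset.sum_congr rfl fun m _ => by rw [map_smul, smul_assoc]
  have hC0 : 0 ≤ |C| := abs_nonneg C
  rw [Metric.tendsto_atTop]
  intro ε hε
  have hε' : 0 < ε / (2 * (|C| + 2)) := by positivity
  obtain ⟨y, hy, hxy⟩ := Metric.dense_iff.1 hD x _ hε'
  rw [Metric.mem_ball, dist_eq_norm] at hy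
  obtain ⟨N, hN⟩ := Metric.tendsto_atTop.1 (hspan y hxy) (ε / 2) (by positivity)
  refine ⟨N, fun n hn => ?_⟩
  have h1 := hN n hn
  rw [dist_eq_norm] at h1 ⊢
  have h2 : ∑ m ∈ range n, e' m x • e m - x =
      (∑ m ∈ range n, e' m y • e m - y) - (∑ m ∈ range n, e' m (y - x) • e m) + (y - x) := by
    have : ∑ m ∈ range n, e' m (y - x) • e m =
        ∑ m ∈ range n, e' m y • e m - ∑ m ∈ range n, e' m x • e m := by
      rw [← Finset.sum_sub_distrib]
      exact Finset.sum_congr rfl fun m _ => by rw [map_sub, sub_smul]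
    rw [this]
    abel
  rw [h2]
  have h3 := hC n (y - x)
  have h4 : C * ‖y - x‖ ≤ |C| * ‖y - x‖ :=
    mul_le_mul_of_nonneg_right (le_abs_self C) (norm_nonneg _)
  have h5 : (|C| + 1) * ‖y - x‖ < ε / 2 := by
    have h6 : (|C| + 1) * ‖y - x‖ ≤ (|C| + 2) * ‖y - x‖ :=
      mul_le_mul_of_nonneg_right (by linarith) (norm_nonneg _)
    have h7 : (|C| + 2) * ‖y - x‖ < (|C| + 2) * (ε / (2 * (|C| + 2))) :=
      mul_lt_mul_of_pos_left hy (by positivity)
    have h8 : (|C| + 2) * (ε / (2 * (|C| + 2))) = ε / 2 := by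
      field_simp
    linarith
  calc _ ≤ ‖(∑ m ∈ range n, e' m y • e m - y) - (∑ m ∈ range n, e' m (y - x) • e m)‖ +
        ‖y - x‖ := norm_add_le _ _
    _ ≤ ‖∑ m ∈ range n, e' m y • e m - y‖ + ‖∑ m ∈ range n, e' m (y - x) • e m‖ + ‖y - x‖ := by
        gcongr
        exact norm_sub_le _ _
    _ < ε := by linarith

/-- uniqueness of the expansions -/
theorem unique_of_bio (e : ℕ → X) (e' : ℕ → X →L[ℝ] ℝ)
    (hb : ∀ m n, e' m (e n) = if m = n then 1 else 0) (x : X) (a : ℕ → ℝ)
    (ha : Tendsto (fun n => ∑ m ∈ range n, a m • e m) atTop (𝓝 x)) (m : ℕ) : a m = e' m x := by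
  have h1 := ((e' m).continuous.tendsto x).comp ha
  have h2 : Tendsto (fun n => e' m (∑ i ∈ range n, a i • e i)) atTop (𝓝 (a m)) := by
    refine tendsto_const_nhds.congr' ?_
    filter_upwards [eventually_gt_atTop m] with n hn
    rw [map_sum]
    rw [Finset.sum_eq_single_of_mem m (mem_range.2 hn)]
    · rw [map_smul, hb, if_pos rfl, smul_eq_mul, mul_one]
    · intro i _ hi
      rw [map_smul, hb, if_neg (Ne.symm hi), smul_zero]
  exact tendsto_nhds_unique h2 h1

end Criterion

variable {X : Type*} [NormedAddCommGroup X] [NormedSpace ℝ X]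

/-- a frame: a Haar-like part `h` and an `ℓ_p`-part `u` -/
structure Frame (p : ℝ) (h u : ℕ → X) (h' u' : ℕ → X →L[ℝ] ℝ) : Prop where
  hh : ∀ b b', h' b (h b') = if b = b' then 1 else 0
  hu : ∀ b j, h' b (u j) = 0
  uh : ∀ j b, u' j (h b) = 0
  uu : ∀ j j', u' j (u j') = if j = j' then 1 else 0
  nh : ∀ b, ‖h b‖ = 1
  Hb : ∀ b x, ‖∑ b' ∈ range b, h' b' x • h b'‖ ≤ 2 * ‖x‖
  Wb : ∀ s x, ‖∑ j ∈ range s, u' j x • u j‖ ≤ ‖x‖
  nu : ∀ s N x, nrm p N (fun j => u' (s + j) x) ≤ ‖x‖
  un : ∀ s N (y : ℕ → ℝ), ‖∑ j ∈ range N, y j • u (s + j)‖ = nrm p N y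
  hb : ∀ b x, |h' b x| ≤ 4 * ‖x‖
  dense : Dense (Submodule.span ℝ (Set.range h ∪ Set.range u) : Set X)

/-- offsets -/
def off (N : ℕ → ℕ) (b : ℕ) : ℕ := ∑ b' ∈ range b, N b'

/-- basis vector `i` of the block `b` -/
noncomputable def G (h u : ℕ → X) (N : ℕ → ℕ) (f : ℕ → ℕ → ℕ → ℝ) (α : ℕ → ℕ → ℝ) (b i : ℕ) : X :=
  ∑ j ∈ range (N b), f b i j • u (off N b + j) + α b i • h b

/-- its functional -/
noncomputable def G' (h' u' : ℕ → X →L[ℝ] ℝ) (N : ℕ → ℕ) (φ : ℕ → ℕ → ℕ → ℝ) (ψ : ℕ → ℕ → ℝ)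
    (b i : ℕ) : X →L[ℝ] ℝ :=
  ∑ j ∈ range (N b), φ b i j • u' (off N b + j) + ψ b i • h' b

theorem G'_apply (h' u' : ℕ → X →L[ℝ] ℝ) (N : ℕ → ℕ) (φ : ℕ → ℕ → ℕ → ℝ) (ψ : ℕ → ℕ → ℝ)
    (b i : ℕ) (x : X) : G' h' u' N φ ψ b i x =
      Φ (N b) (φ b) (ψ b) (fun j => u' (off N b + j) x) (h' b x) i := by
  unfold G' Φ
  simp

theorem off_succ (N : ℕ → ℕ) (b : ℕ) : off N (b + 1) = off N b + N b := by
  unfold off
  rw [Finset.sum_range_succ]

theorem off_mono (N : ℕ → ℕ) : Monotone (off N) :=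
  monotone_nat_of_le_succ fun b => by rw [off_succ]; omega

theorem off_ge {N : ℕ → ℕ} (hN : ∀ b, 0 < N b) (b : ℕ) : b ≤ off N b := by
  induction b with
  | zero => exact Nat.zero_le _
  | succ b ih =>
    rw [off_succ]
    have := hN b
    omega

theorem off_ne {N : ℕ → ℕ} {b b' j j' : ℕ} (hb : b ≠ b') (hj : j < N b) (hj' : j' < N b') :
    off N b + j ≠ off N b' + j' := by
  rcases Nat.lt_or_gt_of_ne hb with h | h
  · have := off_mono N (show b + 1 ≤ b' from h)
    rw [off_succ] at this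
    omega
  · have := off_mono N (show b' + 1 ≤ b from h)
    rw [off_succ] at this
    omega

/-- the state machine -/
def st (N : ℕ → ℕ) : ℕ → ℕ × ℕ
  | 0 => (0, 0)
  | n + 1 => if (st N n).2 < N (st N n).1 then ((st N n).1, (st N n).2 + 1) else ((st N n).1 + 1, 0)

/-- starting times of the blocks -/
def tm (N : ℕ → ℕ) (b : ℕ) : ℕ := ∑ b' ∈ range b, (N b' + 1)

theorem tm_succ (N : ℕ → ℕ) (b : ℕ) : tm N (b + 1) = tm N b + (N b + 1) := by
  unfold tm
  rw [Finset.sum_range_succ]

theorem tm_mono (N : ℕ → ℕ) : Monotone (tm N) :=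
  monotone_nat_of_le_succ fun b => by rw [tm_succ]; omega

theorem st_spec (N : ℕ → ℕ) (n : ℕ) :
    (st N n).2 ≤ N (st N n).1 ∧ tm N (st N n).1 + (st N n).2 = n := by
  induction n with
  | zero =>
    refine ⟨Nat.zero_le _, ?_⟩
    simp [st, tm]
  | succ n ih =>
    obtain ⟨h1, h2⟩ := ih
    rw [st]
    split_ifs with h
    · exact ⟨h, by dsimp only; omega⟩
    · refine ⟨Nat.zero_le _, ?_⟩
      dsimp only
      rw [tm_succ]
      omega

theorem st_inj (N : ℕ → ℕ) {m n : ℕ} (h : st N m = st N n) : m = n := by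
  rw [← (st_spec N m).2, ← (st_spec N n).2, h]

theorem st_tendsto (N : ℕ → ℕ) (B : ℕ) : ∀ᶠ n in atTop, B < (st N n).1 := by
  filter_upwards [eventually_ge_atTop (tm N (B + 1))] with n hn
  by_contra h
  push Not at h
  have h1 := (st_spec N n).1
  have h2 := (st_spec N n).2
  have h3 := tm_mono N (show (st N n).1 + 1 ≤ B + 1 by omega)
  rw [tm_succ] at h3
  omega

section Main

variable {p : ℝ} {h u : ℕ → X} {h' u' : ℕ → X →L[ℝ] ℝ} (F : Frame p h u h' u')
  {ε : ℕ → ℝ} {N : ℕ → ℕ} {f : ℕ → ℕ → ℕ → ℝ} {α : ℕ → ℕ → ℝ} {φ : ℕ → ℕ → ℕ → ℝ}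
  {ψ : ℕ → ℕ → ℝ} {δ : ℕ → ℕ → ℝ}
  (B : ∀ b, Blk p (ε b) (N b) (f b) (α b) (φ b) (ψ b) (δ b))

/-- big projection -/
noncomputable def Q (h u : ℕ → X) (h' u' : ℕ → X →L[ℝ] ℝ) (N : ℕ → ℕ) (b : ℕ) (x : X) : X :=
  ∑ b' ∈ range b, h' b' x • h b' + ∑ j ∈ range (off N b), u' j x • u j

theorem sum_block (b n : ℕ) (x : X) :
    ∑ i ∈ range n, G' h' u' N φ ψ b i x • G h u N f α b i =
      ∑ j ∈ range (N b), (∑ i ∈ range n,
        Φ (N b) (φ b) (ψ b) (fun j => u' (off N b + j) x) (h' b x) i * f b i j) •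
          u (off N b + j) +
      (∑ i ∈ range n,
        Φ (N b) (φ b) (ψ b) (fun j => u' (off N b + j) x) (h' b x) i * α b i) • h b := by
  simp_rw [G'_apply]
  unfold G
  simp_rw [smul_add, Finset.sum_add_distrib, Finset.smul_sum, smul_smul]
  congr 1
  · rw [Finset.sum_comm]
    exact Finset.sum_congr rfl fun j _ => by rw [Finset.sum_smul]
  · rw [Finset.sum_smul]

include B in
theorem Q_succ (b : ℕ) (x : X) : Q h u h' u' N (b + 1) x = Q h u h' u' N b x +
    ∑ i ∈ range (N b + 1), G' h' u' N φ ψ b i x • G h u N f α b i := by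
  rw [sum_block]
  have h1 : ∀ j ∈ range (N b), (∑ i ∈ range (N b + 1),
      Φ (N b) (φ b) (ψ b) (fun j => u' (off N b + j) x) (h' b x) i * f b i j) •
        u (off N b + j) = u' (off N b + j) x • u (off N b + j) := by
    intro j hj
    rw [(B b).compl1 _ _ j (mem_range.1 hj)]
  rw [Finset.sum_congr rfl h1, (B b).compl2]
  unfold Q
  rw [Finset.sum_range_succ, off_succ, Finset.sum_range_add]
  abel

include F B in
theorem block_bound (b n : ℕ) (hn : n ≤ N b + 1) (x : X) :
    ‖∑ i ∈ range n, G' h' u' N φ ψ b i x • G h u N f α b i‖ ≤ 180 * ‖x‖ := by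
  rw [sum_block]
  have h1 := (B b).bound1 (fun j => u' (off N b + j) x) (h' b x) n hn
  have h2 := (B b).bound2 (fun j => u' (off N b + j) x) (h' b x) n hn
  have h3 := F.nu (off N b) (N b) x
  have h4 := F.hb b x
  refine (norm_add_le _ _).trans ?_
  rw [F.un, norm_smul, F.nh, mul_one, Real.norm_eq_abs]
  linarith

theorem partial_sum (hB : ∀ b, Blk p (ε b) (N b) (f b) (α b) (φ b) (ψ b) (δ b)) (n : ℕ) (x : X) :
    ∑ m ∈ range n, G' h' u' N φ ψ (st N m).1 (st N m).2 x • G h u N f α (st N m).1 (st N m).2 =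
      Q h u h' u' N (st N n).1 x +
        ∑ i ∈ range (st N n).2, G' h' u' N φ ψ (st N n).1 i x • G h u N f α (st N n).1 i := by
  induction n with
  | zero => simp [st, Q, off]
  | succ n ih =>
    rw [Finset.sum_range_succ, ih]
    have h1 := (st_spec N n).1
    rw [st]
    split_ifs with hlt
    · dsimp only
      rw [Finset.sum_range_succ, add_assoc]
    · dsimp only
      have h2 : (st N n).2 = N (st N n).1 := by omega
      rw [Q_succ hB, Finset.sum_range_zero, add_zero, Finset.sum_range_succ, h2, add_assoc]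

include F in
theorem u'_G {b b' i j : ℕ} (hj : j < N b') :
    u' (off N b' + j) (G h u N f α b i) = if b' = b then f b i j else 0 := by
  unfold G
  rw [map_add, map_smul, F.uh, smul_zero, add_zero, map_sum]
  split_ifs with hb
  · subst hb
    rw [Finset.sum_eq_single_of_mem j (mem_range.2 hj)]
    · rw [map_smul, F.uu, if_pos rfl, smul_eq_mul, mul_one]
    · intro j' _ hne
      rw [map_smul, F.uu, if_neg (by omega), smul_zero]
  · refine Finset.sum_eq_zero fun j' hj' => ?_
    rw [map_smul, F.uu, if_neg (off_ne hb hj (mem_range.1 hj')), smul_zero]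

include F in
theorem h'_G {b b' i : ℕ} : h' b' (G h u N f α b i) = if b' = b then α b i else 0 := by
  unfold G
  rw [map_add, map_smul, F.hh, map_sum]
  have h1 : ∑ j ∈ range (N b), h' b' (f b i j • u (off N b + j)) = 0 :=
    Finset.sum_eq_zero fun j _ => by rw [map_smul, F.hu, smul_zero]
  rw [h1, zero_add]
  split_ifs
  · rw [smul_eq_mul, mul_one]
  · rw [smul_zero]

include F B in
theorem bio {b b' i i' : ℕ} (hi : i ≤ N b) (hi' : i' ≤ N b') :
    G' h' u' N φ ψ b i (G h u N f α b' i') = if b = b' ∧ i = i' then 1 else 0 := by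
  rw [G'_apply]
  by_cases hb : b = b'
  · subst hb
    have h1 : Φ (N b) (φ b) (ψ b) (fun j => u' (off N b + j) (G h u N f α b i'))
        (h' b (G h u N f α b i')) i = Φ (N b) (φ b) (ψ b) (f b i') (α b i') i := by
      unfold Φ
      rw [h'_G F, if_pos rfl]
      congr 1
      refine Finset.sum_congr rfl fun j hj => ?_
      dsimp only
      rw [u'_G F (mem_range.1 hj), if_pos rfl]
    rw [h1, (B b).bio i hi i' hi']
    simp
  · rw [if_neg (by tauto)]
    unfold Φ
    rw [h'_G F, if_neg hb, mul_zero, add_zero]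
    refine Finset.sum_eq_zero fun j hj => ?_
    dsimp only
    rw [u'_G F (mem_range.1 hj), if_neg hb, mul_zero]

include F B in
theorem conv_h (b0 : ℕ) : Tendsto (fun n => ∑ m ∈ range n,
    G' h' u' N φ ψ (st N m).1 (st N m).2 (h b0) • G h u N f α (st N m).1 (st N m).2)
      atTop (𝓝 (h b0)) := by
  refine tendsto_const_nhds.congr' ?_
  filter_upwards [st_tendsto N b0] with n hn
  rw [partial_sum B]
  have h1 : ∑ i ∈ range (st N n).2, G' h' u' N φ ψ (st N n).1 i (h b0) •
      G h u N f α (st N n).1 i = 0 := by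
    refine Finset.sum_eq_zero fun i _ => ?_
    rw [G'_apply]
    unfold Φ
    rw [F.hh, if_neg (by omega), mul_zero, add_zero, Finset.sum_eq_zero, zero_smul]
    intro j _
    dsimp only
    rw [F.uh, mul_zero]
  rw [h1, add_zero]
  unfold Q
  rw [Finset.sum_eq_single_of_mem b0 (mem_range.2 hn), F.hh, if_pos rfl, one_smul,
    Finset.sum_eq_zero, add_zero]
  · intro j _
    rw [F.uh, zero_smul]
  · intro b' _ hne
    rw [F.hh, if_neg hne, zero_smul]

include F B in
theorem conv_u (j0 : ℕ) : Tendsto (fun n => ∑ m ∈ range n,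
    G' h' u' N φ ψ (st N m).1 (st N m).2 (u j0) • G h u N f α (st N m).1 (st N m).2)
      atTop (𝓝 (u j0)) := by
  refine tendsto_const_nhds.congr' ?_
  filter_upwards [st_tendsto N j0] with n hn
  rw [partial_sum B]
  have h0 : j0 < off N (st N n).1 := hn.trans_le (off_ge (fun b => (B b).pos) _)
  have h1 : ∑ i ∈ range (st N n).2, G' h' u' N φ ψ (st N n).1 i (u j0) •
      G h u N f α (st N n).1 i = 0 := by
    refine Finset.sum_eq_zero fun i _ => ?_
    rw [G'_apply]
    unfold Φ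
    rw [F.hu, mul_zero, add_zero, Finset.sum_eq_zero, zero_smul]
    intro j _
    dsimp only
    rw [F.uu, if_neg (by omega), mul_zero]
  rw [h1, add_zero]
  unfold Q
  rw [Finset.sum_eq_zero, zero_add, Finset.sum_eq_single_of_mem j0 (mem_range.2 h0), F.uu,
    if_pos rfl, one_smul]
  · intro j _ hne
    rw [F.uu, if_neg hne, zero_smul]
  · intro b' _
    rw [F.hu, zero_smul]

include F B in
theorem basis_G (x : X) : Tendsto (fun n => ∑ m ∈ range n,
    G' h' u' N φ ψ (st N m).1 (st N m).2 x • G h u N f α (st N m).1 (st N m).2)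
      atTop (𝓝 x) := by
  refine tendsto_of_dense (fun m => G h u N f α (st N m).1 (st N m).2)
    (fun m => G' h' u' N φ ψ (st N m).1 (st N m).2) 183 ?_ _ F.dense ?_ x
  · intro n x
    rw [partial_sum B]
    have h1 := block_bound F B (st N n).1 (st N n).2 (by have := (st_spec N n).1; omega) x
    have h2 : ‖Q h u h' u' N (st N n).1 x‖ ≤ 3 * ‖x‖ := by
      unfold Q
      have h3 := F.Hb (st N n).1 x
      have h4 := F.Wb (off N (st N n).1) x
      exact (norm_add_le _ _).trans (by linarith)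
    exact (norm_add_le _ _).trans (by linarith)
  · rintro x (⟨b, rfl⟩ | ⟨j, rfl⟩)
    · exact conv_h F B b
    · exact conv_u F B j

/-- the functional of the perturbation -/
noncomputable def Fb (u' : ℕ → X →L[ℝ] ℝ) (N : ℕ → ℕ) (δ : ℕ → ℕ → ℝ) (b : ℕ) : X →L[ℝ] ℝ :=
  ∑ j ∈ range (N b), δ b j • u' (off N b + j)

theorem Fb_apply (b : ℕ) (x : X) : Fb u' N δ b x = ∑ j ∈ range (N b), δ b j * u' (off N b + j) x := by
  unfold Fb
  simp

include F in
theorem Fb_G (b b' i : ℕ) : Fb u' N δ b' (G h u N f α b i) =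
    if b' = b then ∑ j ∈ range (N b), δ b j * f b i j else 0 := by
  rw [Fb_apply]
  split_ifs with hb
  · subst hb
    refine Finset.sum_congr rfl fun j hj => ?_
    rw [u'_G F (mem_range.1 hj), if_pos rfl]
  · refine Finset.sum_eq_zero fun j hj => ?_
    rw [u'_G F (mem_range.1 hj), if_neg hb, mul_zero]

include F B in
theorem exists_V [CompleteSpace X] (hε : ∀ b, 0 ≤ ε b) (hεs : Summable ε)
    (hε1 : ∑' b, ε b ≤ 1 / 2) (k : ℕ → X)
    (hk : ∀ b, ‖k b‖ ≤ 1) : ∃ V : X →L[ℝ] X, ‖V‖ ≤ 1 / 2 ∧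
      ∀ b i, V (G h u N f α b i) = (∑ j ∈ range (N b), δ b j * f b i j) • k b := by
  have h1 : ∀ b, ‖(Fb u' N δ b).smulRight (k b)‖ ≤ ε b := by
    intro b
    refine ContinuousLinearMap.opNorm_le_bound _ (hε b) fun x => ?_
    rw [ContinuousLinearMap.smulRight_apply, norm_smul, Fb_apply, Real.norm_eq_abs]
    have h2 := (B b).small (fun j => u' (off N b + j) x)
    have h3 := F.nu (off N b) (N b) x
    have h4 : |∑ j ∈ range (N b), δ b j * u' (off N b + j) x| ≤ ε b * ‖x‖ :=
      h2.trans (mul_le_mul_of_nonneg_left h3 (hε b))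
    calc _ ≤ ε b * ‖x‖ * 1 := mul_le_mul h4 (hk b) (norm_nonneg _) (by
          have := hε b
          positivity)
      _ = ε b * ‖x‖ := mul_one _
  have hsum : Summable fun b => (Fb u' N δ b).smulRight (k b) :=
    Summable.of_norm_bounded hεs h1
  refine ⟨∑' b, (Fb u' N δ b).smulRight (k b), ?_, ?_⟩
  · exact (tsum_of_norm_bounded hεs.hasSum h1).trans hε1
  · intro b i
    have h2 : HasSum (fun b' => (Fb u' N δ b').smulRight (k b') (G h u N f α b i))
        ((∑' b, (Fb u' N δ b).smulRight (k b)) (G h u N f α b i)) :=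
      hsum.hasSum.mapL (ContinuousLinearMap.apply ℝ X (G h u N f α b i))
    have h3 : HasSum (fun b' => (Fb u' N δ b').smulRight (k b') (G h u N f α b i))
        ((∑ j ∈ range (N b), δ b j * f b i j) • k b) := by
      have h4 := hasSum_single (f := fun b' => (Fb u' N δ b').smulRight (k b') (G h u N f α b i)) b
        (by
          intro b' hb'
          rw [ContinuousLinearMap.smulRight_apply, Fb_G F, if_neg hb', zero_smul])
      rw [ContinuousLinearMap.smulRight_apply, Fb_G F, if_pos rfl] at h4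
      exact h4
    exact h2.unique h3

include F B in
/-- the final basis -/
theorem final [CompleteSpace X] (hε : ∀ b, 0 ≤ ε b) (hεs : Summable ε)
    (hε1 : ∑' b, ε b ≤ 1 / 2) (k : ℕ → X)
    (hk : ∀ b, ‖k b‖ ≤ 1) : ∃ g : ℕ → X,
      (∀ n, ∃ b i, i ≤ N b ∧
        g n = G h u N f α b i + (∑ j ∈ range (N b), δ b j * f b i j) • k b) ∧
      ∀ x, ∃! a : ℕ → ℝ, Tendsto (fun n => ∑ m ∈ range n, a m • g m) atTop (𝓝 x) := by
  obtain ⟨V, hV, hVG⟩ := exists_V F B hε hεs hε1 k hk
  let U := Units.oneSub (-V) (by rw [norm_neg]; linarith)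
  let T : X ≃L[ℝ] X := ContinuousLinearEquiv.unitsEquiv ℝ X U
  have hT : ∀ x, T x = x + V x := by
    intro x
    change (U : X →L[ℝ] X) x = _
    have : (U : X →L[ℝ] X) = 1 - (-V) := rfl
    rw [this]
    simp
  refine ⟨fun n => T (G h u N f α (st N n).1 (st N n).2), ?_, ?_⟩
  · intro n
    exact ⟨_, _, (st_spec N n).1, by dsimp only; rw [hT, hVG]⟩
  · intro x
    have hkey : ∀ (a : ℕ → ℝ), Tendsto (fun n => ∑ m ∈ range n, a m •
          T (G h u N f α (st N m).1 (st N m).2)) atTop (𝓝 x) ↔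
        Tendsto (fun n => ∑ m ∈ range n, a m • G h u N f α (st N m).1 (st N m).2) atTop
          (𝓝 (T.symm x)) := by
      intro a
      have h1 : ∀ n, ∑ m ∈ range n, a m • T (G h u N f α (st N m).1 (st N m).2) =
          T (∑ m ∈ range n, a m • G h u N f α (st N m).1 (st N m).2) := by
        intro n
        rw [map_sum]
        exact Finset.sum_congr rfl fun m _ => by rw [map_smul]
      simp_rw [h1]
      constructor
      · intro h2
        have h3 := (T.symm.continuous.tendsto x).comp h2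
        refine h3.congr fun n => ?_
        simp
      · intro h2
        have h3 := (T.continuous.tendsto (T.symm x)).comp h2
        rw [T.apply_symm_apply] at h3
        exact h3
    refine ⟨fun m => G' h' u' N φ ψ (st N m).1 (st N m).2 (T.symm x), ?_, ?_⟩
    · exact (hkey _).2 (basis_G F B (T.symm x))
    · intro a ha
      have h2 := (hkey a).1 ha
      funext m
      refine unique_of_bio (fun m => G h u N f α (st N m).1 (st N m).2)
        (fun m => G' h' u' N φ ψ (st N m).1 (st N m).2) ?_ _ a h2 m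
      intro m n
      rw [bio F B (st_spec N m).1 (st_spec N n).1]
      refine if_congr ?_ rfl rfl
      constructor
      · rintro ⟨h3, h4⟩
        exact st_inj N (Prod.ext h3 h4)
      · rintro rfl
        exact ⟨rfl, rfl⟩

end Main

end Pool.Agent.W692.NN
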