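import Pool.Agent.W692.PiBase

set_option autoImplicit false

open Filter Topology

namespace Pool.Agent.W692.PiBase

/-- Basic weak neighbourhoods. -/
theorem exists_weak_nhd {X : Type*} [NormedAddCommGroup X] [NormedSpace ℝ X]
    {V : Set (WeakSpace ℝ X)} (hV : IsOpen V) {x₀ : X} (hx₀ : toWeakSpace ℝ X x₀ ∈ V) :
    ∃ (s : Set (X →L[ℝ] ℝ)) (ε : ℝ), s.Finite ∧ 0 < ε ∧
      ∀ y : X, (∀ F ∈ s, |F (y - x₀)| < ε) → toWeakSpace ℝ X y ∈ V := by
  have h0 : @IsOpen X (TopologicalSpace.induced (fun (x : X) (F : X →L[ℝ] ℝ) => F x)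
      Pi.topologicalSpace) (toWeakSpace ℝ X ⁻¹' V) := hV
  obtain ⟨t, ht0, htV0⟩ := isOpen_induced_iff.1 h0
  have hmem : (fun F : X →L[ℝ] ℝ => F x₀) ∈ t := by
    have h3 : x₀ ∈ (fun (x : X) (F : X →L[ℝ] ℝ) => F x) ⁻¹' t := by rw [htV0]; exact hx₀
    exact h3
  have ht : t ∈ 𝓝 (fun F : X →L[ℝ] ℝ => F x₀) := ht0.mem_nhds hmem
  have htV : ∀ y : X, (fun F : X →L[ℝ] ℝ => F y) ∈ t → toWeakSpace ℝ X y ∈ V := by
    intro y hy
    have h3 : y ∈ (fun (x : X) (F : X →L[ℝ] ℝ) => F x) ⁻¹' t := hy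
    rw [htV0] at h3
    exact h3
  rw [nhds_pi, mem_pi] at ht
  obtain ⟨I, hI, u, hu, hut⟩ := ht
  have h2 : ∀ᶠ r : ℝ in 𝓝[>] 0, ∀ F ∈ I, ∀ z : ℝ, |z - F x₀| < r → z ∈ u F := by
    rw [eventually_all_finite hI]
    intro F _
    obtain ⟨r, hr, hr2⟩ := Metric.mem_nhds_iff.1 (hu F)
    have h3 : ∀ᶠ r' : ℝ in 𝓝[>] 0, r' < r :=
      (eventually_lt_nhds hr).filter_mono nhdsWithin_le_nhds
    filter_upwards [h3] with r' hr' z hz
    apply hr2
    rw [Metric.mem_ball, Real.dist_eq]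
    exact lt_trans hz hr'
  obtain ⟨r, hr1, hr2⟩ := (h2.and self_mem_nhdsWithin).exists
  refine ⟨I, r, hI, hr2, fun y hy => ?_⟩
  apply htV
  apply hut
  intro F hF
  apply hr1 F hF
  have := hy F hF
  rwa [map_sub] at this

variable {X : Type*} [NormedAddCommGroup X] [NormedSpace ℝ X]

/-- The coordinate functionals of a basis as in the statement. -/
theorem exists_coord (e : ℕ → X)
    (H1 : ∀ x : X, ∃! a : ℕ → ℝ, HasSum (fun n => a n • e n) x)
    (H2 : ∀ (s : Finset ℕ) (a ε : ℕ → ℝ), (∀ n, ε n = 1 ∨ ε n = -1) →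
      ‖∑ n ∈ s, (ε n * a n) • e n‖ ≤ ‖∑ n ∈ s, a n • e n‖) :
    ∃ g : ℕ → X →ₗ[ℝ] ℝ, Coord e g := by
  classical
  choose a ha ha' using fun x => (H1 x)
  simp only at ha'
  have huniq : ∀ x (b : ℕ → ℝ), HasSum (fun n => b n • e n) x → b = a x := fun x b hb => ha' x b hb
  have hadd : ∀ x y, a (x + y) = a x + a y := by
    intro x y
    refine (huniq (x + y) (a x + a y) ?_).symm
    have := (ha x).add (ha y)
    simpa [add_smul] using this
  have hsmul : ∀ (c : ℝ) x, a (c • x) = c • a x := by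
    intro c x
    refine (huniq (c • x) (c • a x) ?_).symm
    have := (ha x).const_smul c
    simpa [smul_smul] using this
  let g : ℕ → X →ₗ[ℝ] ℝ := fun n =>
    { toFun := fun x => a x n
      map_add' := fun x y => by rw [hadd]; rfl
      map_smul' := fun c x => by rw [hsmul]; rfl }
  have hg : ∀ n x, g n x = a x n := fun n x => rfl
  refine ⟨g, fun x => ha x, ?_, ?_⟩
  · intro n m
    have h1 : (Pi.single m (1 : ℝ) : ℕ → ℝ) = a (e m) := by
      apply huniq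
      have h2 : HasSum (fun n => (Pi.single m (1 : ℝ) : ℕ → ℝ) n • e n)
          ((Pi.single m (1 : ℝ) : ℕ → ℝ) m • e m) := by
        apply hasSum_single
        intro b hb
        rw [Pi.single_eq_of_ne hb, zero_smul]
      rwa [Pi.single_eq_same, one_smul] at h2
    rw [hg, ← h1, Pi.single_apply]
  · intro x D ε hε
    have hε' : ∀ n, ε n = 1 ∨ ε n = -1 := fun n => (abs_eq (zero_le_one)).1 (hε n)
    have hsq : ∀ n, ε n * ε n = 1 := fun n => by rcases hε' n with h | h <;> rw [h] <;> norm_num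
    -- finite projections
    have key : ∀ s : Finset ℕ, D ⊆ s →
        ‖∑ n ∈ D, (ε n * g n x) • e n‖ ≤ ‖∑ n ∈ s, g n x • e n‖ := by
      intro s hs
      have h1 := H2 s (fun n => g n x) ε hε'
      have h2 := H2 s (fun n => g n x) (fun n => if n ∈ D then ε n else - ε n) (fun n => by
        by_cases hn : n ∈ D
        · simp only [hn, if_true]; exact hε' n
        · simp only [hn, if_false]
          rcases hε' n with h | h
          · right; rw [h]
          · left; rw [h, neg_neg])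
      have h3 : ∑ n ∈ D, (ε n * g n x) • e n = (1 / 2 : ℝ) •
          (∑ n ∈ s, (ε n * g n x) • e n +
            ∑ n ∈ s, ((if n ∈ D then ε n else - ε n) * g n x) • e n) := by
        rw [← Finset.sum_add_distrib, Finset.smul_sum, ← Finset.sum_subset hs]
        · refine Finset.sum_congr rfl fun n hn => ?_
          rw [if_pos hn, ← two_smul ℝ, smul_smul]
          norm_num
        · intro n _ hn
          rw [if_neg hn, ← add_smul]
          simp
      rw [h3, norm_smul]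
      have h4 := norm_add_le (∑ n ∈ s, (ε n * g n x) • e n)
        (∑ n ∈ s, ((if n ∈ D then ε n else - ε n) * g n x) • e n)
      rw [Real.norm_of_nonneg (by norm_num : (0 : ℝ) ≤ 1 / 2)]
      linarith
    have h5 : Tendsto (fun s : Finset ℕ => ‖∑ n ∈ s, g n x • e n‖) atTop (𝓝 ‖x‖) :=
      (ha x).norm
    refine ge_of_tendsto h5 ?_
    filter_upwards [eventually_ge_atTop D] with s hs
    exact key s hs

/-- coordinate functionals are continuous for the weak topology -/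
theorem coord_continuous {e : ℕ → X} {g : ℕ → X →ₗ[ℝ] ℝ} (h : Coord e g) (n : ℕ) :
    Continuous fun x : WeakSpace ℝ X => g n ((toWeakSpace ℝ X).symm x) := by
  have hne : e n ≠ 0 := by
    intro h0
    have := h.bio n n
    rw [h0, map_zero, if_pos rfl] at this
    exact zero_ne_one this
  have hpos : 0 < ‖e n‖ := norm_pos_iff.2 hne
  let G : X →L[ℝ] ℝ := (g n).mkContinuous (‖e n‖⁻¹) (by
    intro x
    have h1 := h.bd x {n} (fun _ => 1) (by simp)
    rw [Finset.sum_singleton, one_mul, norm_smul] at h1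
    rw [inv_mul_eq_div, le_div_iff₀ hpos]
    exact h1)
  exact WeakBilin.eval_continuous _ G

theorem main (e : ℕ → X)
    (H1 : ∀ x : X, ∃! a : ℕ → ℝ, HasSum (fun n => a n • e n) x)
    (H2 : ∀ (s : Finset ℕ) (a ε : ℕ → ℝ), (∀ n, ε n = 1 ∨ ε n = -1) →
      ‖∑ n ∈ s, (ε n * a n) • e n‖ ≤ ‖∑ n ∈ s, a n • e n‖) :
    ∃ U : ℕ → Set (WeakSpace ℝ X),
      (∀ n, IsOpen (U n) ∧
          (U n ∩ (toWeakSpace ℝ X) '' Metric.closedBall (0 : X) 1).Nonempty) ∧
      ∀ V : Set (WeakSpace ℝ X), IsOpen V →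
        (V ∩ (toWeakSpace ℝ X) '' Metric.closedBall (0 : X) 1).Nonempty →
          ∃ n, U n ∩ (toWeakSpace ℝ X) '' Metric.closedBall (0 : X) 1 ⊆ V := by
  classical
  obtain ⟨g, h⟩ := exists_coord e H1 H2
  -- cylinders
  let C : Finset ℕ × (ℕ →₀ ℚ) × ℚ → Set (WeakSpace ℝ X) := fun p =>
    {x | ∀ n ∈ p.1, |g n ((toWeakSpace ℝ X).symm x) - (p.2.1 n : ℝ)| < (p.2.2 : ℝ)}
  have hCopen : ∀ p, IsOpen (C p) := by
    intro p
    have h1 : C p = ⋂ n ∈ p.1,
        {x | |g n ((toWeakSpace ℝ X).symm x) - (p.2.1 n : ℝ)| < (p.2.2 : ℝ)} := by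
      ext x
      simp [C]
    rw [h1]
    refine isOpen_biInter_finset fun n _ => ?_
    exact isOpen_lt ((coord_continuous h n).sub continuous_const).abs continuous_const
  let J : Set (Finset ℕ × (ℕ →₀ ℚ) × ℚ) :=
    {p | (C p ∩ (toWeakSpace ℝ X) '' Metric.closedBall (0 : X) 1).Nonempty}
  have hJne : Nonempty J := by
    refine ⟨⟨(∅, 0, 0), ?_⟩⟩
    refine ⟨0, by simp [C], ⟨0, by simp, by simp⟩⟩
  obtain ⟨φ, hφ⟩ := exists_surjective_nat J
  refine ⟨fun n => C (φ n).1, fun n => ⟨hCopen _, (φ n).2⟩, ?_⟩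
  rintro V hV ⟨_, hx₀V, ⟨x₀, hx₀, rfl⟩⟩
  rw [mem_closedBall_zero_iff] at hx₀
  obtain ⟨s, ε, hs, hε, hsV⟩ := exists_weak_nhd hV hx₀V
  have : Fintype s := hs.fintype
  obtain ⟨D, x, ρ, hρ, hx1, hcyl⟩ := exists_cylinder h (fun F : s => (F : X →L[ℝ] ℝ)) hx₀ hε
  -- rational approximation
  obtain ⟨r, hr1, hr2⟩ := exists_rat_btwn (show ρ / 4 < ρ / 2 by linarith)
  have hq : ∀ n, ∃ q : ℚ, |g n x - (q : ℝ)| < ρ / 4 := by
    intro n
    obtain ⟨q, hq1, hq2⟩ := exists_rat_btwn (show g n x - ρ / 4 < g n x by linarith)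
    exact ⟨q, by rw [abs_lt]; constructor <;> linarith⟩
  choose q hq using hq
  let Q : ℕ →₀ ℚ := Finsupp.onFinset D (fun n => if n ∈ D then q n else 0) (by
    intro n hn
    by_contra h0
    exact hn (if_neg h0))
  have hQ : ∀ n ∈ D, Q n = q n := by
    intro n hn
    change (if n ∈ D then q n else 0) = q n
    rw [if_pos hn]
  have hmem : ((D, Q, r) : Finset ℕ × (ℕ →₀ ℚ) × ℚ) ∈ J := by
    refine ⟨toWeakSpace ℝ X x, ?_, ⟨x, by simpa using hx1, rfl⟩⟩
    intro n hn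
    change |g n ((toWeakSpace ℝ X).symm (toWeakSpace ℝ X x)) - (Q n : ℝ)| < (r : ℝ)
    rw [LinearEquiv.symm_apply_apply, hQ n hn]
    exact (hq n).trans hr1
  obtain ⟨k, hk⟩ := hφ ⟨_, hmem⟩
  refine ⟨k, ?_⟩
  rintro _ ⟨hyC, ⟨y, hy, rfl⟩⟩
  rw [mem_closedBall_zero_iff] at hy
  simp only [hk] at hyC
  apply hsV
  intro F hF
  refine hcyl y hy (fun n hn => ?_) ⟨F, hF⟩
  have h1 := hyC n hn
  change |g n ((toWeakSpace ℝ X).symm (toWeakSpace ℝ X y)) - (Q n : ℝ)| < (r : ℝ) at h1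
  rw [LinearEquiv.symm_apply_apply, hQ n hn] at h1
  have h2 := hq n
  calc |g n y - g n x| = |(g n y - (q n : ℝ)) - (g n x - (q n : ℝ))| := by congr 1; ring
    _ ≤ |g n y - (q n : ℝ)| + |g n x - (q n : ℝ)| := abs_sub _ _
    _ < ρ := by linarith

end Pool.Agent.W692.PiBase
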