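import Pool.Agent.W957.CH.Stm

/-! Project CH, part FAN: two paths to a set. -/

set_option autoImplicit false

namespace Pool.Agent.W692.CHFan

open Finset Pool.Agent.W957.CH

variable {V : Type}

theorem last_app (A B : List V) (x : V) : (A ++ x :: B).getLast? = (x :: B).getLast? := by
  rw [List.getLast?_append, List.getLast?_cons]
  rfl

/-- PF, list form -/
theorem PF.rev {G : SimpleGraph V} {s t : V} {l : List V} (h : PF G s t l) : PF G t s l.reverse := by
  obtain ⟨⟨hn, hc⟩, hh, hl⟩ := h
  refine ⟨⟨List.nodup_reverse.2 hn, ?_⟩, ?_, ?_⟩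
  · rw [List.isChain_reverse]
    exact (List.IsChain.iff (fun a b => G.adj_comm a b)).1 hc
  · rw [List.head?_reverse]; exact hl
  · rw [List.getLast?_reverse]; exact hh

/-- first hit -/
theorem ext (G : SimpleGraph V) (Q S : V → Prop) {x y : V}
    (h : Relation.ReflTransGen (fun a b => G.Adj a b ∧ Q b) x y) (hx : Q x) (hy : S y) :
    ∃ (l : List V) (e : V), PF G x e l ∧ (∀ v ∈ l, Q v) ∧ S e ∧ ∀ v ∈ l, S v → v = e := by
  classical
  induction h using Relation.ReflTransGen.head_induction_on with
  | refl =>
    exact ⟨[y], y, ⟨⟨by simp, by simp⟩, rfl, rfl⟩, by simpa using hx, hy, by simp⟩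
  | @head a b hab hbc ih =>
    obtain ⟨l, e, ⟨⟨hn, hc⟩, hh, hl⟩, hQ, hS, hu⟩ := ih hab.2
    by_cases hSa : S a
    · exact ⟨[a], a, ⟨⟨by simp, by simp⟩, rfl, rfl⟩, by simpa using hx, hSa, by simp⟩
    · by_cases hal : a ∈ l
      · obtain ⟨A, B, rfl⟩ := List.append_of_mem hal
        have hsub : ∀ v, v ∈ a :: B → v ∈ A ++ a :: B := fun v hv => List.mem_append_right _ hv
        refine ⟨a :: B, e, ⟨⟨(List.nodup_append.1 hn).2.1, hc.right_of_append⟩, rfl, ?_⟩,
          fun v hv => hQ v (hsub v hv), hS, fun v hv => hu v (hsub v hv)⟩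
        rw [last_app] at hl
        exact hl
      · refine ⟨a :: l, e, ⟨⟨List.nodup_cons.2 ⟨hal, hn⟩, hc.cons ?_⟩, rfl, ?_⟩, ?_, hS, ?_⟩
        · intro y hy
          rw [hh] at hy
          rw [Option.mem_some_iff.1 hy] at hab
          exact hab.1
        · cases l with
          | nil => simp at hh
          | cons c l => rw [List.getLast?_cons_cons]; exact hl
        · intro v hv
          rcases List.mem_cons.1 hv with rfl | hv
          · exact hx
          · exact hQ v hv
        · intro v hv hSv
          rcases List.mem_cons.1 hv with rfl | hv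
          · exact absurd hSv hSa
          · exact hu v hv hSv

theorem reach_of_chain (G : SimpleGraph V) (Q : V → Prop) (b : V) : ∀ (l : List V) (a : V),
    (a :: l).IsChain G.Adj → (∀ v ∈ l, Q v) → (a :: l).getLast? = some b →
    Relation.ReflTransGen (fun a b => G.Adj a b ∧ Q b) a b := by
  intro l
  induction l with
  | nil =>
    intro a _ _ h
    have : a = b := by simpa using h
    rw [this]
  | cons c l ih =>
    intro a hc hQ hl
    rw [List.getLast?_cons_cons] at hl
    have h1 : G.Adj a c := (List.isChain_cons_cons.1 hc).1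
    have h2 : (c :: l).IsChain G.Adj := (List.isChain_cons_cons.1 hc).2
    exact Relation.ReflTransGen.head ⟨h1, hQ c (by simp)⟩
      (ih c h2 (fun v hv => hQ v (List.mem_cons_of_mem _ hv)) hl)

/-- rerouting -/
theorem splice {G : SimpleGraph V} {A1 A2 B Q : List V} {s t x y e : V}
    (hF : PF G s t (A1 ++ e :: (A2 ++ y :: B))) (hQ : PF G x e Q)
    (hd : ∀ v ∈ Q, v ∈ A1 ++ e :: (A2 ++ y :: B) → v = e) (hxy : G.Adj x y) :
    PF G s t (A1 ++ (Q.reverse ++ y :: B)) := by
  obtain ⟨⟨hn, hc⟩, hh, hl⟩ := hF
  obtain ⟨⟨hn', hc'⟩, hh', hl'⟩ := PF.rev hQ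
  have hcB : (y :: B).IsChain G.Adj :=
    (List.isChain_append.1 (List.isChain_cons.1 (List.isChain_append.1 hc).2.1).2).2.1
  have hmem : ∀ v, v ∈ Q.reverse → v ∈ Q := fun v hv => List.mem_reverse.1 hv
  have hn1 := List.nodup_append.1 hn
  have hn2 := List.nodup_cons.1 hn1.2.1
  have hn3 := List.nodup_append.1 hn2.2
  have heA1 : e ∉ A1 := fun h => hn1.2.2 e h e (by simp) rfl
  have heB : e ∉ y :: B := fun h => hn2.1 (List.mem_append_right _ h)
  refine ⟨⟨?_, ?_⟩, ?_, ?_⟩
  · rw [List.nodup_append]
    refine ⟨hn1.1, ?_, ?_⟩
    · rw [List.nodup_append]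
      refine ⟨hn', hn3.2.1, ?_⟩
      rintro a ha b hb rfl
      have h1 := hd a (hmem a ha) (List.mem_append_right _ (List.mem_cons_of_mem _
        (List.mem_append_right _ hb)))
      rw [h1] at hb
      exact heB hb
    · rintro a ha b hb rfl
      rcases List.mem_append.1 hb with hb | hb
      · have h1 := hd a (hmem a hb) (List.mem_append_left _ ha)
        rw [h1] at ha
        exact heA1 ha
      · exact hn1.2.2 a ha a (List.mem_cons_of_mem _ (List.mem_append_right _ hb)) rfl
  · rw [List.isChain_append]
    refine ⟨(List.isChain_append.1 hc).1, ?_, ?_⟩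
    · rw [List.isChain_append]
      refine ⟨hc', hcB, ?_⟩
      intro a ha b hb
      rw [hl'] at ha
      rw [← Option.mem_some_iff.1 ha]
      simp only [List.head?_cons, Option.mem_some_iff] at hb
      rw [← hb]
      exact hxy
    · intro a ha b hb
      have h1 := (List.isChain_append.1 hc).2.2 a ha
      rw [List.head?_append, hh'] at hb
      simp only [Option.some_or, Option.mem_some_iff] at hb
      rw [← hb]
      exact h1 e (by simp)
  · rw [List.head?_append] at hh ⊢
    rw [List.head?_append, hh']
    simpa using hh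
  · rw [last_app] at hl
    rw [← List.append_assoc, last_app]
    have h1 : (e :: (A2 ++ y :: B)).getLast? = (y :: B).getLast? := by
      rw [← List.cons_append, last_app]
    rw [h1] at hl
    exact hl

/-- the fan property of `y` -/
def Fn (G : SimpleGraph V) (W T : Finset V) (y : V) : Prop :=
  ∃ s ∈ T, ∃ t ∈ T, s ≠ t ∧ ∃ l1 l2, PF G s t (l1 ++ y :: l2) ∧ ∀ x ∈ l1 ++ y :: l2, x ∈ W

/-- the reachability form of the hypothesis -/
def NS (G : SimpleGraph V) (W T : Finset V) (x : V) : Prop :=
  ∀ u ∈ W, u ≠ x → ∃ t ∈ T, t ≠ u ∧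
    Relation.ReflTransGen (fun a b => G.Adj a b ∧ (b ∈ W ∧ b ≠ u)) x t

theorem fin_of_path {G : SimpleGraph V} {W T : Finset V} {s t x : V} {l : List V} (hs : s ∈ T)
    (ht : t ∈ T) (hst : s ≠ t) (hl : PF G s t l) (hx : x ∈ l) (hW : ∀ v ∈ l, v ∈ W) :
    Fn G W T x := by
  obtain ⟨l1, l2, rfl⟩ := List.append_of_mem hx
  exact ⟨s, hs, t, ht, hst, l1, l2, hl, hW⟩

theorem step [DecidableEq V] {G : SimpleGraph V} {W T : Finset V} {x y : V} (hTW : T ⊆ W)
    (hxy : G.Adj x y) (hxW : x ∈ W) (hyW : y ∈ W) (hxT : x ∉ T) (hNS : NS G W T x)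
    (hy : y ∈ T ∨ Fn G W T y) : Fn G W T x := by
  obtain ⟨t, htT, hty, hreach⟩ := hNS y hyW hxy.ne'
  rcases hy with hyT | ⟨s, hs, t', ht', hst, A, B, hF, hFW⟩
  · obtain ⟨l, e, hl, hQ, hS, -⟩ := ext G (fun v => v ∈ W ∧ v ≠ y) (fun v => v ∈ T) hreach
      ⟨hxW, hxy.ne⟩ htT
    have hyl : y ∉ l := fun h => (hQ y h).2 rfl
    have hel : e ∈ l := List.mem_of_getLast? hl.2.2
    have hye : y ≠ e := fun h => hyl (h ▸ hel)
    have hxl : x ∈ l := List.mem_of_head? hl.2.1
    refine fin_of_path (l := y :: l) hyT hS hye ?_ (List.mem_cons_of_mem _ hxl) ?_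
    · obtain ⟨⟨hn, hc⟩, hh, hla⟩ := hl
      refine ⟨⟨List.nodup_cons.2 ⟨hyl, hn⟩, hc.cons ?_⟩, rfl, ?_⟩
      · intro z hz
        rw [hh] at hz
        rw [← Option.mem_some_iff.1 hz]
        exact hxy.symm
      · cases l with
        | nil => simp at hh
        | cons c l => rw [List.getLast?_cons_cons]; exact hla
    · intro v hv
      rcases List.mem_cons.1 hv with rfl | hv
      · exact hyW
      · exact (hQ v hv).1
  · by_cases hxF : x ∈ A ++ y :: B
    · exact fin_of_path hs ht' hst hF hxF hFW
    · obtain ⟨Q, e, hQ, hQW, hS, hu⟩ := ext G (fun v => v ∈ W ∧ v ≠ y)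
        (fun v => v ∈ A ++ y :: B ∨ v ∈ T) hreach ⟨hxW, hxy.ne⟩ (Or.inr htT)
      have heQ : e ∈ Q := List.mem_of_getLast? hQ.2.2
      have hxQ : x ∈ Q := List.mem_of_head? hQ.2.1
      have hey : e ≠ y := (hQW e heQ).2
      have hd : ∀ v ∈ Q, v ∈ A ++ y :: B → v = e := fun v hv hv' => hu v hv (Or.inl hv')
      by_cases heF : e ∈ A ++ y :: B
      · rcases List.mem_append.1 heF with heA | heB
        · obtain ⟨A1, A2, rfl⟩ := List.append_of_mem heA
          rw [List.append_assoc, List.cons_append] at hF hd hFW
          refine fin_of_path hs ht' hst (splice hF hQ hd hxy) ?_ ?_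
          · simp [hxQ]
          · intro v hv
            rcases List.mem_append.1 hv with h | h
            · exact hFW v (List.mem_append_left _ h)
            · rcases List.mem_append.1 h with h | h
              · exact (hQW v (List.mem_reverse.1 h)).1
              · exact hFW v (List.mem_append_right _ (List.mem_cons_of_mem _
                  (List.mem_append_right _ h)))
        · have heB' : e ∈ B := by
            rcases List.mem_cons.1 heB with h | h
            · exact absurd h hey
            · exact h
          obtain ⟨B1, B2, rfl⟩ := List.append_of_mem heB'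
          have hrev : (A ++ y :: (B1 ++ e :: B2)).reverse =
              B2.reverse ++ e :: (B1.reverse ++ y :: A.reverse) := by simp
          have hF' := PF.rev hF
          rw [hrev] at hF'
          have hd' : ∀ v ∈ Q, v ∈ B2.reverse ++ e :: (B1.reverse ++ y :: A.reverse) → v = e := by
            intro v hv hv'
            rw [← hrev, List.mem_reverse] at hv'
            exact hd v hv hv'
          refine fin_of_path ht' hs hst.symm (splice hF' hQ hd' hxy) ?_ ?_
          · simp [hxQ]
          · intro v hv
            have hFW' : ∀ v ∈ B2.reverse ++ e :: (B1.reverse ++ y :: A.reverse), v ∈ W := by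
              intro v hv
              rw [← hrev, List.mem_reverse] at hv
              exact hFW v hv
            rcases List.mem_append.1 hv with h | h
            · exact hFW' v (List.mem_append_left _ h)
            · rcases List.mem_append.1 h with h | h
              · exact (hQW v (List.mem_reverse.1 h)).1
              · exact hFW' v (List.mem_append_right _ (List.mem_cons_of_mem _
                  (List.mem_append_right _ h)))
      · have heT : e ∈ T := by
          rcases hS with h | h
          · exact absurd h heF
          · exact h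
        have htF : t' ∈ A ++ y :: B := List.mem_of_getLast? hF.2.2
        have het : e ≠ t' := fun h => heF (h ▸ htF)
        refine fin_of_path (l := Q.reverse ++ y :: B) heT ht' het ?_ ?_ ?_
        · obtain ⟨⟨hn, hc⟩, hh, hl⟩ := hF
          obtain ⟨⟨hn', hc'⟩, hh', hl'⟩ := PF.rev hQ
          refine ⟨⟨?_, ?_⟩, ?_, ?_⟩
          · rw [List.nodup_append]
            refine ⟨hn', (List.nodup_append.1 hn).2.1, ?_⟩
            rintro a ha b hb rfl
            have h1 := hd a (List.mem_reverse.1 ha) (List.mem_append_right _ hb)
            rw [h1] at hb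
            exact heF (List.mem_append_right _ hb)
          · rw [List.isChain_append]
            refine ⟨hc', (List.isChain_append.1 hc).2.1, ?_⟩
            intro a ha b hb
            rw [hl'] at ha
            rw [← Option.mem_some_iff.1 ha]
            simp only [List.head?_cons, Option.mem_some_iff] at hb
            rw [← hb]
            exact hxy
          · rw [List.head?_append, hh']
            rfl
          · rw [last_app] at hl ⊢
            exact hl
        · simp [hxQ]
        · intro v hv
          rcases List.mem_append.1 hv with h | h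
          · exact (hQW v (List.mem_reverse.1 h)).1
          · exact hFW v (List.mem_append_right _ h)

theorem main_ind [DecidableEq V] {G : SimpleGraph V} {W T : Finset V} (hTW : T ⊆ W) :
    ∀ (l : List V) (x : V), (x :: l).IsChain G.Adj → (∀ v ∈ x :: l, v ∈ W) →
    (∀ v ∈ x :: l, v ∉ T → NS G W T v) → (∃ t ∈ T, (x :: l).getLast? = some t) →
    x ∈ T ∨ Fn G W T x := by
  intro l
  induction l with
  | nil =>
    rintro x _ _ _ ⟨t, ht, h⟩
    left
    have : x = t := by simpa using h
    rw [this]; exact ht
  | cons y l ih =>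
    rintro x hc hW hNS ⟨t, ht, h⟩
    rw [List.getLast?_cons_cons] at h
    by_cases hx : x ∈ T
    · left; exact hx
    · right
      have h1 := ih y (List.isChain_cons_cons.1 hc).2 (fun v hv => hW v (List.mem_cons_of_mem _ hv))
        (fun v hv => hNS v (List.mem_cons_of_mem _ hv)) ⟨t, ht, h⟩
      exact step hTW (List.isChain_cons_cons.1 hc).1 (hW x (by simp)) (hW y (by simp)) hx
        (hNS x (by simp) hx) h1

theorem reach_symm {G : SimpleGraph V} {W : Finset V} {u x z : V}
    (h : ∃ l : List V, (∀ v ∈ l, v ∈ W ∧ v ≠ u) ∧ l.IsChain G.Adj ∧ l.head? = some z ∧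
      l.getLast? = some x) :
    Relation.ReflTransGen (fun a b => G.Adj a b ∧ (b ∈ W ∧ b ≠ u)) x z := by
  obtain ⟨l, hl, hc, hh, hla⟩ := h
  have h1 : l.reverse.head? = some x := by rw [List.head?_reverse]; exact hla
  have h2 : l.reverse.getLast? = some z := by rw [List.getLast?_reverse]; exact hh
  have h3 : l.reverse.IsChain G.Adj := by
    rw [List.isChain_reverse]
    exact (List.IsChain.iff (fun a b => G.adj_comm a b)).1 hc
  have h4 : ∀ v ∈ l.reverse, v ∈ W ∧ v ≠ u := fun v hv => hl v (List.mem_reverse.1 hv)
  generalize l.reverse = l' at h1 h2 h3 h4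
  cases l' with
  | nil => simp at h1
  | cons a l' =>
    simp only [List.head?_cons, Option.some.injEq] at h1
    subst h1
    exact reach_of_chain G (fun v => v ∈ W ∧ v ≠ u) z l' a h3
      (fun v hv => h4 v (List.mem_cons_of_mem _ hv)) h2

theorem t_FAN : S_FAN := by
  intro V _ G W T z hzW hTW hzT hTne hNS
  obtain ⟨t0, ht0⟩ := hTne
  have hzt0 : t0 ≠ z := fun h => hzT (h ▸ ht0)
  obtain ⟨t, ht, l, hl, hlW⟩ := hNS t0 (hTW ht0) hzt0
  obtain ⟨⟨hn, hc⟩, hh, hla⟩ := hl
  cases l with
  | nil => simp at hh
  | cons a l =>
    simp only [List.head?_cons, Option.some.injEq] at hh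
    subst hh
    have hNSa : ∀ u ∈ W, u ≠ a → ∃ t ∈ T, t ≠ u ∧
        Relation.ReflTransGen (fun a b => G.Adj a b ∧ (b ∈ W ∧ b ≠ u)) a t := by
      intro u hu hua
      obtain ⟨t', ht', l', hl', hlW'⟩ := hNS u hu hua
      have ht'l : t' ∈ l' := List.mem_of_getLast? hl'.2.2
      refine ⟨t', ht', (hlW' t' ht'l).2, ?_⟩
      obtain ⟨⟨hn', hc'⟩, hh', hla'⟩ := hl'
      cases l' with
      | nil => simp at hh'
      | cons b l' =>
        simp only [List.head?_cons, Option.some.injEq] at hh'
        subst hh'
        exact reach_of_chain G (fun v => v ∈ W ∧ v ≠ u) t' l' b hc'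
          (fun v hv => hlW' v (List.mem_cons_of_mem _ hv)) hla'
    have hall : ∀ v ∈ a :: l, v ∉ T → NS G W T v := by
      intro x hx _ u hu hux
      obtain ⟨A, B, hAB⟩ := List.append_of_mem hx
      by_cases huB : u ∈ B
      · -- go back to `a`
        have hua : u ≠ a := by
          rintro rfl
          cases A with
          | nil =>
            simp only [List.nil_append, List.cons.injEq] at hAB
            exact hux hAB.1
          | cons c A =>
            simp only [List.cons_append, List.cons.injEq] at hAB
            rw [hAB.2, hAB.1] at hn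
            have := (List.nodup_cons.1 hn).1
            apply this
            rw [← hAB.1]
            exact List.mem_append_right _ (List.mem_cons_of_mem _ huB)
        obtain ⟨t', ht', htu, hr⟩ := hNSa u hu hua
        refine ⟨t', ht', htu, Relation.ReflTransGen.trans ?_ hr⟩
        apply reach_symm
        refine ⟨A ++ [x], ?_, ?_, ?_, ?_⟩
        · intro v hv
          have hv' : v ∈ a :: l := by
            rw [hAB]
            rcases List.mem_append.1 hv with h | h
            · exact List.mem_append_left _ h
            · exact List.mem_append_right _ (by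
                rw [List.mem_singleton] at h
                rw [h]; simp)
          refine ⟨(hlW v hv').1, ?_⟩
          rintro rfl
          rw [hAB] at hn
          have h1 := List.nodup_append.1 hn
          rcases List.mem_append.1 hv with h | h
          · exact h1.2.2 v h v (List.mem_cons_of_mem _ huB) rfl
          · rw [List.mem_singleton] at h
            exact hux h
        · rw [hAB] at hc
          exact (List.isChain_split.1 hc).1
        · have : (A ++ [x]).head? = (a :: l).head? := by
            rw [hAB, List.head?_append, List.head?_append]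
            rfl
          rw [this]; rfl
        · simp
      · refine ⟨t, ht, ?_, ?_⟩
        · rintro rfl
          -- `t` is the last element
          rw [hAB, last_app] at hla
          have := List.mem_of_getLast? hla
          rcases List.mem_cons.1 this with h | h
          · exact hux h
          · exact huB h
        · rw [hAB, last_app] at hla
          rw [hAB] at hc
          refine reach_of_chain G (fun v => v ∈ W ∧ v ≠ u) t B x (List.isChain_split.1 hc).2 ?_ hla
          intro v hv
          have hv' : v ∈ a :: l := by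
            rw [hAB]
            exact List.mem_append_right _ (List.mem_cons_of_mem _ hv)
          refine ⟨(hlW v hv').1, ?_⟩
          rintro rfl
          exact huB hv
    rcases main_ind hTW l a hc (fun v hv => (hlW v hv).1) hall ⟨t, ht, hla⟩ with h | h
    · exact absurd h hzT
    · exact h

end Pool.Agent.W692.CHFan
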