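import Pool.Agent.W960.HC.Defs

open Set Topology Filter MeasureTheory

namespace Pool.Agent.W692.HC

open Pool.Agent.W960.HC

lemma kp_lt_one {X : ℝ} (hX : 0 < X) : kp X < 1 := by
  unfold kp
  have h1 : X ^ 2 + 1 < Real.exp (X ^ 2) := Real.add_one_lt_exp (by positivity)
  have h2 : Real.exp (-X ^ 2) * Real.exp (X ^ 2) = 1 := by
    rw [← Real.exp_add]; simp
  have h3 : 0 < Real.exp (-X ^ 2) := Real.exp_pos _
  nlinarith

lemma et_sq {X : ℝ} (hX : 0 < X) : et X ^ 2 = 1 - kp X :=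
  Real.sq_sqrt (by linarith [kp_lt_one hX])

lemma et_nonneg (X : ℝ) : 0 ≤ et X := Real.sqrt_nonneg _

lemma et_pos {X : ℝ} (hX : 0 < X) : 0 < et X :=
  Real.sqrt_pos.2 (by linarith [kp_lt_one hX])

lemma hasDerivAt_kp (X : ℝ) : HasDerivAt kp (-(2 * X ^ 3 * Real.exp (-X ^ 2))) X := by
  have h1 : HasDerivAt (fun X : ℝ => -X ^ 2) (-(2 * X)) X := by
    have := (hasDerivAt_pow 2 X).fun_neg
    simpa using this
  have h2 : HasDerivAt (fun X : ℝ => 1 + X ^ 2) (2 * X) X := by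
    have := (hasDerivAt_pow 2 X).const_add 1
    simpa using this
  have h3 := h1.exp.fun_mul h2
  exact h3.congr_deriv (by ring)

lemma contDiff_kp : ContDiff ℝ 1 kp := by
  unfold kp
  fun_prop

lemma continuous_kp : Continuous kp := contDiff_kp.continuous

lemma continuous_et : Continuous et := by
  unfold et
  exact Real.continuous_sqrt.comp (continuous_const.sub continuous_kp)

lemma contDiffOn_et : ContDiffOn ℝ 1 et (Ioi 0) := by
  unfold et
  apply ContDiffOn.sqrt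
  · exact (contDiff_const.sub contDiff_kp).contDiffOn
  · intro x hx
    have := kp_lt_one hx
    linarith

lemma kap_zero (y : ℝ) : kap (0, y) = 1 - y ^ 2 := by
  simp [kap]

variable {a c R : ℝ} {Z : ℝ → ℝ × ℝ → ℝ → ℝ × ℝ} {W : ℝ → ℝ × ℝ → ℝ → ℝ}

lemma kap_flow (h : Flw a c R Z W) {p : ℝ × ℝ} {ε T : ℝ} (hε : |ε| < 1)
    (hb : ∀ t ∈ Icc 0 T, ‖Z t p ε‖ < R) :
    ∀ t ∈ Icc 0 T, kap (Z t p ε) = kap p - 2 * ε * W t p ε := by
  have key : ∀ t ∈ Icc 0 T, HasDerivAt (fun t => kap (Z t p ε) + 2 * ε * W t p ε) 0 t := by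
    intro t ht
    have h1 := h.der p ε t (hb t ht) hε
    have h2 := h.derW p ε t (hb t ht) hε
    have hx : HasDerivAt (fun t => (Z t p ε).1) (fld a c ε (Z t p ε)).1 t :=
      (ContinuousLinearMap.fst ℝ ℝ ℝ).hasFDerivAt.comp_hasDerivAt t h1
    have hy : HasDerivAt (fun t => (Z t p ε).2) (fld a c ε (Z t p ε)).2 t :=
      (ContinuousLinearMap.snd ℝ ℝ ℝ).hasFDerivAt.comp_hasDerivAt t h1
    have h3 := ((hx.fun_pow 2).fun_neg.exp.fun_mul
      (((hx.fun_pow 2).const_add 1).fun_sub (hy.fun_pow 2))).fun_add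
      (h2.const_mul (2 * ε))
    refine HasDerivAt.congr_deriv (f := fun t => kap (Z t p ε) + 2 * ε * W t p ε) h3 ?_
    simp only [fld, G]
    push_cast
    ring
  intro t ht
  have h4 := constant_of_has_deriv_right_zero
    (f := fun t => kap (Z t p ε) + 2 * ε * W t p ε) (a := 0) (b := T)
    (fun t ht => (key t ht).continuousAt.continuousWithinAt)
    (fun t ht => (key t ⟨ht.1, ht.2.le⟩).hasDerivWithinAt) t ht
  simp only [h.zero, h.wzero] at h4
  linarith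


/-- the reduced displacement -/
noncomputable def wf (Z : ℝ → ℝ × ℝ → ℝ → ℝ × ℝ) (W : ℝ → ℝ × ℝ → ℝ → ℝ) (τ : ℝ × ℝ → ℝ) (q : ℝ × ℝ) : ℝ :=
  W (τ q) (0, et q.1) q.2

lemma wf_contDiffOn (h : Flw a c R Z W) {X₀ δ : ℝ} {τ : ℝ × ℝ → ℝ}
    (hh : Half a c R X₀ Z W τ δ) :
    ContDiffOn ℝ 1 (wf Z W τ) (Ioo (X₀ - δ) (X₀ + δ) ×ˢ Ioo (-δ) δ) := by
  have h1 : ContDiff ℝ 1 (fun q : ℝ × (ℝ × ℝ) × ℝ => W q.1 q.2.1 q.2.2) :=
    h.smW.of_le (by norm_num)
  have h2 : ContDiffOn ℝ 1 (fun q : ℝ × ℝ => et q.1) (Ioo (X₀ - δ) (X₀ + δ) ×ˢ Ioo (-δ) δ) := by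
    refine contDiffOn_et.comp contDiff_fst.contDiffOn ?_
    intro q hq
    have := hh.hδ0
    exact lt_trans (by linarith) hq.1.1
  have h3 : ContDiffOn ℝ 1 (fun q : ℝ × ℝ => ((τ q, ((0 : ℝ), et q.1), q.2) : ℝ × (ℝ × ℝ) × ℝ))
      (Ioo (X₀ - δ) (X₀ + δ) ×ˢ Ioo (-δ) δ) :=
    hh.smooth.prodMk ((contDiffOn_const.prodMk h2).prodMk contDiff_snd.contDiffOn)
  exact h1.comp_contDiffOn h3

/-- the partial derivative in `X` -/
noncomputable def Dw (Z : ℝ → ℝ × ℝ → ℝ → ℝ × ℝ) (W : ℝ → ℝ × ℝ → ℝ → ℝ) (τ : ℝ × ℝ → ℝ)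
    (q : ℝ × ℝ) : ℝ := fderiv ℝ (wf Z W τ) q (1, 0)

lemma box_open (X₀ δ : ℝ) : IsOpen (Ioo (X₀ - δ) (X₀ + δ) ×ˢ Ioo (-δ) δ : Set (ℝ × ℝ)) :=
  isOpen_Ioo.prod isOpen_Ioo

lemma Dw_continuousOn (h : Flw a c R Z W) {X₀ δ : ℝ} {τ : ℝ × ℝ → ℝ}
    (hh : Half a c R X₀ Z W τ δ) :
    ContinuousOn (Dw Z W τ) (Ioo (X₀ - δ) (X₀ + δ) ×ˢ Ioo (-δ) δ) :=
  ((wf_contDiffOn h hh).continuousOn_fderiv_of_isOpen (box_open X₀ δ) le_rfl).clm_apply
    continuousOn_const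

lemma wf_hasDerivAt (h : Flw a c R Z W) {X₀ δ : ℝ} {τ : ℝ × ℝ → ℝ}
    (hh : Half a c R X₀ Z W τ δ) {X ε : ℝ}
    (hq : (X, ε) ∈ (Ioo (X₀ - δ) (X₀ + δ) ×ˢ Ioo (-δ) δ : Set (ℝ × ℝ))) :
    HasDerivAt (fun X => wf Z W τ (X, ε)) (Dw Z W τ (X, ε)) X := by
  have h1 : DifferentiableAt ℝ (wf Z W τ) (X, ε) :=
    ((wf_contDiffOn h hh).differentiableOn one_ne_zero).differentiableAt
      ((box_open X₀ δ).mem_nhds hq)
  have h2 : HasDerivAt (fun X : ℝ => (X, ε)) ((1 : ℝ), (0 : ℝ)) X :=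
    (hasDerivAt_id X).prodMk (hasDerivAt_const X ε)
  exact h1.hasFDerivAt.comp_hasDerivAt X h2

theorem branch {a c R X₀ m : ℝ} (hX₀ : 0 < X₀) {Z : ℝ → ℝ × ℝ → ℝ → ℝ × ℝ} {W : ℝ → ℝ × ℝ → ℝ → ℝ}
    (h : Flw a c R Z W) {τ : ℝ × ℝ → ℝ} {δ : ℝ} (hh : Half a c R X₀ Z W τ δ)
    (h0 : Mel a c X₀ = 0) (hm : HasDerivAt (Mel a c) m X₀) (hm0 : m ≠ 0) {s : ℝ} (hs : 0 < s) :
    ∃ ε₀ > 0, ∀ ε ∈ Ioo 0 ε₀, ∃ X r : ℝ, 0 < r ∧ X₀ - δ < X - r ∧ X + r < X₀ + δ ∧ ε < δ ∧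
      W (τ (X, ε)) (0, et X) ε = 0 ∧ Z (τ (X, ε)) (0, et X) ε = (0, -et X) ∧
      (∀ t ∈ Icc 0 (τ (X, ε)), |kap (Z t (0, et X) ε) - kp X₀| < s) ∧
      (∀ X' ∈ Ioo (X - r) (X + r), X' ≠ X →
        Z (τ (X', ε)) (0, et X') ε ≠ (0, -et X')) ∧
      (∀ X' ∈ Ioo (X - r) (X + r), ∀ X'' ∈ Ioo (X - r) (X + r), X' < X'' →
        (Z (τ (X'', ε)) (0, et X'') ε).2 < (Z (τ (X', ε)) (0, et X') ε).2) := by
  have hδ := hh.hδ
  have hδ0 := hh.hδ0
  have hδ1 := hh.hδ1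
  -- the box
  set B : Set (ℝ × ℝ) := Ioo (X₀ - δ) (X₀ + δ) ×ˢ Ioo (-δ) δ with hB
  have hBo : IsOpen B := box_open X₀ δ
  have hX₀B : (X₀, (0 : ℝ)) ∈ B := ⟨⟨by simpa using hδ, by simpa using hδ⟩, ⟨by simpa using hδ, hδ⟩⟩
  set w := wf Z W τ with hw
  set D := Dw Z W τ with hD
  have hwc : ContinuousOn w B := (wf_contDiffOn h hh).continuousOn
  have hDc : ContinuousOn D B := Dw_continuousOn h hh
  -- derivative at the centre
  have hD0 : D (X₀, 0) = 2 * m := by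
    have h1 : HasDerivAt (fun X => w (X, 0)) (D (X₀, 0)) X₀ := wf_hasDerivAt h hh hX₀B
    have h2 : HasDerivAt (fun X => 2 * Mel a c X) (2 * m) X₀ := hm.const_mul 2
    have h3 : (fun X => w (X, 0)) =ᶠ[𝓝 X₀] (fun X => 2 * Mel a c X) := by
      filter_upwards [Ioo_mem_nhds (show X₀ - δ < X₀ by linarith) (show X₀ < X₀ + δ by linarith)]
        with X hX
      exact hh.mel X hX
    exact h1.unique (h2.congr_of_eventuallyEq h3)
  have hw0 : w (X₀, 0) = 0 := by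
    have := hh.mel X₀ ⟨by linarith, by linarith⟩
    change W (τ (X₀, 0)) (0, et X₀) 0 = 0
    rw [this, h0, mul_zero]
  -- the small box
  have hev : ∀ᶠ q in 𝓝 (X₀, (0 : ℝ)), |D q - 2 * m| < |m| ∧ |kp q.1 - kp X₀| < s / 2 := by
    have e1 : ∀ᶠ q in 𝓝 (X₀, (0 : ℝ)), |D q - 2 * m| < |m| := by
      have : ContinuousAt D (X₀, 0) := hDc.continuousAt (hBo.mem_nhds hX₀B)
      have h4 := (Metric.continuousAt_iff'.1 this) |m| (abs_pos.2 hm0)
      simpa [hD0, Real.dist_eq] using h4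
    have e2 : ∀ᶠ q in 𝓝 (X₀, (0 : ℝ)), |kp q.1 - kp X₀| < s / 2 := by
      have : ContinuousAt (fun q : ℝ × ℝ => kp q.1) (X₀, 0) :=
        (continuous_kp.comp continuous_fst).continuousAt
      have h4 := (Metric.continuousAt_iff'.1 this) (s / 2) (by linarith)
      simpa [Real.dist_eq] using h4
    exact e1.and e2
  obtain ⟨r0, hr0, hr0'⟩ := Metric.eventually_nhds_iff.1 hev
  set r' : ℝ := min r0 δ / 2 with hr'
  have hr'pos : 0 < r' := by
    have := lt_min hr0 hδ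
    rw [hr']; linarith
  have hr'r0 : r' < r0 := by
    have := min_le_left r0 δ
    have := lt_min hr0 hδ
    rw [hr']; linarith
  have hr'δ : r' < δ := by
    have := min_le_right r0 δ
    have := lt_min hr0 hδ
    rw [hr']; linarith
  have hsmall : ∀ X ∈ Icc (X₀ - r') (X₀ + r'), ∀ ε ∈ Icc (-r') r',
      |D (X, ε) - 2 * m| < |m| ∧ |kp X - kp X₀| < s / 2 := by
    intro X hX ε hε
    refine hr0' (y := (X, ε)) ?_
    rw [Prod.dist_eq, max_lt_iff, Real.dist_eq, Real.dist_eq]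
    constructor
    · rw [abs_lt]; constructor <;> linarith [hX.1, hX.2]
    · rw [abs_lt]; constructor <;> simp only [] <;> linarith [hε.1, hε.2]
  have hKB : ∀ X ∈ Icc (X₀ - r') (X₀ + r'), ∀ ε ∈ Icc (-r') r', (X, ε) ∈ B := by
    intro X hX ε hε
    exact ⟨⟨by simp only []; linarith [hX.1], by simp only []; linarith [hX.2]⟩,
      ⟨by simp only []; linarith [hε.1], by simp only []; linarith [hε.2]⟩⟩
  -- strict monotonicity of m * w
  have hmono : ∀ ε ∈ Icc (-r') r', StrictMonoOn (fun X => m * w (X, ε)) (Icc (X₀ - r') (X₀ + r')) := by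
    intro ε hε
    apply strictMonoOn_of_deriv_pos (convex_Icc _ _)
    · intro X hX
      exact ((wf_hasDerivAt h hh (hKB X hX ε hε)).const_mul m).continuousAt.continuousWithinAt
    · intro X hX
      rw [interior_Icc] at hX
      have hX' : X ∈ Icc (X₀ - r') (X₀ + r') := ⟨hX.1.le, hX.2.le⟩
      rw [((wf_hasDerivAt h hh (hKB X hX' ε hε)).const_mul m).deriv]
      have h5 := (hsmall X hX' ε hε).1
      change 0 < m * D (X, ε)
      have h6 : |m * (D (X, ε) - 2 * m)| < m ^ 2 := by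
        rw [abs_mul, ← sq_abs, sq]
        exact mul_lt_mul_of_pos_left h5 (abs_pos.2 hm0)
      have h7 := (abs_lt.1 h6).1
      nlinarith [sq_pos_of_ne_zero hm0]
  have hl0 : m * w (X₀ - r', 0) < 0 := by
    have := hmono 0 ⟨by linarith, by linarith⟩ (a := X₀ - r') ⟨le_rfl, by linarith⟩ (b := X₀)
      ⟨by linarith, by linarith⟩ (by linarith)
    simpa [hw0] using this
  have hu0 : 0 < m * w (X₀ + r', 0) := by
    have := hmono 0 ⟨by linarith, by linarith⟩ (a := X₀) ⟨by linarith, by linarith⟩ (b := X₀ + r')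
      ⟨by linarith, by linarith⟩ (by linarith)
    simpa [hw0] using this
  have hcε : ∀ X ∈ Icc (X₀ - r') (X₀ + r'), ContinuousAt (fun ε : ℝ => m * w (X, ε)) 0 := by
    intro X hX
    have h8 : ContinuousAt w (X, 0) :=
      hwc.continuousAt (hBo.mem_nhds (hKB X hX 0 ⟨by linarith, by linarith⟩))
    have h9 : ContinuousAt (fun ε : ℝ => (X, ε)) 0 := by fun_prop
    exact continuousAt_const.mul (ContinuousAt.comp (g := w) (f := fun ε : ℝ => (X, ε)) h8 h9)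
  have hevε : ∀ᶠ ε in 𝓝 (0 : ℝ), m * w (X₀ - r', ε) < 0 ∧ 0 < m * w (X₀ + r', ε) :=
    ((hcε (X₀ - r') ⟨le_rfl, by linarith⟩).eventually (gt_mem_nhds hl0)).and
      ((hcε (X₀ + r') ⟨by linarith, le_rfl⟩).eventually (lt_mem_nhds hu0))
  obtain ⟨ε₁, hε₁, hε₁'⟩ := Metric.eventually_nhds_iff.1 hevε
  -- bounds
  obtain ⟨T, hT⟩ : ∃ T, ∀ q ∈ (Icc (X₀ - r') (X₀ + r') ×ˢ Icc (-r') r' : Set (ℝ × ℝ)), ‖τ q‖ ≤ T :=
    (isCompact_Icc.prod isCompact_Icc).exists_bound_of_continuousOn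
      (hh.smooth.continuousOn.mono (fun q hq => hKB q.1 hq.1 q.2 hq.2))
  obtain ⟨C, hC⟩ : ∃ C, ∀ q ∈ (Icc 0 T ×ˢ (Icc (X₀ - r') (X₀ + r') ×ˢ Icc (-r') r') :
      Set (ℝ × (ℝ × ℝ))), ‖W q.1 (0, et q.2.1) q.2.2‖ ≤ C := by
    refine (isCompact_Icc.prod (isCompact_Icc.prod isCompact_Icc)).exists_bound_of_continuousOn ?_
    apply Continuous.continuousOn
    have h1 := h.smW.continuous
    have h2 : Continuous (fun q : ℝ × (ℝ × ℝ) => ((q.1, ((0 : ℝ), et q.2.1), q.2.2) :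
        ℝ × (ℝ × ℝ) × ℝ)) := by
      have := continuous_et
      fun_prop
    exact h1.comp h2
  set β : ℝ := (X₀ - r') ^ 3 * Real.exp (-(X₀ + r') ^ 2) with hβ
  have hXr : 0 < X₀ - r' := by linarith
  have hβpos : 0 < β := by positivity
  have hβle : ∀ X ∈ Icc (X₀ - r') (X₀ + r'), β ≤ X ^ 3 * Real.exp (-X ^ 2) := by
    intro X hX
    have hX0 : 0 < X := by linarith [hX.1]
    apply mul_le_mul
    · exact pow_le_pow_left₀ hXr.le hX.1 3
    · apply Real.exp_le_exp.2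
      have := pow_le_pow_left₀ hX0.le hX.2 2
      linarith
    · positivity
    · positivity
  have hC0 : 0 < |C| + 1 := by positivity
  have hm1 : 0 < |m| := abs_pos.2 hm0
  refine ⟨min (min ε₁ r') (min (s / (4 * (|C| + 1))) (β / (3 * |m|))), ?_, ?_⟩
  · refine lt_min (lt_min hε₁ hr'pos) (lt_min ?_ ?_) <;> positivity
  intro ε hε
  have hε0 : 0 < ε := hε.1
  have hεa : ε < ε₁ := lt_of_lt_of_le hε.2 ((min_le_left _ _).trans (min_le_left _ _))
  have hεb : ε < r' := lt_of_lt_of_le hε.2 ((min_le_left _ _).trans (min_le_right _ _))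
  have hεc : ε < s / (4 * (|C| + 1)) :=
    lt_of_lt_of_le hε.2 ((min_le_right _ _).trans (min_le_left _ _))
  have hεd : ε < β / (3 * |m|) :=
    lt_of_lt_of_le hε.2 ((min_le_right _ _).trans (min_le_right _ _))
  rw [lt_div_iff₀ (by positivity)] at hεc hεd
  have hεI : ε ∈ Icc (-r') r' := ⟨by linarith, hεb.le⟩
  have hεδ : ε ∈ Ioo (-δ) δ := ⟨by linarith, by linarith⟩
  have hεabs : |ε| < 1 := by rw [abs_of_pos hε0]; linarith
  obtain ⟨hlow, hup⟩ := hε₁' (y := ε) (by rw [Real.dist_eq, sub_zero, abs_of_pos hε0]; exact hεa)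
  have hcont : ContinuousOn (fun X => m * w (X, ε)) (Icc (X₀ - r') (X₀ + r')) := by
    intro X hX
    exact ((wf_hasDerivAt h hh (hKB X hX ε hεI)).const_mul m).continuousAt.continuousWithinAt
  obtain ⟨X, hX, hX0⟩ := intermediate_value_Ioo (show X₀ - r' ≤ X₀ + r' by linarith) hcont
    ⟨hlow, hup⟩
  have hwX : w (X, ε) = 0 := by
    simpa [hm0] using hX0
  -- facts on the half turn at any X' of the small box
  have hfact : ∀ X' ∈ Icc (X₀ - r') (X₀ + r'),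
      (Z (τ (X', ε)) (0, et X') ε).1 = 0 ∧ (Z (τ (X', ε)) (0, et X') ε).2 < 0 ∧
      (Z (τ (X', ε)) (0, et X') ε).2 ^ 2 = et X' ^ 2 + 2 * ε * w (X', ε) ∧
      (∀ t ∈ Icc 0 (τ (X', ε)), kap (Z t (0, et X') ε) = kp X' - 2 * ε * W t (0, et X') ε) := by
    intro X' hX'
    have hX'B : X' ∈ Ioo (X₀ - δ) (X₀ + δ) := ⟨by linarith [hX'.1], by linarith [hX'.2]⟩
    have hX'pos : 0 < X' := by linarith [hX'.1]
    have g1 := hh.hit X' hX'B ε hεδ
    have g2 := hh.neg X' hX'B ε hεδ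
    have g3 : ∀ t ∈ Icc 0 (τ (X', ε)),
        kap (Z t (0, et X') ε) = kp X' - 2 * ε * W t (0, et X') ε := by
      intro t ht
      rw [kap_flow h hεabs (hh.ball X' hX'B ε hεδ) t ht, kap_zero, et_sq hX'pos]
      ring
    refine ⟨g1, g2, ?_, g3⟩
    have g4 := g3 (τ (X', ε)) ⟨(hh.pos X' hX'B ε hεδ).le, le_rfl⟩
    have g5 : Z (τ (X', ε)) (0, et X') ε = (0, (Z (τ (X', ε)) (0, et X') ε).2) := by
      ext <;> simp [g1]
    rw [g5, kap_zero] at g4
    rw [et_sq hX'pos]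
    change _ = 1 - kp X' + 2 * ε * W (τ (X', ε)) (0, et X') ε
    linarith
  have hiff : ∀ X' ∈ Icc (X₀ - r') (X₀ + r'),
      (Z (τ (X', ε)) (0, et X') ε = (0, -et X') ↔ w (X', ε) = 0) := by
    intro X' hX'
    obtain ⟨g1, g2, g3, -⟩ := hfact X' hX'
    constructor
    · intro g
      rw [g] at g3
      simp only [] at g3
      have : 2 * ε * w (X', ε) = 0 := by nlinarith
      simpa [hε0.ne'] using this
    · intro g
      rw [g, mul_zero, add_zero] at g3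
      have g4 := et_nonneg X'
      have g5 : (Z (τ (X', ε)) (0, et X') ε).2 = -et X' := by
        have := abs_eq_abs.2 (sq_eq_sq_iff_eq_or_eq_neg.1 g3)
        rw [abs_of_neg g2, abs_of_nonneg g4] at this
        linarith
      ext
      · exact g1
      · exact g5
  have hXI : X ∈ Icc (X₀ - r') (X₀ + r') := ⟨hX.1.le, hX.2.le⟩
  set r : ℝ := min (X - (X₀ - r')) (X₀ + r' - X) with hr
  have hrpos : 0 < r := lt_min (by linarith [hX.1]) (by linarith [hX.2])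
  have hr1 : X₀ - r' ≤ X - r := by
    have := min_le_left (X - (X₀ - r')) (X₀ + r' - X)
    linarith
  have hr2 : X + r ≤ X₀ + r' := by
    have := min_le_right (X - (X₀ - r')) (X₀ + r' - X)
    linarith
  have hsub : ∀ X' ∈ Ioo (X - r) (X + r), X' ∈ Icc (X₀ - r') (X₀ + r') := fun X' hX' =>
    ⟨by linarith [hX'.1], by linarith [hX'.2]⟩
  refine ⟨X, r, hrpos, by linarith, by linarith, hεδ.2, hwX, (hiff X hXI).2 hwX, ?_, ?_, ?_⟩
  · intro t ht
    obtain ⟨-, -, -, g⟩ := hfact X hXI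
    rw [g t ht]
    have k1 := (hsmall X hXI ε hεI).2
    have k2 : |W t (0, et X) ε| ≤ C := by
      refine hC (t, (X, ε)) ⟨⟨ht.1, ht.2.trans ?_⟩, ⟨hXI, hεI⟩⟩
      exact (le_abs_self _).trans (hT (X, ε) ⟨hXI, hεI⟩)
    have k3 : C ≤ |C| := le_abs_self C
    have k4 : |2 * ε * W t (0, et X) ε| ≤ s / 2 := by
      rw [abs_mul, abs_mul, abs_of_pos hε0, abs_of_pos (show (0 : ℝ) < 2 by norm_num)]
      have : ε * |W t (0, et X) ε| ≤ ε * (|C| + 1) :=
        mul_le_mul_of_nonneg_left (by linarith) hε0.le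
      nlinarith
    rw [abs_lt] at k1 ⊢
    rw [abs_le] at k4
    constructor <;> linarith [k1.1, k1.2, k4.1, k4.2]
  · intro X' hX' hne hZ
    have k1 := (hiff X' (hsub X' hX')).1 hZ
    apply hne
    apply (hmono ε hεI).injOn (hsub X' hX') hXI
    simp only [k1, hwX]
  · intro X' hX' X'' hX'' hlt
    have hI' := hsub X' hX'
    have hI'' := hsub X'' hX''
    obtain ⟨-, p2, p3, -⟩ := hfact X' hI'
    obtain ⟨-, q2, q3, -⟩ := hfact X'' hI''
    have hhm : StrictMonoOn (fun X => 1 - kp X + 2 * ε * w (X, ε)) (Icc (X₀ - r') (X₀ + r')) := by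
      have hder : ∀ X ∈ Icc (X₀ - r') (X₀ + r'),
          HasDerivAt (fun X => 1 - kp X + 2 * ε * w (X, ε))
            (2 * X ^ 3 * Real.exp (-X ^ 2) + 2 * ε * D (X, ε)) X := by
        intro X hX
        have := ((hasDerivAt_kp X).const_sub 1).fun_add
          ((wf_hasDerivAt h hh (hKB X hX ε hεI)).const_mul (2 * ε))
        refine this.congr_deriv ?_
        ring
      apply strictMonoOn_of_deriv_pos (convex_Icc _ _)
      · intro X hX
        exact (hder X hX).continuousAt.continuousWithinAt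
      · intro X hX
        rw [interior_Icc] at hX
        have hX' : X ∈ Icc (X₀ - r') (X₀ + r') := ⟨hX.1.le, hX.2.le⟩
        rw [(hder X hX').deriv]
        have k1 := (hsmall X hX' ε hεI).1
        have k2 := hβle X hX'
        have k3 : -(3 * |m|) ≤ D (X, ε) := by
          have := (abs_lt.1 k1).1
          have := neg_abs_le m
          linarith
        have k4 : ε * (-(3 * |m|)) ≤ ε * D (X, ε) := mul_le_mul_of_nonneg_left k3 hε0.le
        linarith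
    have k5 := hhm hI' hI'' hlt
    simp only [] at k5
    have hp' : 0 < X' := by linarith [hI'.1]
    have hp'' : 0 < X'' := by linarith [hI''.1]
    rw [← et_sq hp', ← et_sq hp'', ← p3, ← q3] at k5
    by_contra hcon
    rw [not_lt] at hcon
    have k6 := pow_le_pow_left₀ (neg_nonneg.2 q2.le) (neg_le_neg hcon) 2
    rw [neg_sq, neg_sq] at k6
    linarith

end Pool.Agent.W692.HC
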