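import Pool.Agent.W692.NNIter

/-!
# The block basis
-/

set_option autoImplicit false

open Finset

namespace Pool.Agent.W692.NN

/-- coordinate `i` of `(y, t)` -/
def Φ (N : ℕ) (φ : ℕ → ℕ → ℝ) (ψ : ℕ → ℝ) (y : ℕ → ℝ) (t : ℝ) (i : ℕ) : ℝ :=
  ∑ j ∈ range N, φ i j * y j + ψ i * t

/-- A basis `(f i, α i)`, `i ≤ N`, of `ℓ_p^N × ℝ` -/
structure Blk (p ε : ℝ) (N : ℕ) (f : ℕ → ℕ → ℝ) (α : ℕ → ℝ) (φ : ℕ → ℕ → ℝ) (ψ δ : ℕ → ℝ) :
    Prop where
  pos : 0 < N
  f_nonneg : ∀ i j, 0 ≤ f i j
  cone : ∀ i ≤ N, |α i| ≤ ∑ j ∈ range N, δ j * f i j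
  small : ∀ x : ℕ → ℝ, |∑ j ∈ range N, δ j * x j| ≤ ε * nrm p N x
  bio : ∀ i ≤ N, ∀ i' ≤ N, Φ N φ ψ (f i') (α i') i = if i = i' then 1 else 0
  compl1 : ∀ (y : ℕ → ℝ) (t : ℝ), ∀ j < N, ∑ i ∈ range (N + 1), Φ N φ ψ y t i * f i j = y j
  compl2 : ∀ (y : ℕ → ℝ) (t : ℝ), ∑ i ∈ range (N + 1), Φ N φ ψ y t i * α i = t
  bound1 : ∀ (y : ℕ → ℝ) (t : ℝ) (n : ℕ), n ≤ N + 1 →
    nrm p N (fun j => ∑ i ∈ range n, Φ N φ ψ y t i * f i j) ≤ 18 * (nrm p N y + |t|)
  bound2 : ∀ (y : ℕ → ℝ) (t : ℝ) (n : ℕ), n ≤ N + 1 →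
    |∑ i ∈ range n, Φ N φ ψ y t i * α i| ≤ 18 * (nrm p N y + |t|)

theorem nrm_eq_zero {p : ℝ} (hp : 1 < p) {N : ℕ} {x : ℕ → ℝ} (h : nrm p N x = 0) :
    ∀ j < N, x j = 0 := by
  intro j hj
  have h1 : S p N x = 0 := by
    rw [← nrm_rpow hp, h, Real.zero_rpow (by linarith)]
  unfold S at h1
  rw [Finset.sum_eq_zero_iff_of_nonneg (fun _ _ => Real.rpow_nonneg (abs_nonneg _) _)] at h1
  have h2 := h1 j (mem_range.2 hj)
  rw [Real.rpow_eq_zero (abs_nonneg _) (by linarith)] at h2
  exact abs_eq_zero.1 h2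

theorem exists_blk {p : ℝ} (hp : 1 < p) {ε : ℝ} (hε : 0 < ε) :
    ∃ (N : ℕ) (f : ℕ → ℕ → ℝ) (α : ℕ → ℝ) (φ : ℕ → ℕ → ℝ) (ψ δ : ℕ → ℝ),
      Blk p ε N f α φ ψ δ := by
  classical
  obtain ⟨N, f, a, δ, hN, hδ0, hf0, hfne, hfC, hspan, haδ, hδ, ha, x₀, hx₀, hax₀⟩ :=
    good_exists hp hε
  -- the nonnegative vector
  obtain ⟨b, hb0, hb1, hb⟩ : ∃ b : ℕ → ℝ, (∀ j, 0 ≤ b j) ∧ nrm p N b ≤ 1 ∧
      1 / 2 ≤ |∑ j ∈ range N, a j * b j| := by
    have h1 : ∑ j ∈ range N, a j * max (x₀ j) 0 - ∑ j ∈ range N, a j * max (-x₀ j) 0 = 1 := by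
      rw [← Finset.sum_sub_distrib, ← hax₀]
      refine Finset.sum_congr rfl fun j _ => ?_
      rw [← mul_sub]
      congr 1
      rcases le_total 0 (x₀ j) with h | h
      · rw [max_eq_left h, max_eq_right (by linarith)]; ring
      · rw [max_eq_right h, max_eq_left (by linarith)]; ring
    by_cases h2 : 1 / 2 ≤ |∑ j ∈ range N, a j * max (x₀ j) 0|
    · refine ⟨fun j => max (x₀ j) 0, fun j => le_max_right _ _, ?_, h2⟩
      refine (S_mono_coord hp fun j _ => ?_).trans hx₀
      rw [abs_of_nonneg (le_max_right _ _)]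
      exact max_le (le_abs_self _) (abs_nonneg _)
    · refine ⟨fun j => max (-x₀ j) 0, fun j => le_max_right _ _, ?_, ?_⟩
      · refine (S_mono_coord hp fun j _ => ?_).trans hx₀
        rw [abs_of_nonneg (le_max_right _ _)]
        exact max_le (neg_le_abs _) (abs_nonneg _)
      · push Not at h2
        have h3 := abs_lt.1 h2
        rw [le_abs]
        right
        linarith
  set β : ℝ := ∑ j ∈ range N, a j * b j with hβ
  have hβ0 : β ≠ 0 := by
    intro h
    rw [h, abs_zero] at hb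
    norm_num at hb
  -- uniqueness
  have huniq : ∀ c : ℕ → ℝ, (∀ j < N, comb f N c j = 0) → ∀ i < N, c i = 0 := by
    intro c hc i hi
    have h0 : nrm p N (comb f N c) = 0 := by
      rw [nrm_congr (y := fun _ => 0) hc]
      exact nrm_zero hp
    have h1 : ∀ n ≤ N, ∀ j < N, comb f n c j = 0 := by
      intro n hn
      apply nrm_eq_zero hp
      refine le_antisymm ?_ (nrm_nonneg _)
      have := hfC c n hn
      rwa [h0, mul_zero] at this
    obtain ⟨j, hj, hne⟩ := hfne i hi
    have h2 := h1 (i + 1) hi j hj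
    have h3 := h1 i hi.le j hj
    unfold comb at h2 h3
    rw [Finset.sum_range_succ, h3, zero_add] at h2
    exact (mul_eq_zero.1 h2).resolve_right hne
  -- dual matrix
  choose cf hcf using fun j : ℕ => hspan (fun j' => if j' = j then 1 else 0)
  have hcoef : ∀ y : ℕ → ℝ, ∀ j < N, comb f N (fun i => ∑ j' ∈ range N, cf j' i * y j') j = y j := by
    intro y j hj
    unfold comb
    calc ∑ i ∈ range N, (∑ j' ∈ range N, cf j' i * y j') * f i j =
          ∑ j' ∈ range N, y j' * comb f N (cf j') j := by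
          unfold comb
          simp_rw [Finset.sum_mul, Finset.mul_sum]
          rw [Finset.sum_comm]
          exact Finset.sum_congr rfl fun _ _ => Finset.sum_congr rfl fun _ _ => by ring
      _ = ∑ j' ∈ range N, y j' * (if j = j' then 1 else 0) :=
          Finset.sum_congr rfl fun j' _ => by rw [hcf j' j hj]
      _ = y j := by
          simp only [mul_ite, mul_one, mul_zero]
          rw [Finset.sum_ite_eq, if_pos (mem_range.2 hj)]
  have hcoef2 : ∀ i < N, ∀ i' < N, ∑ j' ∈ range N, cf j' i * f i' j' = if i = i' then 1 else 0 := by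
    intro i hi i' hi'
    have h1 := huniq (fun i => ∑ j' ∈ range N, cf j' i * f i' j' - if i = i' then 1 else 0) (by
      intro j hj
      have h2 := hcoef (f i') j hj
      unfold comb at h2 ⊢
      simp_rw [sub_mul, Finset.sum_sub_distrib]
      rw [h2]
      simp only [ite_mul, one_mul, zero_mul]
      rw [Finset.sum_ite_eq', if_pos (mem_range.2 hi'), sub_self]) i hi
    exact sub_eq_zero.1 h1
  -- the data
  let coef : (ℕ → ℝ) → ℕ → ℝ := fun y i => ∑ j' ∈ range N, cf j' i * y j'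
  let F : ℕ → ℕ → ℝ := fun i => if i < N then f i else b
  let α : ℕ → ℝ := fun i => if i < N then ∑ j ∈ range N, a j * f i j else 0
  let φ : ℕ → ℕ → ℝ := fun i j => if i < N then cf j i - a j / β * coef b i else a j / β
  let ψ : ℕ → ℝ := fun i => if i < N then 1 / β * coef b i else - (1 / β)
  have hd : ∀ (y : ℕ → ℝ) (t : ℝ) (i : ℕ), ¬ i < N →
      Φ N φ ψ y t i = (∑ j ∈ range N, a j * y j - t) / β := by
    intro y t i hi
    unfold Φ
    simp only [φ, ψ, if_neg hi]
    rw [sub_div, Finset.sum_div]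
    have : ∑ j ∈ range N, a j / β * y j = ∑ j ∈ range N, a j * y j / β :=
      Finset.sum_congr rfl fun j _ => by ring
    rw [this]
    ring
  have hc : ∀ (y : ℕ → ℝ) (t : ℝ) (i : ℕ), i < N →
      Φ N φ ψ y t i = coef y i - (∑ j ∈ range N, a j * y j - t) / β * coef b i := by
    intro y t i hi
    unfold Φ
    simp only [φ, ψ, if_pos hi]
    simp_rw [sub_mul, Finset.sum_sub_distrib]
    have h1 : ∑ j ∈ range N, a j / β * coef b i * y j =
        (∑ j ∈ range N, a j * y j) / β * coef b i := by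
      rw [Finset.sum_div, Finset.sum_mul]
      exact Finset.sum_congr rfl fun j _ => by ring
    rw [h1]
    simp only [coef]
    ring
  have hcoefsub : ∀ (y : ℕ → ℝ) (d : ℝ) (i : ℕ), coef y i - d * coef b i =
      coef (fun j => y j - d * b j) i := by
    intro y d i
    simp only [coef]
    rw [Finset.mul_sum, ← Finset.sum_sub_distrib]
    exact Finset.sum_congr rfl fun j _ => by ring
  have hcomb : ∀ (y : ℕ → ℝ) (t : ℝ), ∀ j < N, comb f N (fun i => Φ N φ ψ y t i) j =
      y j - (∑ j ∈ range N, a j * y j - t) / β * b j := by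
    intro y t j hj
    have h1 : comb f N (fun i => Φ N φ ψ y t i) j =
        comb f N (fun i => coef (fun j => y j - (∑ j ∈ range N, a j * y j - t) / β * b j) i) j := by
      unfold comb
      refine Finset.sum_congr rfl fun i hi => ?_
      change Φ N φ ψ y t i * f i j = _
      rw [hc y t i (mem_range.1 hi), hcoefsub]
    rw [h1]
    exact hcoef _ j hj
  have hdbound : ∀ (y : ℕ → ℝ) (t : ℝ), |(∑ j ∈ range N, a j * y j - t) / β| ≤
      2 * (nrm p N y + |t|) := by
    intro y t
    rw [abs_div, div_le_iff₀ (abs_pos.2 hβ0)]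
    have h1 : |∑ j ∈ range N, a j * y j - t| ≤ nrm p N y + |t| :=
      (abs_sub _ _).trans (add_le_add (ha y) le_rfl)
    have h2 : 0 ≤ nrm p N y + |t| := add_nonneg (nrm_nonneg _) (abs_nonneg _)
    nlinarith
  have hrest : ∀ (y : ℕ → ℝ) (t : ℝ), nrm p N (comb f N (fun i => Φ N φ ψ y t i)) ≤
      3 * (nrm p N y + |t|) := by
    intro y t
    rw [nrm_congr (hcomb y t)]
    have h1 := nrm_sub (N := N) hp y (fun j => (∑ j ∈ range N, a j * y j - t) / β * b j)
    rw [nrm_smul hp] at h1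
    have h2 := hdbound y t
    have h3 : |(∑ j ∈ range N, a j * y j - t) / β| * nrm p N b ≤ 2 * (nrm p N y + |t|) * 1 :=
      mul_le_mul h2 hb1 (nrm_nonneg _) (by
        have := nrm_nonneg (p := p) (N := N) y
        have := abs_nonneg t
        positivity)
    have h4 := abs_nonneg t
    linarith
  have hα : ∀ (c : ℕ → ℝ) (n : ℕ), n ≤ N →
      ∑ i ∈ range n, c i * α i = ∑ j ∈ range N, a j * comb f n c j := by
    intro c n hn
    unfold comb
    simp_rw [Finset.mul_sum]
    rw [Finset.sum_comm]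
    refine Finset.sum_congr rfl fun i hi => ?_
    have hiN : i < N := (mem_range.1 hi).trans_le hn
    simp only [α, if_pos hiN]
    rw [Finset.mul_sum]
    exact Finset.sum_congr rfl fun j _ => by ring
  have hF : ∀ (c : ℕ → ℝ) (n : ℕ), n ≤ N → ∀ j, ∑ i ∈ range n, c i * F i j = comb f n c j := by
    intro c n hn j
    unfold comb
    refine Finset.sum_congr rfl fun i hi => ?_
    have hiN : i < N := (mem_range.1 hi).trans_le hn
    simp only [F, if_pos hiN]
  have hnn : ∀ (y : ℕ → ℝ) (t : ℝ), 0 ≤ nrm p N y + |t| := fun y t =>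
    add_nonneg (nrm_nonneg _) (abs_nonneg _)
  have hcompl1 : ∀ (y : ℕ → ℝ) (t : ℝ), ∀ j < N,
      ∑ i ∈ range (N + 1), Φ N φ ψ y t i * F i j = y j := by
    intro y t j hj
    rw [Finset.sum_range_succ, hF _ N le_rfl, hcomb y t j hj, hd y t N (lt_irrefl N)]
    simp only [F, if_neg (lt_irrefl N)]
    ring
  have hcompl2 : ∀ (y : ℕ → ℝ) (t : ℝ), ∑ i ∈ range (N + 1), Φ N φ ψ y t i * α i = t := by
    intro y t
    rw [Finset.sum_range_succ, hα _ N le_rfl]
    have h1 : ∑ j ∈ range N, a j * comb f N (fun i => Φ N φ ψ y t i) j =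
        ∑ j ∈ range N, a j * y j - (∑ j ∈ range N, a j * y j - t) / β * β := by
      have h2 : ∀ j ∈ range N, a j * comb f N (fun i => Φ N φ ψ y t i) j =
          a j * y j - (∑ j ∈ range N, a j * y j - t) / β * (a j * b j) := by
        intro j hj
        rw [hcomb y t j (mem_range.1 hj)]
        ring
      rw [Finset.sum_congr rfl h2, Finset.sum_sub_distrib, ← Finset.mul_sum]
    rw [h1]
    simp only [α, if_neg (lt_irrefl N)]
    field_simp
    ring
  refine ⟨N, F, α, φ, ψ, δ, hN, ?_, ?_, hδ, ?_, hcompl1, hcompl2, ?_, ?_⟩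
  · intro i j
    simp only [F]
    split_ifs
    · exact hf0 i j
    · exact hb0 j
  · intro i _
    simp only [α, F]
    split_ifs with h
    · exact haδ i h
    · rw [abs_zero]
      exact Finset.sum_nonneg fun j _ => mul_nonneg (hδ0 j) (hb0 j)
  · intro i hi i' hi'
    by_cases hi'N : i' < N
    · have hd0 : (∑ j ∈ range N, a j * F i' j - α i') / β = 0 := by
        simp only [F, α, if_pos hi'N]
        rw [sub_self, zero_div]
      by_cases hiN : i < N
      · rw [hc _ _ i hiN, hd0, zero_mul, sub_zero]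
        simp only [coef, F, if_pos hi'N]
        exact hcoef2 i hiN i' hi'N
      · rw [hd _ _ i hiN, hd0, if_neg (by omega)]
    · have hd1 : (∑ j ∈ range N, a j * F i' j - α i') / β = 1 := by
        simp only [F, α, if_neg hi'N]
        rw [sub_zero, ← hβ, div_self hβ0]
      by_cases hiN : i < N
      · rw [hc _ _ i hiN, hd1, one_mul, if_neg (by omega)]
        simp only [F, if_neg hi'N]
        exact sub_self _
      · rw [hd _ _ i hiN, hd1, if_pos (by omega)]
  · intro y t n hn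
    have h0 := hnn y t
    rcases Nat.lt_or_ge N n with h | h
    · have hnN : n = N + 1 := by omega
      subst hnN
      rw [nrm_congr (hcompl1 y t)]
      have := abs_nonneg t
      linarith
    · have h1 : nrm p N (fun j => ∑ i ∈ range n, Φ N φ ψ y t i * F i j) =
          nrm p N (comb f n (fun i => Φ N φ ψ y t i)) := nrm_congr fun j _ => hF _ n h j
      rw [h1]
      have h2 := hfC (fun i => Φ N φ ψ y t i) n h
      have h3 := hrest y t
      linarith
  · intro y t n hn
    have h0 := hnn y t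
    rcases Nat.lt_or_ge N n with h | h
    · have hnN : n = N + 1 := by omega
      subst hnN
      rw [hcompl2 y t]
      have := nrm_nonneg (p := p) (N := N) y
      linarith
    · rw [hα _ n h]
      have h1 := ha (comb f n (fun i => Φ N φ ψ y t i))
      have h2 := hfC (fun i => Φ N φ ψ y t i) n h
      have h3 := hrest y t
      linarith

end Pool.Agent.W692.NN
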