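import Pool.Agent.W692.NNHaar2

/-!
# The Haar system of `L_p(ℝ)`: density
-/

set_option autoImplicit false

open Finset MeasureTheory
open scoped ENNReal

namespace Pool.Agent.W692.NN

variable {p : ℝ≥0∞} [hp1 : Fact (1 ≤ p)]

/-- the set of basic vectors -/
def Gen (p : ℝ≥0∞) [Fact (1 ≤ p)] : Set (E p) := Set.range (hb p) ∪ Set.range (un p)

theorem hh_mem (j l : ℕ) : hh p j l ∈ Submodule.span ℝ (Gen p) := by
  apply Submodule.subset_span
  left
  refine ⟨Nat.pair j l, ?_⟩
  unfold hb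
  rw [Nat.unpair_pair]

theorem iD_mem (j l : ℕ) : iD p j l ∈ Submodule.span ℝ (Gen p) := by
  have key : ∀ m, iD p j m ∈ Submodule.span ℝ (Gen p) →
      iD p j (2 * m + 1) ∈ Submodule.span ℝ (Gen p) ∧
      iD p j (2 * m + 2) ∈ Submodule.span ℝ (Gen p) := by
    intro m hm
    have h1 := hh_mem (p := p) j m
    have h2 : iD p j (2 * m + 1) - iD p j (2 * m + 2) =
        (wd m ^ (1 / p.toReal)) • hh p j m := by
      unfold hh
      rw [smul_smul, ← Real.rpow_add (wd_pos m), add_neg_cancel, Real.rpow_zero, one_smul]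
    have h3 := iD_split (p := p) j m
    have h4 : iD p j (2 * m + 1) = (1 / 2 : ℝ) • (iD p j m +
        (wd m ^ (1 / p.toReal)) • hh p j m) := by
      rw [← h2, h3]
      module
    have h5 : iD p j (2 * m + 2) = (1 / 2 : ℝ) • (iD p j m -
        (wd m ^ (1 / p.toReal)) • hh p j m) := by
      rw [← h2, h3]
      module
    constructor
    · rw [h4]
      exact Submodule.smul_mem _ _ (Submodule.add_mem _ hm (Submodule.smul_mem _ _ h1))
    · rw [h5]
      exact Submodule.smul_mem _ _ (Submodule.sub_mem _ hm (Submodule.smul_mem _ _ h1))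
  refine heap_induction (P := fun l => iD p j l ∈ Submodule.span ℝ (Gen p)) ?_
    (fun m hm => (key m hm).1) (fun m hm => (key m hm).2) l
  apply Submodule.subset_span
  right
  exact ⟨j, rfl⟩

/-- dyadic intervals of `[0,1)` are nodes -/
theorem exists_node (k : ℕ) : ∀ i : ℕ, i < 2 ^ k →
    ∃ l, ps l = (i : ℝ) / 2 ^ k ∧ wd l = 1 / 2 ^ k := by
  induction k with
  | zero =>
    intro i hi
    have : i = 0 := by simpa using hi
    subst this
    exact ⟨0, by simp [ps_zero], by simp [wd_zero]⟩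
  | succ k ih =>
    intro i hi
    rcases Nat.even_or_odd' i with ⟨m, hm | hm⟩
    · obtain ⟨l, h1, h2⟩ := ih m (by rw [pow_succ] at hi; omega)
      refine ⟨2 * l + 1, ?_, ?_⟩
      · rw [ps_left, h1, hm]
        push_cast
        rw [pow_succ]
        field_simp
      · rw [wd_left, h2, pow_succ]
        field_simp
    · obtain ⟨l, h1, h2⟩ := ih m (by rw [pow_succ] at hi; omega)
      refine ⟨2 * l + 2, ?_, ?_⟩
      · rw [ps_right, h1, h2, hm]
        push_cast
        rw [pow_succ]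
        field_simp
      · rw [wd_right, h2, pow_succ]
        field_simp

theorem dyadic_mem (M k i : ℕ) :
    ind p (-(M : ℝ) + i / 2 ^ k) (1 / 2 ^ k) ∈ Submodule.span ℝ (Gen p) := by
  obtain ⟨l, h1, h2⟩ := exists_node k (i % 2 ^ k) (Nat.mod_lt _ (by positivity))
  have h3 := iD_mem (p := p) (Equiv.intEquivNat (-(M : ℤ) + (i / 2 ^ k : ℕ))) l
  unfold iD at h3
  rw [h1, h2] at h3
  have h4 : zz (Equiv.intEquivNat (-(M : ℤ) + (i / 2 ^ k : ℕ))) + ((i % 2 ^ k : ℕ) : ℝ) / 2 ^ k =
      -(M : ℝ) + i / 2 ^ k := by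
    unfold zz
    rw [Equiv.symm_apply_apply]
    have h5 : ((2 : ℝ) ^ k) * ((i / 2 ^ k : ℕ) : ℝ) + ((i % 2 ^ k : ℕ) : ℝ) = i := by
      exact_mod_cast Nat.div_add_mod i (2 ^ k)
    rw [← h5]
    generalize i / 2 ^ k = m
    generalize i % 2 ^ k = r
    push_cast
    field_simp
    ring
  rwa [h4] at h3

theorem sum_ind_coeFn {ι : Type*} (s : Finset ι) (c a w : ι → ℝ) :
    (∑ i ∈ s, c i • ind p (a i) (w i) : E p) =ᵐ[volume]
        fun t => ∑ i ∈ s, c i * (I (a i) (w i)).indicator (fun _ => (1 : ℝ)) t := by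
  classical
  induction s using Finset.induction_on with
  | empty =>
    simp only [Finset.sum_empty]
    exact Lp.coeFn_zero _ _ _
  | insert i s' hi ih =>
    rw [Finset.sum_insert hi]
    filter_upwards [Lp.coeFn_add (c i • ind p (a i) (w i))
      (∑ i ∈ s', c i • ind p (a i) (w i)), ih, Lp.coeFn_smul (c i) (ind p (a i) (w i)),
      ind_coeFn (p := p) (a i) (w i)] with t ht1 ht2 ht3 ht4
    rw [Finset.sum_insert hi, ht1, Pi.add_apply, ht2, ht3, Pi.smul_apply, ht4, smul_eq_mul]

theorem cont_mem (g : ℝ → ℝ) (hg : Continuous g) (hs : HasCompactSupport g)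
    (hgL : MemLp g p volume) :
    hgL.toLp g ∈ closure (Submodule.span ℝ (Gen p) : Set (E p)) := by
  obtain ⟨M, hM⟩ : ∃ M : ℕ, ∀ t, t ∉ Set.Ico (-(M : ℝ)) M → g t = 0 := by
    obtain ⟨R, hR⟩ := hs.isBounded.subset_closedBall 0
    refine ⟨⌈R⌉₊ + 1, fun t ht => ?_⟩
    by_contra h
    have h1 : t ∈ Metric.closedBall (0 : ℝ) R := hR (subset_tsupport g h)
    rw [Metric.mem_closedBall, Real.dist_eq, sub_zero, abs_le] at h1
    apply ht
    have h2 := Nat.le_ceil R
    push_cast
    constructor <;> linarith [h1.1, h1.2]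
  have hu : UniformContinuous g := hs.uniformContinuous_of_continuous hg
  rw [Metric.mem_closure_iff]
  intro ε hε
  set K : ℝ := ‖ind p (-(M : ℝ)) (2 * M)‖ with hK
  have hK0 : 0 ≤ K := norm_nonneg _
  set η : ℝ := ε / (2 * (K + 1)) with hη
  have hη0 : 0 < η := by positivity
  obtain ⟨δ, hδ0, hδ⟩ := Metric.uniformContinuous_iff.1 hu η hη0
  obtain ⟨k, hk⟩ : ∃ k : ℕ, (1 / 2 : ℝ) ^ k < δ := exists_pow_lt_of_lt_one hδ0 (by norm_num)
  have hk' : 1 / (2 : ℝ) ^ k < δ := by rwa [one_div_pow] at hk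
  set y : E p := ∑ i ∈ range (2 * M * 2 ^ k),
    g (-(M : ℝ) + i / 2 ^ k) • ind p (-(M : ℝ) + i / 2 ^ k) (1 / 2 ^ k) with hy
  refine ⟨y, ?_, ?_⟩
  · exact Submodule.sum_mem _ fun i _ => Submodule.smul_mem _ _ (dyadic_mem M k i)
  · rw [dist_eq_norm]
    have h1 : ∀ᵐ t, ‖(hgL.toLp g - y : E p) t‖ ≤ η * ‖(ind p (-(M : ℝ)) (2 * M)) t‖ := by
      filter_upwards [Lp.coeFn_sub (hgL.toLp g) y, hgL.coeFn_toLp,
        sum_ind_coeFn (p := p) (range (2 * M * 2 ^ k)) (fun i => g (-(M : ℝ) + i / 2 ^ k))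
          (fun i => -(M : ℝ) + i / 2 ^ k) (fun _ => 1 / 2 ^ k),
        ind_coeFn (p := p) (-(M : ℝ)) (2 * M)] with t h1 h2 h3 h4
      rw [h1, Pi.sub_apply, h2, h4, hy, h3]
      have h2k : (0 : ℝ) < 2 ^ k := by positivity
      by_cases ht : t ∈ Set.Ico (-(M : ℝ)) M
      · have h5 : t ∈ I (-(M : ℝ)) (2 * M) := by
          unfold I
          refine ⟨ht.1, ?_⟩
          linarith [ht.2]
        rw [Set.indicator_of_mem h5, norm_one, mul_one]
        have h6 : 0 ≤ (t + M) * 2 ^ k := mul_nonneg (by linarith [ht.1]) h2k.le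
        set i0 : ℕ := ⌊(t + M) * 2 ^ k⌋₊ with hi0
        have h7 : (i0 : ℝ) ≤ (t + M) * 2 ^ k := Nat.floor_le h6
        have h8 : (t + M) * 2 ^ k < i0 + 1 := Nat.lt_floor_add_one _
        have h9 : i0 < 2 * M * 2 ^ k := by
          have : (i0 : ℝ) < 2 * M * 2 ^ k := by
            refine h7.trans_lt ?_
            exact mul_lt_mul_of_pos_right (by linarith [ht.2]) h2k
          exact_mod_cast this
        have h10 : (i0 : ℝ) / 2 ^ k ≤ t + M := by
          rw [div_le_iff₀ h2k]
          exact h7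
        have h11 : t + M < (i0 : ℝ) / 2 ^ k + 1 / 2 ^ k := by
          rw [← add_div, lt_div_iff₀ h2k]
          exact h8
        have h12 : t ∈ I (-(M : ℝ) + i0 / 2 ^ k) (1 / 2 ^ k) := by
          unfold I
          constructor <;> linarith
        rw [Finset.sum_eq_single_of_mem i0 (mem_range.2 h9)]
        · rw [Set.indicator_of_mem h12, mul_one]
          have h13 : dist t (-(M : ℝ) + i0 / 2 ^ k) < δ := by
            rw [Real.dist_eq, abs_lt]
            constructor <;> linarith
          have h14 := hδ h13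
          rw [Real.dist_eq] at h14
          exact h14.le
        · intro i _ hne
          rw [Set.indicator_of_notMem, mul_zero]
          intro h13
          unfold I at h13
          have h14 : (i : ℝ) / 2 ^ k < (i0 : ℝ) / 2 ^ k + 1 / 2 ^ k := by linarith [h13.1]
          have h15 : (i0 : ℝ) / 2 ^ k < (i : ℝ) / 2 ^ k + 1 / 2 ^ k := by linarith [h13.2]
          rw [← add_div, div_lt_div_iff_of_pos_right h2k] at h14 h15
          have h16 : i < i0 + 1 := by exact_mod_cast h14
          have h17 : i0 < i + 1 := by exact_mod_cast h15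
          omega
      · rw [hM t ht, Finset.sum_eq_zero]
        · rw [sub_zero, norm_zero]
          positivity
        · intro i hi
          rw [Set.indicator_of_notMem, mul_zero]
          intro h13
          apply ht
          unfold I at h13
          have h14 : (i : ℝ) + 1 ≤ 2 * M * 2 ^ k := by
            have := mem_range.1 hi
            exact_mod_cast this
          have h15 : 0 ≤ (i : ℝ) / 2 ^ k := by positivity
          have h16 : (i : ℝ) / 2 ^ k + 1 / 2 ^ k ≤ 2 * M := by
            rw [← add_div, div_le_iff₀ h2k]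
            exact h14
          constructor
          · linarith [h13.1]
          · linarith [h13.2]
    have h2 := Lp.norm_le_mul_norm_of_ae_le_mul h1
    calc ‖hgL.toLp g - y‖ ≤ η * K := h2
      _ < ε := by
        rw [hη, div_mul_eq_mul_div, div_lt_iff₀ (by positivity)]
        nlinarith

theorem gen_dense (hpt : p ≠ ∞) :
    Dense (Submodule.span ℝ (Gen p) : Set (E p)) := by
  intro x
  rw [← closure_closure, Metric.mem_closure_iff]
  intro ε hε
  obtain ⟨g, hgs, hgx, hgc, hgL⟩ := (Lp.memLp x).exists_hasCompactSupport_eLpNorm_sub_le hpt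
    (ε := ENNReal.ofReal (ε / 2)) (by positivity)
  refine ⟨hgL.toLp g, cont_mem g hgc hgs hgL, ?_⟩
  have h1 : x = (Lp.memLp x).toLp x := (Lp.toLp_coeFn x (Lp.memLp x)).symm
  rw [h1, dist_eq_norm, ← MemLp.toLp_sub, Lp.norm_toLp]
  calc (eLpNorm (⇑x - g) p volume).toReal ≤ (ENNReal.ofReal (ε / 2)).toReal :=
        ENNReal.toReal_mono ENNReal.ofReal_ne_top hgx
    _ = ε / 2 := ENNReal.toReal_ofReal (by positivity)
    _ < ε := by linarith

end Pool.Agent.W692.NN
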