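import Mathlib

/-!
# Positive conditional bases of `ℓ_p^N`: basic facts and the scalar estimate
-/

set_option autoImplicit false

open Finset

namespace Pool.Agent.W692.NN

/-- `p`-th power of the `ℓ_p^N` norm -/
noncomputable def S (p : ℝ) (N : ℕ) (x : ℕ → ℝ) : ℝ := ∑ j ∈ range N, |x j| ^ p

/-- the `ℓ_p^N` norm -/
noncomputable def nrm (p : ℝ) (N : ℕ) (x : ℕ → ℝ) : ℝ := (S p N x) ^ (1 / p)

variable {p : ℝ} {N : ℕ}

theorem S_nonneg (x : ℕ → ℝ) : 0 ≤ S p N x :=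
  Finset.sum_nonneg fun _ _ => Real.rpow_nonneg (abs_nonneg _) _

theorem nrm_nonneg (x : ℕ → ℝ) : 0 ≤ nrm p N x := Real.rpow_nonneg (S_nonneg x) _

theorem nrm_rpow (hp : 1 < p) (x : ℕ → ℝ) : nrm p N x ^ p = S p N x := by
  rw [nrm, ← Real.rpow_mul (S_nonneg x), one_div, inv_mul_cancel₀ (by linarith), Real.rpow_one]

theorem nrm_congr {x y : ℕ → ℝ} (h : ∀ j < N, x j = y j) : nrm p N x = nrm p N y := by
  unfold nrm S
  congr 1
  exact Finset.sum_congr rfl fun j hj => by rw [h j (mem_range.1 hj)]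

theorem S_congr {x y : ℕ → ℝ} (h : ∀ j < N, x j = y j) : S p N x = S p N y :=
  Finset.sum_congr rfl fun j hj => by rw [h j (mem_range.1 hj)]

theorem nrm_add (hp : 1 < p) (x y : ℕ → ℝ) :
    nrm p N (fun j => x j + y j) ≤ nrm p N x + nrm p N y :=
  Real.Lp_add_le (range N) x y hp.le

theorem S_smul (c : ℝ) (x : ℕ → ℝ) : S p N (fun j => c * x j) = |c| ^ p * S p N x := by
  unfold S
  rw [Finset.mul_sum]
  exact Finset.sum_congr rfl fun j _ => by
    rw [abs_mul, Real.mul_rpow (abs_nonneg _) (abs_nonneg _)]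

theorem nrm_smul (hp : 1 < p) (c : ℝ) (x : ℕ → ℝ) :
    nrm p N (fun j => c * x j) = |c| * nrm p N x := by
  unfold nrm
  rw [S_smul, Real.mul_rpow (Real.rpow_nonneg (abs_nonneg _) _) (S_nonneg x),
    ← Real.rpow_mul (abs_nonneg _), mul_one_div_cancel (by linarith), Real.rpow_one]

theorem nrm_zero (hp : 1 < p) : nrm p N (fun _ => 0) = 0 := by
  have := nrm_smul (N := N) hp 0 (fun _ => 0)
  simpa using this

theorem nrm_neg (x : ℕ → ℝ) : nrm p N (fun j => - x j) = nrm p N x := by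
  unfold nrm S
  simp

theorem nrm_sub (hp : 1 < p) (x y : ℕ → ℝ) :
    nrm p N (fun j => x j - y j) ≤ nrm p N x + nrm p N y := by
  have := nrm_add (N := N) hp x (fun j => - y j)
  rw [nrm_neg] at this
  simpa [sub_eq_add_neg] using this

theorem nrm_le_of_S_le (hp : 1 < p) {x : ℕ → ℝ} {r : ℝ} (hr : 0 ≤ r) (h : S p N x ≤ r ^ p) :
    nrm p N x ≤ r := by
  have h1 : nrm p N x ≤ (r ^ p) ^ (1 / p) :=
    Real.rpow_le_rpow (S_nonneg x) h (by positivity)
  rwa [← Real.rpow_mul hr, mul_one_div_cancel (by linarith), Real.rpow_one] at h1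

theorem S_mono_coord {x : ℕ → ℝ} {y : ℕ → ℝ} (hp : 1 < p) (h : ∀ j < N, |x j| ≤ |y j|) :
    nrm p N x ≤ nrm p N y := by
  unfold nrm S
  refine Real.rpow_le_rpow (S_nonneg x) ?_ (by positivity)
  exact Finset.sum_le_sum fun j hj => Real.rpow_le_rpow (abs_nonneg _) (h j (mem_range.1 hj))
    (by linarith)

/-- double sums -/
theorem sum_range_mul' {β : Type*} [AddCommMonoid β] (M N : ℕ) (g : ℕ → β) :
    ∑ j ∈ range (M * N), g j = ∑ k ∈ range M, ∑ j ∈ range N, g (k * N + j) := by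
  induction M with
  | zero => simp
  | succ M ih =>
    rw [Nat.succ_mul, Finset.sum_range_add, ih, Finset.sum_range_succ]

theorem S_mul (M : ℕ) (x : ℕ → ℝ) :
    S p (M * N) x = ∑ k ∈ range M, S p N (fun j => x (k * N + j)) := by
  unfold S
  exact sum_range_mul' M N _

/-- the combination `∑_{i<n} c i f i` -/
def comb (f : ℕ → ℕ → ℝ) (n : ℕ) (c : ℕ → ℝ) : ℕ → ℝ := fun j => ∑ i ∈ range n, c i * f i j

theorem comb_add (f : ℕ → ℕ → ℝ) (n : ℕ) (c d : ℕ → ℝ) (j : ℕ) :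
    comb f n (fun i => c i + d i) j = comb f n c j + comb f n d j := by
  unfold comb
  rw [← Finset.sum_add_distrib]
  exact Finset.sum_congr rfl fun i _ => by ring

theorem comb_smul (f : ℕ → ℕ → ℝ) (n : ℕ) (t : ℝ) (c : ℕ → ℝ) (j : ℕ) :
    comb f n (fun i => t * c i) j = t * comb f n c j := by
  unfold comb
  rw [Finset.mul_sum]
  exact Finset.sum_congr rfl fun i _ => by ring

/-- two-term Hölder -/
theorem holder_two {p q : ℝ} (hpq : p.HolderConjugate q) {b a s τ : ℝ} (hb : 0 ≤ b) (ha : 0 ≤ a)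
    (hs : 0 ≤ s) (hτ : 0 < τ) :
    (b + s * a) ^ p ≤ (b ^ p + τ ^ p * a ^ p) * (1 + (s / τ) ^ q) ^ (p / q) := by
  have hp0 : 0 < p := hpq.pos
  have h1 := Real.inner_le_Lp_mul_Lq_of_nonneg (Finset.univ : Finset (Fin 2))
    (f := ![b, τ * a]) (g := ![1, s / τ]) hpq
    (by intro i _; fin_cases i <;> simp <;> positivity)
    (by intro i _; fin_cases i <;> simp; positivity)
  simp only [Fin.sum_univ_two, Matrix.cons_val_zero, Matrix.cons_val_one, mul_one,
    Real.one_rpow] at h1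
  have h2 : τ * a * (s / τ) = s * a := by field_simp
  rw [h2] at h1
  have h3 : 0 ≤ b ^ p + (τ * a) ^ p := by positivity
  have h4 : 0 ≤ 1 + (s / τ) ^ q := by positivity
  calc (b + s * a) ^ p ≤ ((b ^ p + (τ * a) ^ p) ^ (1 / p) * (1 + (s / τ) ^ q) ^ (1 / q)) ^ p :=
        Real.rpow_le_rpow (by positivity) h1 hp0.le
    _ = (b ^ p + τ ^ p * a ^ p) * (1 + (s / τ) ^ q) ^ (p / q) := by
        rw [Real.mul_rpow (by positivity) (by positivity), ← Real.rpow_mul h3,
          ← Real.rpow_mul h4, one_div_mul_cancel hp0.ne', Real.rpow_one,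
          Real.mul_rpow hτ.le ha]
        congr 2
        ring

/-- The scalar estimate in the tensoring step. -/
theorem scalar_step {p q : ℝ} (hpq : p.HolderConjugate q) {C θ G a b : ℝ} (hC : 2 ≤ C)
    (hθ0 : 0 ≤ θ) (ha : 0 ≤ a) (hb : 0 ≤ b)
    (hG : (1 + (4 * θ / (1 / 4 : ℝ) ^ (1 / p)) ^ q) ^ (p / q) + (2 * θ) ^ p ≤ G) :
    a ^ p + (C * b + θ * (C + 1) * (2 * a)) ^ p + (θ * C * 2) ^ p * (a ^ p + b ^ p) ≤
      C ^ p * G * (a ^ p + b ^ p) := by
  have hp1 : 1 < p := hpq.lt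
  have hp0 : 0 < p := hpq.pos
  have hC0 : 0 ≤ C := by linarith
  set τ : ℝ := (1 / 4 : ℝ) ^ (1 / p) with hτ
  have hτ0 : 0 < τ := by positivity
  have hτp : τ ^ p = 1 / 4 := by
    rw [hτ, ← Real.rpow_mul (by norm_num), one_div_mul_cancel hp0.ne', Real.rpow_one]
  set E : ℝ := (1 + (4 * θ / τ) ^ q) ^ (p / q) with hE
  have hE1 : 1 ≤ E := by
    rw [hE]
    exact Real.one_le_rpow (by
      have : 0 ≤ (4 * θ / τ) ^ q := by positivity
      linarith) (div_nonneg hp0.le hpq.symm.pos.le)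
  have hap : 0 ≤ a ^ p := by positivity
  have hbp : 0 ≤ b ^ p := by positivity
  have hCp : 2 ≤ C ^ p := by
    calc (2 : ℝ) = 2 ^ (1 : ℝ) := (Real.rpow_one 2).symm
      _ ≤ 2 ^ p := Real.rpow_le_rpow_of_exponent_le (by norm_num) hp1.le
      _ ≤ C ^ p := Real.rpow_le_rpow (by norm_num) hC hp0.le
  have h1 : (C * b + θ * (C + 1) * (2 * a)) ^ p ≤ C ^ p * ((b ^ p + 1 / 4 * a ^ p) * E) := by
    calc (C * b + θ * (C + 1) * (2 * a)) ^ p ≤ (C * (b + 4 * θ * a)) ^ p := by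
          refine Real.rpow_le_rpow (by positivity) ?_ hp0.le
          have : 0 ≤ θ * a * (C - 1) := by
            have : 0 ≤ C - 1 := by linarith
            positivity
          nlinarith
      _ = C ^ p * (b + 4 * θ * a) ^ p := Real.mul_rpow hC0 (by positivity)
      _ ≤ C ^ p * ((b ^ p + τ ^ p * a ^ p) * E) := by
          refine mul_le_mul_of_nonneg_left ?_ (by positivity)
          exact holder_two hpq hb ha (by positivity) hτ0
      _ = _ := by rw [hτp]
  have h2 : (θ * C * 2) ^ p = C ^ p * (2 * θ) ^ p := by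
    rw [← Real.mul_rpow hC0 (by positivity)]
    congr 1
    ring
  have h3 : a ^ p ≤ C ^ p * (1 / 2 * a ^ p) := by nlinarith
  rw [h2]
  have h4 : C ^ p * (1 / 2 * a ^ p) + C ^ p * ((b ^ p + 1 / 4 * a ^ p) * E) +
      C ^ p * (2 * θ) ^ p * (a ^ p + b ^ p) ≤ C ^ p * (E + (2 * θ) ^ p) * (a ^ p + b ^ p) := by
    have h5 : 1 / 2 * a ^ p + (b ^ p + 1 / 4 * a ^ p) * E ≤ E * (a ^ p + b ^ p) := by nlinarith
    have h6 := mul_le_mul_of_nonneg_left h5 (show 0 ≤ C ^ p by positivity)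
    nlinarith
  have h7 : C ^ p * (E + (2 * θ) ^ p) * (a ^ p + b ^ p) ≤ C ^ p * G * (a ^ p + b ^ p) := by
    refine mul_le_mul_of_nonneg_right ?_ (by positivity)
    exact mul_le_mul_of_nonneg_left hG (by positivity)
  linarith

end Pool.Agent.W692.NN
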