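import Pool.Agent.W692.NNLp

/-!
# The Haar system of `L_p(ℝ)`, interval by interval
-/

set_option autoImplicit false

open Finset MeasureTheory
open scoped ENNReal

namespace Pool.Agent.W692.NN

/-- width of the node `n` of the binary heap -/
noncomputable def wd : ℕ → ℝ
  | 0 => 1
  | n + 1 => wd (n / 2) / 2
decreasing_by exact Nat.lt_succ_of_le (Nat.div_le_self n 2)

/-- left end point of the node `n` -/
noncomputable def ps : ℕ → ℝ
  | 0 => 0
  | n + 1 => ps (n / 2) + (if n % 2 = 0 then 0 else wd (n / 2) / 2)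
decreasing_by exact Nat.lt_succ_of_le (Nat.div_le_self n 2)

theorem wd_zero : wd 0 = 1 := by rw [wd]

theorem ps_zero : ps 0 = 0 := by rw [ps]

theorem wd_left (m : ℕ) : wd (2 * m + 1) = wd m / 2 := by
  rw [wd]
  congr 2
  omega

theorem wd_right (m : ℕ) : wd (2 * m + 2) = wd m / 2 := by
  rw [show 2 * m + 2 = (2 * m + 1) + 1 from rfl, wd]
  congr 2
  omega

theorem ps_left (m : ℕ) : ps (2 * m + 1) = ps m := by
  rw [ps]
  have h1 : 2 * m / 2 = m := by omega
  have h2 : 2 * m % 2 = 0 := by omega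
  rw [h1, if_pos h2, add_zero]

theorem ps_right (m : ℕ) : ps (2 * m + 2) = ps m + wd m / 2 := by
  rw [show 2 * m + 2 = (2 * m + 1) + 1 from rfl, ps]
  have h1 : (2 * m + 1) / 2 = m := by omega
  have h2 : ¬ (2 * m + 1) % 2 = 0 := by omega
  rw [h1, if_neg h2]

/-- induction along the heap -/
theorem heap_induction {P : ℕ → Prop} (h0 : P 0) (hl : ∀ m, P m → P (2 * m + 1))
    (hr : ∀ m, P m → P (2 * m + 2)) (n : ℕ) : P n := by
  induction n using Nat.strong_induction_on with
  | _ n ih =>
    rcases Nat.eq_zero_or_pos n with rfl | hn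
    · exact h0
    · rcases Nat.even_or_odd' (n - 1) with ⟨m, hm | hm⟩
      · have : n = 2 * m + 1 := by omega
        rw [this]
        exact hl m (ih m (by omega))
      · have : n = 2 * m + 2 := by omega
        rw [this]
        exact hr m (ih m (by omega))

theorem wd_pos (n : ℕ) : 0 < wd n := by
  refine heap_induction (P := fun n => 0 < wd n) ?_ ?_ ?_ n
  · simp only [wd_zero]; exact one_pos
  · intro m hm; simp only [wd_left]; positivity
  · intro m hm; simp only [wd_right]; positivity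

/-- the interval of the node `l`, shifted by `z` -/
def D (z : ℝ) (l : ℕ) : Set ℝ := I (z + ps l) (wd l)

theorem D_left_sub (z : ℝ) (m : ℕ) : D z (2 * m + 1) ⊆ D z m := by
  unfold D I
  rw [wd_left, ps_left]
  refine Set.Ico_subset_Ico le_rfl ?_
  linarith [wd_pos m]

theorem D_right_sub (z : ℝ) (m : ℕ) : D z (2 * m + 2) ⊆ D z m := by
  unfold D I
  rw [wd_right, ps_right]
  refine Set.Ico_subset_Ico ?_ ?_ <;> linarith [wd_pos m]

theorem D_disj (z : ℝ) (m : ℕ) : Disjoint (D z (2 * m + 1)) (D z (2 * m + 2)) := by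
  unfold D I
  rw [wd_right, ps_right, wd_left, ps_left, Set.Ico_disjoint_Ico]
  exact (min_le_left _ _).trans (le_trans (by linarith) (le_max_right _ _))

theorem D_union (z : ℝ) (m : ℕ) : D z (2 * m + 1) ∪ D z (2 * m + 2) = D z m := by
  unfold D I
  rw [wd_right, ps_right, wd_left, ps_left]
  have h1 : z + (ps m + wd m / 2) = z + ps m + wd m / 2 := by ring
  have h2 : z + ps m + wd m / 2 + wd m / 2 = z + ps m + wd m := by ring
  rw [h1, h2]
  exact Set.Ico_union_Ico_eq_Ico (by linarith [wd_pos m]) (by linarith [wd_pos m])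

theorem D_sub_zero (z : ℝ) (n : ℕ) : D z n ⊆ D z 0 :=
  heap_induction (P := fun n => D z n ⊆ D z 0) le_rfl
    (fun m hm => (D_left_sub z m).trans hm) (fun m hm => (D_right_sub z m).trans hm) n

theorem leaves_disj (z : ℝ) (m : ℕ) : ∀ l ∈ Ico m (2 * m + 1), ∀ l' ∈ Ico m (2 * m + 1),
    l ≠ l' → Disjoint (D z l) (D z l') := by
  induction m with
  | zero =>
    intro l hl l' hl' hne
    rw [mem_Ico] at hl hl'
    omega
  | succ m ih =>
    have key : ∀ l ∈ Ico (m + 1) (2 * (m + 1) + 1), ∀ l' ∈ Ico (m + 1) (2 * (m + 1) + 1),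
        l < l' → Disjoint (D z l) (D z l') := by
      intro l hl l' hl' hlt
      rw [mem_Ico] at hl hl'
      rcases Nat.lt_or_ge l' (2 * m + 1) with h | h
      · exact ih l (mem_Ico.2 (by omega)) l' (mem_Ico.2 (by omega)) hlt.ne
      · rcases Nat.lt_or_ge l (2 * m + 1) with h' | h'
        · have h1 : D z l' ⊆ D z m := by
            rcases (show l' = 2 * m + 1 ∨ l' = 2 * m + 2 by omega) with h2 | h2
            · rw [h2]; exact D_left_sub z m
            · rw [h2]; exact D_right_sub z m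
          exact (ih l (mem_Ico.2 (by omega)) m (mem_Ico.2 (by omega)) (by omega)).mono_right h1
        · have h1 : l = 2 * m + 1 := by omega
          have h2 : l' = 2 * m + 2 := by omega
          rw [h1, h2]
          exact D_disj z m
    intro l hl l' hl' hne
    rcases Nat.lt_or_gt_of_ne hne with h | h
    · exact key l hl l' hl' h
    · exact (key l' hl' l hl h).symm

theorem nested (z : ℝ) (a b : ℕ) (hab : a < b) :
    D z b ⊆ D z (2 * a + 1) ∨ D z b ⊆ D z (2 * a + 2) ∨ Disjoint (D z a) (D z b) := by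
  induction b using Nat.strong_induction_on with
  | _ b ih =>
    obtain ⟨c, hc⟩ : ∃ c, b = 2 * c + 1 ∨ b = 2 * c + 2 := by
      rcases Nat.even_or_odd' (b - 1) with ⟨m, hm | hm⟩
      · exact ⟨m, Or.inl (by omega)⟩
      · exact ⟨m, Or.inr (by omega)⟩
    have hbc : D z b ⊆ D z c := by
      rcases hc with h | h
      · rw [h]; exact D_left_sub z c
      · rw [h]; exact D_right_sub z c
    rcases lt_trichotomy a c with h | h | h
    · rcases ih c (by omega) h with h1 | h1 | h1
      · exact Or.inl (hbc.trans h1)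
      · exact Or.inr (Or.inl (hbc.trans h1))
      · exact Or.inr (Or.inr (h1.mono_right hbc))
    · rcases hc with h1 | h1
      · left; rw [h1, h]
      · right; left; rw [h1, h]
    · right; right
      exact leaves_disj z (c + 1) a (mem_Ico.2 (by omega)) b (mem_Ico.2 (by omega)) hab.ne

/-- the `j`-th integer -/
noncomputable def zz (j : ℕ) : ℝ := ((Equiv.intEquivNat.symm j : ℤ) : ℝ)

theorem unit_disj {j j' : ℕ} (h : j ≠ j') : Disjoint (D (zz j) 0) (D (zz j') 0) := by
  have h1 : (Equiv.intEquivNat.symm j : ℤ) ≠ Equiv.intEquivNat.symm j' := fun h2 =>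
    h (Equiv.intEquivNat.symm.injective h2)
  unfold D I
  rw [wd_zero, ps_zero, Set.Ico_disjoint_Ico]
  unfold zz
  rcases lt_or_gt_of_ne h1 with h2 | h2
  · have h3 : ((Equiv.intEquivNat.symm j : ℤ) : ℝ) + 1 ≤ ((Equiv.intEquivNat.symm j' : ℤ) : ℝ) := by
      exact_mod_cast h2
    exact (min_le_left _ _).trans (le_trans (by linarith) (le_max_right _ _))
  · have h3 : ((Equiv.intEquivNat.symm j' : ℤ) : ℝ) + 1 ≤ ((Equiv.intEquivNat.symm j : ℤ) : ℝ) := by
      exact_mod_cast h2
    exact (min_le_right _ _).trans (le_trans (by linarith) (le_max_left _ _))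

theorem D_disj_of_ne {j j' : ℕ} (h : j ≠ j') (l l' : ℕ) : Disjoint (D (zz j) l) (D (zz j') l') :=
  (unit_disj h).mono (D_sub_zero _ _) (D_sub_zero _ _)

variable {p : ℝ≥0∞} [hp1 : Fact (1 ≤ p)]

/-- indicator of a node -/
noncomputable def iD (p : ℝ≥0∞) [Fact (1 ≤ p)] (j l : ℕ) : E p := ind p (zz j + ps l) (wd l)

/-- integral over a node -/
noncomputable def JD (p : ℝ≥0∞) [Fact (1 ≤ p)] (j l : ℕ) : E p →L[ℝ] ℝ :=
  J p (zz j + ps l) (wd l)

theorem iD_split (j l : ℕ) : iD p j l = iD p j (2 * l + 1) + iD p j (2 * l + 2) := by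
  unfold iD
  apply Lp.ext
  filter_upwards [ind_coeFn (p := p) (zz j + ps l) (wd l),
    ind_coeFn (p := p) (zz j + ps (2 * l + 1)) (wd (2 * l + 1)),
    ind_coeFn (p := p) (zz j + ps (2 * l + 2)) (wd (2 * l + 2)),
    Lp.coeFn_add (ind p (zz j + ps (2 * l + 1)) (wd (2 * l + 1)))
      (ind p (zz j + ps (2 * l + 2)) (wd (2 * l + 2)))] with t h1 h2 h3 h4
  rw [h1, h4, Pi.add_apply, h2, h3]
  have h5 := D_union (zz j) l
  have h6 := D_disj (zz j) l
  unfold D at h5 h6
  rw [← h5, Set.indicator_union_of_disjoint h6]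

theorem JD_split (j l : ℕ) (x : E p) : JD p j l x = JD p j (2 * l + 1) x + JD p j (2 * l + 2) x := by
  unfold JD
  rw [J_apply, J_apply, J_apply]
  have h5 := D_union (zz j) l
  have h6 := D_disj (zz j) l
  unfold D at h5 h6
  rw [← h5, setIntegral_union h6 (I_meas _ _) (integrableOn_I x _ _) (integrableOn_I x _ _)]

/-- normalised Haar function -/
noncomputable def hh (p : ℝ≥0∞) [Fact (1 ≤ p)] (j l : ℕ) : E p :=
  (wd l ^ (-(1 / p.toReal))) • (iD p j (2 * l + 1) - iD p j (2 * l + 2))

/-- its coordinate functional -/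
noncomputable def hs (p : ℝ≥0∞) [Fact (1 ≤ p)] (j l : ℕ) : E p →L[ℝ] ℝ :=
  (wd l ^ (1 / p.toReal - 1)) • (JD p j (2 * l + 1) - JD p j (2 * l + 2))

theorem hs_apply (j l : ℕ) (x : E p) : hs p j l x =
    wd l ^ (1 / p.toReal - 1) * (JD p j (2 * l + 1) x - JD p j (2 * l + 2) x) := rfl

theorem wd_mul (l : ℕ) :
    wd l ^ (1 / p.toReal - 1) * wd l ^ (-(1 / p.toReal)) = (wd l)⁻¹ := by
  rw [← Real.rpow_add (wd_pos l), ← Real.rpow_neg_one]
  congr 1
  ring

theorem hs_ind_eq_zero {j l : ℕ} {α v : ℝ}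
    (h : D (zz j) l ⊆ I α v ∨ Disjoint (D (zz j) l) (I α v)) : hs p j l (ind p α v) = 0 := by
  rw [hs_apply]
  unfold JD
  rcases h with h | h
  · rw [J_ind_sup (wd_pos _).le ((D_left_sub (zz j) l).trans h),
      J_ind_sup (wd_pos _).le ((D_right_sub (zz j) l).trans h), wd_left, wd_right]
    ring
  · rw [J_ind_disj (h.mono_left (D_left_sub (zz j) l)).symm,
      J_ind_disj (h.mono_left (D_right_sub (zz j) l)).symm]
    ring

theorem J_hh_eq_zero {j l : ℕ} {α v : ℝ}
    (h : D (zz j) l ⊆ I α v ∨ Disjoint (D (zz j) l) (I α v)) : J p α v (hh p j l) = 0 := by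
  unfold hh iD
  rw [map_smul, map_sub]
  rcases h with h | h
  · rw [J_ind_sub (wd_pos _).le ((D_left_sub (zz j) l).trans h),
      J_ind_sub (wd_pos _).le ((D_right_sub (zz j) l).trans h), wd_left, wd_right]
    simp
  · rw [J_ind_disj (h.mono_left (D_left_sub (zz j) l)),
      J_ind_disj (h.mono_left (D_right_sub (zz j) l))]
    simp

theorem hs_hh (j l j' l' : ℕ) : hs p j l (hh p j' l') = if j = j' ∧ l = l' then 1 else 0 := by
  by_cases hj : j = j'
  · subst hj
    rcases lt_trichotomy l l' with h | h | h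
    · rw [if_neg (by omega), hs_apply]
      have h1 := nested (zz j) l l' h
      have h2 : D (zz j) l' ⊆ D (zz j) (2 * l + 1) ∨ Disjoint (D (zz j) l') (D (zz j) (2 * l + 1)) := by
        rcases h1 with h1 | h1 | h1
        · exact Or.inl h1
        · exact Or.inr ((D_disj (zz j) l).mono_right h1).symm
        · exact Or.inr (h1.mono_left (D_left_sub _ _)).symm
      have h3 : D (zz j) l' ⊆ D (zz j) (2 * l + 2) ∨ Disjoint (D (zz j) l') (D (zz j) (2 * l + 2)) := by
        rcases h1 with h1 | h1 | h1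
        · exact Or.inr ((D_disj (zz j) l).mono_left h1)
        · exact Or.inl h1
        · exact Or.inr (h1.mono_left (D_right_sub _ _)).symm
      unfold JD
      rw [J_hh_eq_zero h2, J_hh_eq_zero h3]
      ring
    · subst h
      rw [if_pos ⟨rfl, rfl⟩, hs_apply]
      unfold hh JD iD
      simp only [map_smul, map_sub, smul_eq_mul]
      rw [J_ind_sub (wd_pos _).le (le_refl _), J_ind_disj (D_disj (zz j) l),
        J_ind_disj (D_disj (zz j) l).symm, J_ind_sub (wd_pos _).le (le_refl _), wd_left, wd_right]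
      have h1 := wd_mul (p := p) l
      have h2 := (wd_pos l).ne'
      calc _ = (wd l ^ (1 / p.toReal - 1) * wd l ^ (-(1 / p.toReal))) * wd l := by ring
        _ = 1 := by rw [h1, inv_mul_cancel₀ h2]
    · rw [if_neg (by omega)]
      have h1 := nested (zz j) l' l h
      have h2 : D (zz j) l ⊆ D (zz j) (2 * l' + 1) ∨ Disjoint (D (zz j) l) (D (zz j) (2 * l' + 1)) := by
        rcases h1 with h1 | h1 | h1
        · exact Or.inl h1
        · exact Or.inr ((D_disj (zz j) l').mono_right h1).symm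
        · exact Or.inr (h1.mono_left (D_left_sub _ _)).symm
      have h3 : D (zz j) l ⊆ D (zz j) (2 * l' + 2) ∨ Disjoint (D (zz j) l) (D (zz j) (2 * l' + 2)) := by
        rcases h1 with h1 | h1 | h1
        · exact Or.inr ((D_disj (zz j) l').mono_left h1)
        · exact Or.inl h1
        · exact Or.inr (h1.mono_left (D_right_sub _ _)).symm
      unfold hh iD
      rw [map_smul, map_sub, hs_ind_eq_zero h2, hs_ind_eq_zero h3]
      simp
  · rw [if_neg (by tauto)]
    unfold hh iD
    rw [map_smul, map_sub, hs_ind_eq_zero (Or.inr (D_disj_of_ne hj _ _)),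
      hs_ind_eq_zero (Or.inr (D_disj_of_ne hj _ _))]
    simp

/-- telescoping -/
theorem telescope (j m : ℕ) (x : E p) :
    ∑ l ∈ range m, hs p j l x • hh p j l + JD p j 0 x • iD p j 0 =
      ∑ l ∈ Ico m (2 * m + 1), (JD p j l x / wd l) • iD p j l := by
  induction m with
  | zero =>
    simp [wd_zero]
  | succ m ih =>
    have h1 : hs p j m x • hh p j m + (JD p j m x / wd m) • iD p j m =
        (JD p j (2 * m + 1) x / wd (2 * m + 1)) • iD p j (2 * m + 1) +
          (JD p j (2 * m + 2) x / wd (2 * m + 2)) • iD p j (2 * m + 2) := by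
      rw [JD_split j m x, iD_split j m, hs_apply, wd_left, wd_right]
      unfold hh
      rw [smul_smul]
      have h2 : wd m ^ (1 / p.toReal - 1) * (JD p j (2 * m + 1) x - JD p j (2 * m + 2) x) *
          wd m ^ (-(1 / p.toReal)) = (JD p j (2 * m + 1) x - JD p j (2 * m + 2) x) / wd m := by
        have h7 := wd_mul (p := p) m
        calc _ = (wd m ^ (1 / p.toReal - 1) * wd m ^ (-(1 / p.toReal))) *
              (JD p j (2 * m + 1) x - JD p j (2 * m + 2) x) := by ring
          _ = (wd m)⁻¹ * (JD p j (2 * m + 1) x - JD p j (2 * m + 2) x) := by rw [h7]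
          _ = _ := by ring
      rw [h2]
      have h3 := (wd_pos m).ne'
      have h4 : JD p j (2 * m + 1) x / (wd m / 2) = 2 * (JD p j (2 * m + 1) x / wd m) := by
        field_simp
      have h5 : JD p j (2 * m + 2) x / (wd m / 2) = 2 * (JD p j (2 * m + 2) x / wd m) := by
        field_simp
      rw [h4, h5, sub_div, add_div]
      module
    rw [Finset.sum_range_succ]
    have h2 : ∑ l ∈ Ico m (2 * m + 1), (JD p j l x / wd l) • iD p j l =
        (JD p j m x / wd m) • iD p j m +
          ∑ l ∈ Ico (m + 1) (2 * m + 1), (JD p j l x / wd l) • iD p j l :=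
      Finset.sum_eq_sum_Ico_succ_bot (by omega) _
    have h3 : ∑ l ∈ Ico (m + 1) (2 * (m + 1) + 1), (JD p j l x / wd l) • iD p j l =
        ∑ l ∈ Ico (m + 1) (2 * m + 1), (JD p j l x / wd l) • iD p j l +
          (JD p j (2 * m + 1) x / wd (2 * m + 1)) • iD p j (2 * m + 1) +
          (JD p j (2 * m + 2) x / wd (2 * m + 2)) • iD p j (2 * m + 2) := by
      rw [show 2 * (m + 1) + 1 = (2 * m + 1) + 1 + 1 from rfl,
        Finset.sum_Ico_succ_top (by omega), Finset.sum_Ico_succ_top (by omega)]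
    rw [h3, ← sub_eq_zero]
    rw [h2] at ih
    have h4 : ∑ l ∈ range m, hs p j l x • hh p j l + hs p j m x • hh p j m +
        JD p j 0 x • iD p j 0 =
        (∑ l ∈ range m, hs p j l x • hh p j l + JD p j 0 x • iD p j 0) +
          hs p j m x • hh p j m := by abel
    rw [h4, ih, add_assoc, sub_eq_zero]
    rw [add_assoc (∑ l ∈ Ico (m + 1) (2 * m + 1), (JD p j l x / wd l) • iD p j l), ← h1]
    abel

end Pool.Agent.W692.NN
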