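import Pool.Agent.W692.NNHaar

/-!
# The Haar system of `L_p(ℝ)`: projections
-/

set_option autoImplicit false

open Finset MeasureTheory
open scoped ENNReal

namespace Pool.Agent.W692.NN

variable {p : ℝ≥0∞} [hp1 : Fact (1 ≤ p)]

theorem norm_hh (hpt : p ≠ ∞) (h1p : 1 < p.toReal) (j l : ℕ) : ‖hh p j l‖ = 1 := by
  have hpr : 0 < p.toReal := by linarith
  have h1 := norm_sum_ind hpt ({0, 1} : Finset ℕ)
    (fun i => if i = 0 then wd l ^ (-(1 / p.toReal)) else - wd l ^ (-(1 / p.toReal)))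
    (fun i => if i = 0 then zz j + ps (2 * l + 1) else zz j + ps (2 * l + 2))
    (fun i => if i = 0 then wd (2 * l + 1) else wd (2 * l + 2))
    (by
      intro i hi
      split_ifs
      · exact wd_pos _
      · exact wd_pos _)
    (by
      intro i hi i' hi' hne
      have hd := D_disj (zz j) l
      unfold D at hd
      simp only [Finset.mem_insert, Finset.mem_singleton] at hi hi'
      rcases hi with rfl | rfl <;> rcases hi' with rfl | rfl
      · exact absurd rfl hne
      · simpa using hd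
      · simpa using hd.symm
      · exact absurd rfl hne)
  rw [Finset.sum_pair (by norm_num), Finset.sum_pair (by norm_num)] at h1
  simp only [if_true, one_ne_zero, if_false, abs_neg] at h1
  have h2 : hh p j l = wd l ^ (-(1 / p.toReal)) • ind p (zz j + ps (2 * l + 1)) (wd (2 * l + 1)) +
      -wd l ^ (-(1 / p.toReal)) • ind p (zz j + ps (2 * l + 2)) (wd (2 * l + 2)) := by
    unfold hh iD
    rw [smul_sub, sub_eq_add_neg, neg_smul]
  rw [h2]
  have h3 : |wd l ^ (-(1 / p.toReal))| ^ p.toReal = (wd l)⁻¹ := by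
    rw [abs_of_pos (Real.rpow_pos_of_pos (wd_pos l) _), ← Real.rpow_mul (wd_pos l).le]
    rw [show -(1 / p.toReal) * p.toReal = -1 by field_simp, Real.rpow_neg_one]
  rw [h3, wd_left, wd_right] at h1
  have h4 : (wd l)⁻¹ * (wd l / 2) + (wd l)⁻¹ * (wd l / 2) = 1 := by
    have := (wd_pos l).ne'
    field_simp
    norm_num
  rw [h4] at h1
  rw [wd_left, wd_right]
  have h5 := norm_nonneg (wd l ^ (-(1 / p.toReal)) • ind p (zz j + ps (2 * l + 1)) (wd l / 2) +
      -wd l ^ (-(1 / p.toReal)) • ind p (zz j + ps (2 * l + 2)) (wd l / 2))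
  exact (Real.rpow_left_inj h5 zero_le_one hpr.ne').1 (h1.trans (Real.one_rpow p.toReal).symm)

/-- the enumeration of the Haar functions -/
noncomputable def hb (p : ℝ≥0∞) [Fact (1 ≤ p)] (b : ℕ) : E p := hh p (Nat.unpair b).1 (Nat.unpair b).2

/-- the enumeration of the functionals -/
noncomputable def hbs (p : ℝ≥0∞) [Fact (1 ≤ p)] (b : ℕ) : E p →L[ℝ] ℝ :=
  hs p (Nat.unpair b).1 (Nat.unpair b).2

/-- indicators of the unit intervals -/
noncomputable def un (p : ℝ≥0∞) [Fact (1 ≤ p)] (j : ℕ) : E p := iD p j 0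

/-- integrals over the unit intervals -/
noncomputable def us (p : ℝ≥0∞) [Fact (1 ≤ p)] (j : ℕ) : E p →L[ℝ] ℝ := JD p j 0

theorem norm_hb (hpt : p ≠ ∞) (h1p : 1 < p.toReal) (b : ℕ) : ‖hb p b‖ = 1 := norm_hh hpt h1p _ _

theorem hbs_hb (b b' : ℕ) : hbs p b (hb p b') = if b = b' then 1 else 0 := by
  unfold hbs hb
  rw [hs_hh]
  refine if_congr ?_ rfl rfl
  constructor
  · intro h
    rw [← Nat.pair_unpair b, ← Nat.pair_unpair b', h.1, h.2]
  · rintro rfl
    exact ⟨rfl, rfl⟩

theorem hbs_un (b j : ℕ) : hbs p b (un p j) = 0 := by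
  unfold hbs un iD
  apply hs_ind_eq_zero
  by_cases h : (Nat.unpair b).1 = j
  · left
    rw [h]
    exact D_sub_zero (zz j) _
  · right
    exact D_disj_of_ne h _ 0

theorem us_hb (j b : ℕ) : us p j (hb p b) = 0 := by
  unfold us hb JD
  apply J_hh_eq_zero
  by_cases h : (Nat.unpair b).1 = j
  · left
    rw [h]
    exact D_sub_zero (zz j) _
  · right
    exact D_disj_of_ne h _ 0

theorem us_un (j j' : ℕ) : us p j (un p j') = if j = j' then 1 else 0 := by
  unfold us un JD iD
  split_ifs with h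
  · subst h
    rw [J_ind_sub (wd_pos _).le (le_refl _), wd_zero]
  · exact J_ind_disj (D_disj_of_ne (Ne.symm h) 0 0)

theorem W_bound (hpt : p ≠ ∞) (h1p : 1 < p.toReal) (s : ℕ) (x : E p) :
    ‖∑ j ∈ range s, us p j x • un p j‖ ≤ ‖x‖ := by
  have h1 := ce_contraction hpt h1p (range s) (fun j => zz j + ps 0) (fun _ => wd 0)
    (fun _ _ => wd_pos 0) (fun i _ j _ hij => D_disj_of_ne hij 0 0) x
  simp only [wd_zero, div_one] at h1
  simpa only [us, un, JD, iD, wd_zero] using h1

theorem us_nrm (hpt : p ≠ ∞) (h1p : 1 < p.toReal) (s N : ℕ) (x : E p) :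
    nrm p.toReal N (fun j => us p (s + j) x) ≤ ‖x‖ := by
  apply nrm_le_of_S_le h1p (norm_nonneg _)
  have h1 := sum_J_rpow_le hpt h1p (range N) (fun j => zz (s + j) + ps 0) (fun _ => wd 0)
    (fun _ _ => wd_pos 0) (fun i _ j _ hij => D_disj_of_ne (by omega) 0 0) x
  simp only [wd_zero, div_one, mul_one] at h1
  simpa only [S, us, JD, wd_zero] using h1

theorem norm_un_sum (hpt : p ≠ ∞) (h1p : 1 < p.toReal) (s N : ℕ) (y : ℕ → ℝ) :
    ‖∑ j ∈ range N, y j • un p (s + j)‖ = nrm p.toReal N y := by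
  have hpr : 0 < p.toReal := by linarith
  have h1 := norm_sum_ind hpt (range N) y (fun j => zz (s + j) + ps 0) (fun _ => wd 0)
    (fun _ _ => wd_pos 0) (fun i _ j _ hij => D_disj_of_ne (by omega) 0 0)
  simp only [wd_zero, mul_one] at h1
  have h2 : ‖∑ j ∈ range N, y j • un p (s + j)‖ ^ p.toReal = S p.toReal N y := by
    simpa only [S, un, iD, wd_zero] using h1
  rw [← nrm_rpow h1p] at h2
  exact (Real.rpow_left_inj (norm_nonneg _) (nrm_nonneg _) hpr.ne').1 h2

/-- splitting of the enumeration -/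
theorem exists_split (b : ℕ) : ∃ m : ℕ → ℕ, ∀ {M : Type} [AddCommMonoid M] (F : ℕ → ℕ → M),
    ∑ b' ∈ range b, F (Nat.unpair b').1 (Nat.unpair b').2 =
      ∑ j ∈ range b, ∑ l ∈ range (m j), F j l := by
  classical
  have hex : ∀ j, ∃ l, b ≤ Nat.pair j l := fun j => ⟨b, Nat.right_le_pair j b⟩
  refine ⟨fun j => Nat.find (hex j), ?_⟩
  have hm : ∀ j l, l < Nat.find (hex j) ↔ Nat.pair j l < b := by
    intro j l
    constructor
    · intro h
      exact not_le.1 (Nat.find_min (hex j) h)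
    · intro h
      by_contra h1
      push Not at h1
      have h2 := Nat.find_spec (hex j)
      have h3 : Nat.pair j (Nat.find (hex j)) ≤ Nat.pair j l := by
        rcases Nat.lt_or_ge (Nat.find (hex j)) l with h4 | h4
        · exact (Nat.pair_lt_pair_right j h4).le
        · rw [le_antisymm h1 h4]
      omega
  intro M _ F
  rw [Finset.sum_sigma' (range b) (fun j => range (Nat.find (hex j))) (fun j l => F j l)]
  refine Finset.sum_bij' (fun b' _ => ⟨(Nat.unpair b').1, (Nat.unpair b').2⟩)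
    (fun a _ => Nat.pair a.1 a.2) ?_ ?_ ?_ ?_ ?_
  · intro b' hb'
    rw [mem_range] at hb'
    rw [Finset.mem_sigma, mem_range, mem_range]
    dsimp only
    refine ⟨(Nat.unpair_left_le b').trans_lt hb', ?_⟩
    rw [hm, Nat.pair_unpair]
    exact hb'
  · intro a ha
    rw [Finset.mem_sigma, mem_range, mem_range, hm] at ha
    exact mem_range.2 ha.2
  · intro b' _
    exact Nat.pair_unpair b'
  · rintro ⟨j, l⟩ _
    simp only [Nat.unpair_pair]
  · intro b' _
    rfl

theorem H_bound (hpt : p ≠ ∞) (h1p : 1 < p.toReal) (b : ℕ) (x : E p) :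
    ‖∑ b' ∈ range b, hbs p b' x • hb p b'‖ ≤ 2 * ‖x‖ := by
  obtain ⟨m, hm⟩ := exists_split b
  have h1 : ∑ b' ∈ range b, hbs p b' x • hb p b' =
      ∑ j ∈ range b, ∑ l ∈ range (m j), hs p j l x • hh p j l :=
    hm (fun j l => hs p j l x • hh p j l)
  have h2 : ∑ b' ∈ range b, hbs p b' x • hb p b' =
      ∑ j ∈ range b, ∑ l ∈ Ico (m j) (2 * m j + 1), (JD p j l x / wd l) • iD p j l -
        ∑ j ∈ range b, us p j x • un p j := by
    rw [h1, ← Finset.sum_sub_distrib]
    refine Finset.sum_congr rfl fun j _ => ?_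
    rw [← telescope]
    unfold us un
    abel
  rw [h2]
  have h3 : ‖∑ j ∈ range b, ∑ l ∈ Ico (m j) (2 * m j + 1), (JD p j l x / wd l) • iD p j l‖ ≤
      ‖x‖ := by
    rw [Finset.sum_sigma' (range b) (fun j => Ico (m j) (2 * m j + 1))
      (fun j l => (JD p j l x / wd l) • iD p j l)]
    refine ce_contraction hpt h1p ((range b).sigma (fun j => Ico (m j) (2 * m j + 1)))
      (fun a => zz a.1 + ps a.2) (fun a => wd a.2) (fun a _ => wd_pos _) ?_ x
    rintro ⟨j, l⟩ h ⟨j', l'⟩ h' hne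
    rw [Finset.mem_sigma] at h h'
    dsimp only at h h' ⊢
    by_cases hj : j = j'
    · subst hj
      refine leaves_disj (zz j) (m j) l h.2 l' h'.2 ?_
      rintro rfl
      exact hne rfl
    · exact D_disj_of_ne hj l l'
  have h4 := W_bound hpt h1p b x
  calc _ ≤ _ := norm_sub_le _ _
    _ ≤ 2 * ‖x‖ := by linarith

theorem hbs_bound (hpt : p ≠ ∞) (h1p : 1 < p.toReal) (b : ℕ) (x : E p) :
    |hbs p b x| ≤ 4 * ‖x‖ := by
  have h1 : hbs p b x • hb p b = ∑ b' ∈ range (b + 1), hbs p b' x • hb p b' -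
      ∑ b' ∈ range b, hbs p b' x • hb p b' := by
    rw [Finset.sum_range_succ]
    abel
  have h2 : ‖hbs p b x • hb p b‖ ≤ 4 * ‖x‖ := by
    rw [h1]
    have h3 := H_bound hpt h1p b x
    have h4 := H_bound hpt h1p (b + 1) x
    calc _ ≤ _ := norm_sub_le _ _
      _ ≤ 4 * ‖x‖ := by linarith
  rwa [norm_smul, norm_hb hpt h1p, mul_one, Real.norm_eq_abs] at h2

end Pool.Agent.W692.NN
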