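import Pool.Agent.W692.NNStep

/-!
# The functionals in the tensoring step, and the iteration
-/

set_option autoImplicit false

open Finset Filter Topology

namespace Pool.Agent.W692.NN

/-- product functional -/
def tfun (N : ℕ) (A a : ℕ → ℝ) : ℕ → ℝ := fun n => A (n / N) * a (n % N)

theorem sum_tfun {N M : ℕ} (A a x : ℕ → ℝ) :
    ∑ j ∈ range (M * N), tfun N A a j * x j =
      ∑ k ∈ range M, A k * ∑ j ∈ range N, a j * x (k * N + j) := by
  rw [sum_range_mul']
  refine Finset.sum_congr rfl fun k _ => ?_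
  rw [Finset.mul_sum]
  refine Finset.sum_congr rfl fun j hj => ?_
  unfold tfun
  rw [div_aux (mem_range.1 hj), mod_aux (mem_range.1 hj)]
  ring

theorem sum_tfun_tf {N M : ℕ} (A a : ℕ → ℝ) (θ : ℝ) (f : ℕ → ℕ → ℝ) {k i : ℕ} (hk : k < M)
    (hi : i < N) :
    ∑ j ∈ range (M * N), tfun N A a j * tf N θ f (k * N + i) j =
      (A k + (if k + 1 < M then θ * A (k + 1) else 0)) * ∑ j ∈ range N, a j * f i j := by
  rw [sum_tfun]
  have h1 : ∀ k' ∈ range M, A k' * ∑ j ∈ range N, a j * tf N θ f (k * N + i) (k' * N + j) =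
      (if k' = k then A k * ∑ j ∈ range N, a j * f i j else 0) +
        (if k' = k + 1 then θ * A (k + 1) * ∑ j ∈ range N, a j * f i j else 0) := by
    intro k' _
    have h2 : ∀ j ∈ range N, a j * tf N θ f (k * N + i) (k' * N + j) =
        (if k' = k then a j * f i j else 0) +
          (if k' = k + 1 then θ * (a j * f i j) else 0) := by
      intro j hj
      rw [tf_apply θ f hi (mem_range.1 hj)]
      by_cases h : k' = k
      · rw [if_pos h, if_pos h, if_neg (by omega), add_zero]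
      · rw [if_neg h, if_neg h, zero_add]
        by_cases h' : k' = k + 1
        · rw [if_pos h', if_pos h']; ring
        · rw [if_neg h', if_neg h', mul_zero]
    rw [Finset.sum_congr rfl h2, Finset.sum_add_distrib, mul_add]
    congr 1
    · by_cases h : k' = k
      · simp only [h, if_true]
      · simp only [if_neg h, Finset.sum_const_zero, mul_zero]
    · by_cases h : k' = k + 1
      · simp only [if_pos h]
        rw [← Finset.mul_sum, h]
        ring
      · simp only [if_neg h, Finset.sum_const_zero, mul_zero]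
  rw [Finset.sum_congr rfl h1, Finset.sum_add_distrib, Finset.sum_ite_eq',
    if_pos (mem_range.2 hk), add_mul]
  congr 1
  by_cases h : k + 1 < M
  · rw [Finset.sum_ite_eq', if_pos (mem_range.2 h), if_pos h]
  · rw [if_neg h, zero_mul]
    refine Finset.sum_eq_zero fun k' hk' => ?_
    rw [if_neg (fun h' => h (by rw [← h']; exact mem_range.1 hk'))]

/-- Hölder for constant weights -/
theorem sum_le_of_holder {p q : ℝ} (hpq : p.HolderConjugate q) (M : ℕ) (hM : 0 < M) (t : ℕ → ℝ)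
    (ht : ∀ k, 0 ≤ t k) :
    (M : ℝ) ^ (-(1 / q)) * ∑ k ∈ range M, t k ≤ (∑ k ∈ range M, t k ^ p) ^ (1 / p) := by
  have hM0 : (0 : ℝ) < M := Nat.cast_pos.2 hM
  have h1 := Real.inner_le_Lp_mul_Lq_of_nonneg (range M) (f := t) (g := fun _ => 1) hpq
    (fun i _ => ht i) (fun _ _ => zero_le_one)
  simp only [mul_one, Real.one_rpow, Finset.sum_const, card_range, nsmul_eq_mul] at h1
  calc (M : ℝ) ^ (-(1 / q)) * ∑ k ∈ range M, t k ≤
        (M : ℝ) ^ (-(1 / q)) * ((∑ k ∈ range M, t k ^ p) ^ (1 / p) * (M : ℝ) ^ (1 / q)) :=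
        mul_le_mul_of_nonneg_left h1 (by positivity)
    _ = (∑ k ∈ range M, t k ^ p) ^ (1 / p) := by
        rw [mul_comm, mul_assoc, ← Real.rpow_add hM0]
        simp

theorem step {p q : ℝ} (hpq : p.HolderConjugate q) {C ρ θ G : ℝ} (hρ : 0 ≤ ρ)
    (hC : 2 ≤ C) (hθ0 : 0 < θ) (hθ : θ ≤ 1 / 2)
    (hG : (1 + (4 * θ / (1 / 4 : ℝ) ^ (1 / p)) ^ q) ^ (p / q) + (2 * θ) ^ p ≤ G)
    (hgood : Good p C ρ) : Good p (C * G ^ (1 / p)) (ρ / (1 + θ)) := by
  have hp1 : 1 < p := hpq.lt
  have hp0 : 0 < p := hpq.pos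
  have hq0 : 0 < q := hpq.symm.pos
  obtain ⟨N, f, a, δ, hN, hδ0, hf0, hfne, hfC, hspan, haδ, hδ, ha, x₀, hx₀, hax₀⟩ := hgood
  -- the number of blocks
  obtain ⟨M, hM, hMθ⟩ : ∃ M : ℕ, 0 < M ∧
      (M : ℝ) ^ (-(1 / q)) ≤ 1 / (1 + θ) - 1 / (1 + 2 * θ) := by
    have hpos : 0 < 1 / (1 + θ) - 1 / (1 + 2 * θ) := by
      rw [sub_pos]
      exact one_div_lt_one_div_of_lt (by linarith) (by linarith)
    have h1 : Tendsto (fun M : ℕ => (M : ℝ) ^ (-(1 / q))) atTop (𝓝 0) :=
      (tendsto_rpow_neg_atTop (by positivity)).comp tendsto_natCast_atTop_atTop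
    obtain ⟨M, hM1, hM2⟩ := ((h1.eventually_le_const hpos).and (eventually_gt_atTop 0)).exists
    exact ⟨M, hM2, hM1⟩
  have hM0 : (0 : ℝ) < M := Nat.cast_pos.2 hM
  obtain ⟨μ, hμ⟩ : ∃ μ : ℝ, μ = (M : ℝ) ^ (-(1 / q)) := ⟨_, rfl⟩
  have hμ0 : 0 < μ := by rw [hμ]; positivity
  rw [← hμ] at hMθ
  set A : ℕ → ℝ := fun k => (-1) ^ k * μ with hA
  set D : ℕ → ℝ := fun k => if k + 1 < M then μ / (1 + 2 * θ) else μ with hD
  have hAabs : ∀ k, |A k| = μ := fun k => by
    simp only [hA, abs_mul, abs_pow, abs_neg, abs_one, one_pow, one_mul, abs_of_pos hμ0]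
  have hDpos : ∀ k, 0 < D k := fun k => by
    simp only [hD]
    split_ifs <;> positivity
  have hDge : ∀ k, μ / (1 + 2 * θ) ≤ D k := fun k => by
    simp only [hD]
    split_ifs
    · exact le_rfl
    · rw [div_le_iff₀ (by linarith)]
      nlinarith
  have hblock : ∀ x : ℕ → ℝ, (∑ k ∈ range M, nrm p N (fun j => x (k * N + j)) ^ p) ^ (1 / p) =
      nrm p (M * N) x := by
    intro x
    rw [nrm, S_mul]
    congr 1
    exact Finset.sum_congr rfl fun k _ => nrm_rpow hp1 _
  have hholder : ∀ x : ℕ → ℝ, μ * ∑ k ∈ range M, nrm p N (fun j => x (k * N + j)) ≤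
      nrm p (M * N) x := by
    intro x
    rw [← hblock, hμ]
    exact sum_le_of_holder hpq M hM _ (fun k => nrm_nonneg _)
  refine ⟨M * N, tf N θ f, tfun N A a, tfun N D δ, Nat.mul_pos hM hN,
    fun j => mul_nonneg (hDpos _).le (hδ0 _), ?_, ?_, ?_, ?_, ?_, ?_, ?_, ?_⟩
  · intro i j
    unfold tf
    split_ifs
    · exact hf0 _ _
    · exact mul_nonneg hθ0.le (hf0 _ _)
    · exact le_rfl
  · intro n hn
    obtain ⟨j, hj, hne⟩ := hfne (n % N) (Nat.mod_lt _ hN)
    have hdiv : n / N < M := Nat.div_lt_of_lt_mul (by rwa [Nat.mul_comm] at hn)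
    refine ⟨n / N * N + j, ?_, ?_⟩
    · have h2 : (n / N + 1) * N ≤ M * N := Nat.mul_le_mul_right _ hdiv
      rw [Nat.succ_mul] at h2
      omega
    · unfold tf
      rw [div_aux hj, mod_aux hj, if_pos rfl]
      exact hne
  · intro c n hn
    exact step_bound hpq hN hC hθ0.le hθ hG f hfC c n hn
  · -- spanning
    intro x
    choose cf hcf using hspan
    let v : ℕ → (ℕ → ℝ) := fun k => Nat.rec (fun j => x j)
      (fun k w => fun j => x ((k + 1) * N + j) - θ * w j) k
    have hv0 : v 0 = fun j => x j := rfl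
    have hvs : ∀ k, v (k + 1) = fun j => x ((k + 1) * N + j) - θ * v k j := fun k => rfl
    refine ⟨fun n => cf (v (n / N)) (n % N), fun n hn => ?_⟩
    have hdiv : n / N < M := Nat.div_lt_of_lt_mul (by rwa [Nat.mul_comm] at hn)
    have hmod : n % N < N := Nat.mod_lt _ hN
    have hn' : n = n / N * N + n % N := by
      rw [Nat.mul_comm]
      exact (Nat.div_add_mod n N).symm
    have hV : ∀ k j, j < N → V f N (fun n => cf (v (n / N)) (n % N)) k j = v k j := by
      intro k j hj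
      rw [← hcf (v k) j hj]
      unfold V comb
      refine Finset.sum_congr rfl fun i hi => ?_
      simp only
      rw [div_aux (mem_range.1 hi), mod_aux (mem_range.1 hi)]
    conv_lhs => rw [hn']
    rw [comb_tf θ f _ hdiv hmod]
    unfold X
    rw [hV _ _ hmod]
    rcases Nat.eq_zero_or_pos (n / N) with h0 | h0
    · rw [if_pos h0, h0, hv0, add_zero]
      simp only
      congr 1
      rw [h0] at hn'
      omega
    · rw [if_neg (by omega), hV _ _ hmod]
      obtain ⟨k, hk⟩ : ∃ k, n / N = k + 1 := ⟨n / N - 1, by omega⟩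
      rw [hk, hvs, Nat.add_sub_cancel]
      simp only
      rw [sub_add_cancel]
      congr 1
      rw [← hk]
      exact hn'.symm
  · -- the two functionals on the vectors
    intro n hn
    have hdiv : n / N < M := Nat.div_lt_of_lt_mul (by rwa [Nat.mul_comm] at hn)
    have hmod : n % N < N := Nat.mod_lt _ hN
    have hn' : n = n / N * N + n % N := by
      rw [Nat.mul_comm]
      exact (Nat.div_add_mod n N).symm
    obtain ⟨k, hk⟩ : ∃ k, k = n / N := ⟨_, rfl⟩
    obtain ⟨i, hi⟩ : ∃ i, i = n % N := ⟨_, rfl⟩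
    rw [← hk] at hdiv hn'
    rw [← hi] at hmod hn'
    rw [hn', sum_tfun_tf A a θ f hdiv hmod, sum_tfun_tf D δ θ f hdiv hmod, abs_mul]
    have h1 := haδ i hmod
    have h2 : 0 ≤ ∑ j ∈ range N, δ j * f i j := (abs_nonneg _).trans h1
    refine mul_le_mul ?_ h1 (abs_nonneg _) ?_
    · by_cases hkM : k + 1 < M
      · rw [if_pos hkM, if_pos hkM]
        have h3 : A k + θ * A (k + 1) = (1 - θ) * A k := by
          simp only [hA, pow_succ]
          ring
        rw [h3, abs_mul, hAabs, abs_of_nonneg (by linarith)]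
        have h4 := hDge k
        have h5 := hDge (k + 1)
        have h6 : (1 - θ) * μ ≤ μ / (1 + 2 * θ) + θ * (μ / (1 + 2 * θ)) := by
          have h7 : (1 - θ) * (1 + 2 * θ) * μ ≤ (1 + θ) * μ :=
            mul_le_mul_of_nonneg_right (by nlinarith) hμ0.le
          have h8 : μ / (1 + 2 * θ) + θ * (μ / (1 + 2 * θ)) = (1 + θ) * μ / (1 + 2 * θ) := by
            ring
          rw [h8, le_div_iff₀ (by linarith)]
          linarith
        have h9 : θ * (μ / (1 + 2 * θ)) ≤ θ * D (k + 1) := mul_le_mul_of_nonneg_left h5 hθ0.le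
        linarith
      · rw [if_neg hkM, if_neg hkM, add_zero, add_zero, hAabs]
        simp only [hD, if_neg hkM]
        exact le_rfl
    · have h3 := hDpos k
      have h4 := hDpos (k + 1)
      split_ifs <;> positivity
  · -- norm of δ
    intro x
    rw [sum_tfun]
    have h1 : |∑ k ∈ range M, D k * ∑ j ∈ range N, δ j * x (k * N + j)| ≤
        ∑ k ∈ range M, D k * (ρ * nrm p N (fun j => x (k * N + j))) := by
      refine (Finset.abs_sum_le_sum_abs _ _).trans (Finset.sum_le_sum fun k _ => ?_)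
      rw [abs_mul, abs_of_pos (hDpos k)]
      exact mul_le_mul_of_nonneg_left (hδ (fun j => x (k * N + j))) (hDpos k).le
    refine h1.trans ?_
    have h2 : ∀ k ∈ range M, D k * (ρ * nrm p N (fun j => x (k * N + j))) ≤
        ρ * (1 / (1 + 2 * θ)) * (μ * nrm p N (fun j => x (k * N + j))) +
          (if k = M - 1 then ρ * μ * nrm p N (fun j => x (k * N + j)) else 0) := by
      intro k hk
      have h3 : 0 ≤ nrm p N (fun j => x (k * N + j)) := nrm_nonneg _
      by_cases hkM : k + 1 < M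
      · simp only [hD, if_pos hkM]
        rw [if_neg (by omega), add_zero]
        refine le_of_eq ?_
        ring
      · simp only [hD, if_neg hkM]
        rw [mem_range] at hk
        rw [if_pos (by omega)]
        have h4 : 0 ≤ ρ * (1 / (1 + 2 * θ)) * (μ * nrm p N (fun j => x (k * N + j))) := by
          positivity
        nlinarith
    refine (Finset.sum_le_sum h2).trans ?_
    rw [Finset.sum_add_distrib, ← Finset.mul_sum, ← Finset.mul_sum, Finset.sum_ite_eq',
      if_pos (mem_range.2 (by omega))]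
    have h5 := hholder x
    have h6 : nrm p N (fun j => x ((M - 1) * N + j)) ≤ nrm p (M * N) x := by
      unfold nrm
      rw [S_mul]
      refine Real.rpow_le_rpow (S_nonneg _) ?_ (by positivity)
      exact Finset.single_le_sum (f := fun k => S p N (fun j => x (k * N + j)))
        (fun _ _ => S_nonneg _) (mem_range.2 (by omega))
    have h7 : 0 ≤ nrm p (M * N) x := nrm_nonneg _
    calc ρ * (1 / (1 + 2 * θ)) * (μ * ∑ k ∈ range M, nrm p N (fun j => x (k * N + j))) +
          ρ * μ * nrm p N (fun j => x ((M - 1) * N + j)) ≤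
          ρ * (1 / (1 + 2 * θ)) * nrm p (M * N) x + ρ * μ * nrm p (M * N) x :=
        add_le_add (mul_le_mul_of_nonneg_left h5 (by positivity))
          (mul_le_mul_of_nonneg_left h6 (by positivity))
      _ = ρ * (1 / (1 + 2 * θ) + μ) * nrm p (M * N) x := by ring
      _ ≤ ρ * (1 / (1 + θ)) * nrm p (M * N) x := by
        refine mul_le_mul_of_nonneg_right ?_ h7
        exact mul_le_mul_of_nonneg_left (by linarith) hρ
      _ = ρ / (1 + θ) * nrm p (M * N) x := by ring
  · -- norm of a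
    intro x
    rw [sum_tfun]
    refine le_trans ?_ (hholder x)
    rw [Finset.mul_sum]
    refine (Finset.abs_sum_le_sum_abs _ _).trans (Finset.sum_le_sum fun k _ => ?_)
    rw [abs_mul, hAabs]
    exact mul_le_mul_of_nonneg_left (ha (fun j => x (k * N + j))) hμ0.le
  · -- norming vector
    refine ⟨tfun N (fun k => (-1) ^ k * (M : ℝ) ^ (-(1 / p))) x₀, ?_, ?_⟩
    · refine nrm_le_of_S_le hp1 zero_le_one ?_
      rw [S_mul, Real.one_rpow]
      have h1 : ∀ k ∈ range M, S p N (fun j => tfun N (fun k => (-1) ^ k * (M : ℝ) ^ (-(1 / p)))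
          x₀ (k * N + j)) ≤ (M : ℝ)⁻¹ := by
        intro k _
        have h2 : S p N (fun j => tfun N (fun k => (-1) ^ k * (M : ℝ) ^ (-(1 / p)))
            x₀ (k * N + j)) = S p N (fun j => ((-1) ^ k * (M : ℝ) ^ (-(1 / p))) * x₀ j) := by
          refine S_congr fun j hj => ?_
          unfold tfun
          rw [div_aux hj, mod_aux hj]
        rw [h2, S_smul, abs_mul, abs_pow, abs_neg, abs_one, one_pow, one_mul,
          abs_of_pos (by positivity), ← Real.rpow_mul hM0.le]
        have h3 : -(1 / p) * p = -1 := by field_simp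
        rw [h3, Real.rpow_neg_one, ← nrm_rpow hp1]
        have h4 : nrm p N x₀ ^ p ≤ 1 := by
          calc nrm p N x₀ ^ p ≤ 1 ^ p := Real.rpow_le_rpow (nrm_nonneg _) hx₀ hp0.le
            _ = 1 := Real.one_rpow p
        calc (M : ℝ)⁻¹ * nrm p N x₀ ^ p ≤ (M : ℝ)⁻¹ * 1 :=
              mul_le_mul_of_nonneg_left h4 (by positivity)
          _ = (M : ℝ)⁻¹ := mul_one _
      refine (Finset.sum_le_sum h1).trans ?_
      rw [Finset.sum_const, card_range, nsmul_eq_mul, mul_inv_cancel₀ hM0.ne']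
    · rw [sum_tfun]
      have h1 : ∀ k ∈ range M, A k * ∑ j ∈ range N, a j *
          tfun N (fun k => (-1) ^ k * (M : ℝ) ^ (-(1 / p))) x₀ (k * N + j) = (M : ℝ)⁻¹ := by
        intro k _
        have h2 : ∑ j ∈ range N, a j *
            tfun N (fun k => (-1) ^ k * (M : ℝ) ^ (-(1 / p))) x₀ (k * N + j) =
            ((-1) ^ k * (M : ℝ) ^ (-(1 / p))) * ∑ j ∈ range N, a j * x₀ j := by
          rw [Finset.mul_sum]
          refine Finset.sum_congr rfl fun j hj => ?_
          unfold tfun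
          rw [div_aux (mem_range.1 hj), mod_aux (mem_range.1 hj)]
          ring
        rw [h2, hax₀, mul_one]
        simp only [hA, hμ]
        have h3 : ((-1 : ℝ) ^ k) * ((-1 : ℝ) ^ k) = 1 := by
          rw [← mul_pow]
          norm_num
        have h4 : (M : ℝ) ^ (-(1 / q)) * (M : ℝ) ^ (-(1 / p)) = (M : ℝ)⁻¹ := by
          rw [← Real.rpow_add hM0, ← Real.rpow_neg_one]
          congr 1
          have := hpq.inv_add_inv_eq_one
          simp only [one_div]
          linarith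
        calc (-1 : ℝ) ^ k * (M : ℝ) ^ (-(1 / q)) * ((-1) ^ k * (M : ℝ) ^ (-(1 / p))) =
              ((-1 : ℝ) ^ k * (-1 : ℝ) ^ k) * ((M : ℝ) ^ (-(1 / q)) * (M : ℝ) ^ (-(1 / p))) := by
              ring
          _ = (M : ℝ)⁻¹ := by rw [h3, h4, one_mul]
      rw [Finset.sum_congr rfl h1, Finset.sum_const, card_range, nsmul_eq_mul,
        mul_inv_cancel₀ hM0.ne']

theorem Good.mono {p C C' ρ ρ' : ℝ} (hC : C ≤ C') (hρ : ρ ≤ ρ') (h : Good p C ρ) :
    Good p C' ρ' := by
  obtain ⟨N, f, a, δ, hN, hδ0, hf0, hfne, hfC, hspan, haδ, hδ, ha, x₀, hx₀, hax₀⟩ := h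
  exact ⟨N, f, a, δ, hN, hδ0, hf0, hfne,
    fun c n hn => (hfC c n hn).trans (mul_le_mul_of_nonneg_right hC (nrm_nonneg _)), hspan, haδ,
    fun x => (hδ x).trans (mul_le_mul_of_nonneg_right hρ (nrm_nonneg _)), ha, x₀, hx₀, hax₀⟩

theorem good_start {p : ℝ} (hp : 1 < p) : Good p 2 1 := by
  have hp0 : 0 < p := by linarith
  have hn : ∀ x : ℕ → ℝ, nrm p 1 x = |x 0| := by
    intro x
    unfold nrm S
    rw [Finset.sum_range_one, ← Real.rpow_mul (abs_nonneg _), mul_one_div_cancel hp0.ne',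
      Real.rpow_one]
  refine ⟨1, fun _ _ => 1, fun _ => 1, fun _ => 1, one_pos, fun _ => zero_le_one,
    fun _ _ => zero_le_one,
    fun i _ => ⟨0, one_pos, one_ne_zero⟩, ?_, ?_, ?_, ?_, ?_, fun _ => 1, ?_, ?_⟩
  · intro c n hn1
    rw [hn, hn]
    interval_cases n
    · simp [comb]
    · simp [comb]
      have := abs_nonneg (c 0)
      linarith
  · intro x
    refine ⟨x, fun j hj => ?_⟩
    have : j = 0 := by omega
    simp [comb, this]
  · intro i _
    simp
  · intro x
    rw [hn]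
    simp
  · intro x
    rw [hn]
    simp
  · rw [hn]
    simp
  · simp

theorem iterate {p q : ℝ} (hpq : p.HolderConjugate q) {θ G : ℝ} (hθ0 : 0 < θ) (hθ : θ ≤ 1 / 2)
    (hG : (1 + (4 * θ / (1 / 4 : ℝ) ^ (1 / p)) ^ q) ^ (p / q) + (2 * θ) ^ p ≤ G) (hG1 : 1 ≤ G)
    (r : ℕ) : Good p (2 * (G ^ (1 / p)) ^ r) (1 / (1 + θ) ^ r) := by
  have hp0 : 0 < p := hpq.pos
  have hGp : 1 ≤ G ^ (1 / p) := Real.one_le_rpow hG1 (by positivity)
  induction r with
  | zero =>
    simpa using good_start hpq.lt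
  | succ r ih =>
    have h1 := step hpq (C := 2 * (G ^ (1 / p)) ^ r) (ρ := 1 / (1 + θ) ^ r) (θ := θ) (G := G)
      (by positivity) (by
        have := one_le_pow₀ hGp (n := r)
        linarith) hθ0 hθ hG ih
    refine h1.mono (le_of_eq ?_) (le_of_eq ?_)
    · rw [pow_succ]; ring
    · rw [pow_succ, div_div]

/-- **Positive conditional bases of `ℓ_p^N`.** -/
theorem good_exists {p : ℝ} (hp : 1 < p) {ε : ℝ} (hε : 0 < ε) : Good p 6 ε := by
  obtain ⟨q, hpq⟩ : ∃ q, p.HolderConjugate q := ⟨_, Real.HolderConjugate.conjExponent hp⟩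
  have hp0 : 0 < p := hpq.pos
  have hq1 : 1 < q := hpq.symm.lt
  have hq0 : 0 < q := hpq.symm.pos
  obtain ⟨m, hm⟩ : ∃ m : ℕ, (1 / 2 : ℝ) ^ m < ε := exists_pow_lt_of_lt_one hε (by norm_num)
  obtain ⟨τ, hτ⟩ : ∃ τ : ℝ, τ = (1 / 4 : ℝ) ^ (1 / p) := ⟨_, rfl⟩
  have hτ0 : 0 < τ := by rw [hτ]; positivity
  -- exponent of the cost
  have hpq1 : p / q = p - 1 := by
    have := hpq.sub_one_mul_conj
    field_simp
    linarith
  have hlim : Tendsto (fun n : ℕ => (m : ℝ) * ((p - 1) * (4 / τ) ^ q * (n : ℝ) ^ (-(q - 1)) +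
      2 ^ p * (n : ℝ) ^ (-(p - 1)))) atTop (𝓝 (m * ((p - 1) * (4 / τ) ^ q * 0 + 2 ^ p * 0))) := by
    have h1 : Tendsto (fun n : ℕ => (n : ℝ) ^ (-(q - 1))) atTop (𝓝 0) :=
      (tendsto_rpow_neg_atTop (by linarith)).comp tendsto_natCast_atTop_atTop
    have h2 : Tendsto (fun n : ℕ => (n : ℝ) ^ (-(p - 1))) atTop (𝓝 0) :=
      (tendsto_rpow_neg_atTop (by linarith)).comp tendsto_natCast_atTop_atTop
    exact ((h1.const_mul _).add (h2.const_mul _)).const_mul _
  rw [mul_zero, mul_zero, add_zero, mul_zero] at hlim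
  obtain ⟨n, hn1, hn2⟩ := ((hlim.eventually_le_const (show (0 : ℝ) < 1 by norm_num)).and
    (eventually_ge_atTop 2)).exists
  have hn0 : (0 : ℝ) < n := Nat.cast_pos.2 (by omega)
  have hn2' : (2 : ℝ) ≤ n := by exact_mod_cast hn2
  set θ : ℝ := 1 / n with hθ
  have hθ0 : 0 < θ := by positivity
  have hθ2 : θ ≤ 1 / 2 := by
    rw [hθ]
    exact one_div_le_one_div_of_le (by norm_num) hn2'
  obtain ⟨y, hy⟩ : ∃ y : ℝ, y = (p - 1) * (4 * θ / τ) ^ q + (2 * θ) ^ p := ⟨_, rfl⟩
  have hy0 : 0 ≤ y := by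
    rw [hy]
    have : 0 < p - 1 := by linarith
    positivity
  have hG : (1 + (4 * θ / (1 / 4 : ℝ) ^ (1 / p)) ^ q) ^ (p / q) + (2 * θ) ^ p ≤ Real.exp y := by
    rw [← hτ, hpq1]
    have h1 : (1 + (4 * θ / τ) ^ q) ^ (p - 1) ≤ Real.exp ((p - 1) * (4 * θ / τ) ^ q) := by
      have h2 : 1 + (4 * θ / τ) ^ q ≤ Real.exp ((4 * θ / τ) ^ q) := by
        have := Real.add_one_le_exp ((4 * θ / τ) ^ q)
        linarith
      calc (1 + (4 * θ / τ) ^ q) ^ (p - 1) ≤ (Real.exp ((4 * θ / τ) ^ q)) ^ (p - 1) :=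
            Real.rpow_le_rpow (by positivity) h2 (by linarith)
        _ = Real.exp ((p - 1) * (4 * θ / τ) ^ q) := by
            rw [← Real.exp_mul, mul_comm]
    have h3 : 0 ≤ (2 * θ) ^ p := by positivity
    have h4 : 1 ≤ Real.exp ((p - 1) * (4 * θ / τ) ^ q) := Real.one_le_exp (by
      have : 0 < p - 1 := by linarith
      positivity)
    have h5 := Real.add_one_le_exp ((2 * θ) ^ p)
    calc (1 + (4 * θ / τ) ^ q) ^ (p - 1) + (2 * θ) ^ p ≤
          Real.exp ((p - 1) * (4 * θ / τ) ^ q) * (1 + (2 * θ) ^ p) := by nlinarith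
      _ ≤ Real.exp ((p - 1) * (4 * θ / τ) ^ q) * Real.exp ((2 * θ) ^ p) :=
          mul_le_mul_of_nonneg_left (by linarith) (by positivity)
      _ = Real.exp y := by rw [← Real.exp_add, hy]
  have hG1 : 1 ≤ Real.exp y := Real.one_le_exp hy0
  refine (iterate hpq hθ0 hθ2 hG hG1 (n * m)).mono ?_ ?_
  · -- cost
    have h1 : y * n * m ≤ 1 := by
      have h2 : (n : ℝ) ^ (-(q - 1)) = n * (1 / (n : ℝ)) ^ q := by
        rw [one_div, Real.inv_rpow hn0.le, ← Real.rpow_neg hn0.le]
        conv_rhs => rw [← Real.rpow_one (n : ℝ)]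
        rw [← Real.rpow_mul hn0.le, ← Real.rpow_add hn0]
        congr 1
        ring
      have h3 : (n : ℝ) ^ (-(p - 1)) = n * (1 / (n : ℝ)) ^ p := by
        rw [one_div, Real.inv_rpow hn0.le, ← Real.rpow_neg hn0.le]
        conv_rhs => rw [← Real.rpow_one (n : ℝ)]
        rw [← Real.rpow_mul hn0.le, ← Real.rpow_add hn0]
        congr 1
        ring
      rw [h2, h3] at hn1
      have h4 : (4 * θ / τ) ^ q = (4 / τ) ^ q * (1 / (n : ℝ)) ^ q := by
        rw [← Real.mul_rpow (by positivity) (by positivity)]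
        congr 1
        rw [hθ]
        ring
      have h5 : (2 * θ) ^ p = 2 ^ p * (1 / (n : ℝ)) ^ p := by
        rw [← Real.mul_rpow (by positivity) (by positivity)]
      rw [hy, h4, h5]
      calc _ = (m : ℝ) * ((p - 1) * (4 / τ) ^ q * (n * (1 / (n : ℝ)) ^ q) +
            2 ^ p * (n * (1 / (n : ℝ)) ^ p)) := by ring
        _ ≤ 1 := hn1
    have h6 : (Real.exp y ^ (1 / p)) ^ (n * m) ≤ 3 := by
      rw [← Real.exp_mul, ← Real.exp_nat_mul]
      have h7 : ((n * m : ℕ) : ℝ) * (y * (1 / p)) ≤ 1 := by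
        push_cast
        have h8 : (n : ℝ) * m * (y * (1 / p)) = (y * n * m) * (1 / p) := by ring
        rw [h8]
        have h9 : 1 / p ≤ 1 := by
          rw [div_le_one hp0]
          linarith
        have h10 : 0 ≤ 1 / p := by positivity
        have h11 : 0 ≤ y * n * m := by positivity
        nlinarith
      calc Real.exp (((n * m : ℕ) : ℝ) * (y * (1 / p))) ≤ Real.exp 1 := Real.exp_le_exp.2 h7
        _ ≤ 3 := by
          have := Real.exp_one_lt_d9
          linarith
    linarith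
  · -- gain
    have h1 : (2 : ℝ) ^ m ≤ (1 + θ) ^ (n * m) := by
      rw [pow_mul]
      refine pow_le_pow_left₀ (by norm_num) ?_ m
      have h2 := one_add_mul_le_pow (a := θ) (by linarith) n
      have h3 : (n : ℝ) * θ = 1 := by rw [hθ]; field_simp
      linarith
    calc 1 / (1 + θ) ^ (n * m) ≤ 1 / 2 ^ m := one_div_le_one_div_of_le (by positivity) h1
      _ = (1 / 2 : ℝ) ^ m := by rw [one_div_pow]
      _ ≤ ε := hm.le

end Pool.Agent.W692.NN
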