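import Pool.Agent.W692.NNBlock

/-!
# Interval averages in `L_p(ℝ)`
-/

set_option autoImplicit false

open Finset MeasureTheory
open scoped ENNReal

namespace Pool.Agent.W692.NN

variable {p : ℝ≥0∞} [hp1 : Fact (1 ≤ p)]

/-- `L_p(ℝ)` -/
abbrev E (p : ℝ≥0∞) [Fact (1 ≤ p)] : Type := Lp ℝ p (volume : Measure ℝ)

/-- the interval `[a, a + w)` -/
def I (a w : ℝ) : Set ℝ := Set.Ico a (a + w)

theorem I_meas (a w : ℝ) : MeasurableSet (I a w) := measurableSet_Ico

theorem vol_I (a w : ℝ) : volume (I a w) = ENNReal.ofReal w := by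
  rw [I, Real.volume_Ico]
  congr 1
  ring

theorem vol_I_ne_top (a w : ℝ) : volume (I a w) ≠ ∞ := by
  rw [vol_I]
  exact ENNReal.ofReal_ne_top

instance (a w : ℝ) : IsFiniteMeasure (volume.restrict (I a w)) :=
  ⟨by rw [Measure.restrict_apply_univ]; exact (vol_I_ne_top a w).lt_top⟩

/-- the indicator function of `[a, a + w)` -/
noncomputable def ind (p : ℝ≥0∞) [Fact (1 ≤ p)] (a w : ℝ) : E p :=
  indicatorConstLp p (I_meas a w) (vol_I_ne_top a w) (1 : ℝ)

theorem ind_coeFn (a w : ℝ) :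
    ⇑(ind p a w) =ᵐ[volume] (I a w).indicator (fun _ => (1 : ℝ)) :=
  indicatorConstLp_coeFn

theorem memLp_restrict (x : E p) (a w : ℝ) : MemLp x p (volume.restrict (I a w)) :=
  (Lp.memLp x).restrict _

theorem integrableOn_I (x : E p) (a w : ℝ) : IntegrableOn x (I a w) :=
  (memLp_restrict x a w).integrable hp1.out

variable (hpt : p ≠ ∞)
include hpt

theorem norm_rpow_eq (x : E p) : ‖x‖ ^ p.toReal = ∫ t, |x t| ^ p.toReal := by
  have hp0 : p ≠ 0 := (lt_of_lt_of_le one_pos hp1.out).ne'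
  have hpr : 0 < p.toReal := ENNReal.toReal_pos hp0 hpt
  have h0 : 0 ≤ ∫ t, |x t| ^ p.toReal :=
    integral_nonneg fun t => Real.rpow_nonneg (abs_nonneg _) _
  rw [Lp.norm_def, (Lp.memLp x).eLpNorm_eq_integral_rpow_norm hp0 hpt]
  simp only [Real.norm_eq_abs]
  rw [ENNReal.toReal_ofReal (Real.rpow_nonneg h0 _), ← Real.rpow_mul h0, inv_mul_cancel₀ hpr.ne',
    Real.rpow_one]

theorem integrable_rpow (x : E p) : Integrable (fun t => |x t| ^ p.toReal) := by
  have hp0 : p ≠ 0 := (lt_of_lt_of_le one_pos hp1.out).ne'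
  have := (Lp.memLp x).integrable_norm_rpow hp0 hpt
  simpa [Real.norm_eq_abs] using this

/-- Hölder on an interval -/
theorem abs_integral_rpow_le (h1p : 1 < p.toReal) (x : E p) {a w : ℝ} (hw : 0 < w) :
    |∫ t in I a w, x t| ^ p.toReal ≤ w ^ (p.toReal - 1) * ∫ t in I a w, |x t| ^ p.toReal := by
  have hp0 : p ≠ 0 := (lt_of_lt_of_le one_pos hp1.out).ne'
  have hpr : 0 < p.toReal := by linarith
  obtain ⟨q, hpq⟩ : ∃ q, p.toReal.HolderConjugate q := ⟨_, Real.HolderConjugate.conjExponent h1p⟩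
  have hq0 : 0 < q := hpq.symm.pos
  have h1 := integral_mul_norm_le_Lp_mul_Lq (μ := volume.restrict (I a w)) (f := x)
    (g := fun _ => (1 : ℝ)) hpq
    (by rw [ENNReal.ofReal_toReal hpt]; exact memLp_restrict x a w) (memLp_const 1)
  simp only [norm_one, mul_one, Real.one_rpow, integral_const, smul_eq_mul, Real.norm_eq_abs] at h1
  have hvol : (volume.restrict (I a w)).real Set.univ = w := by
    rw [measureReal_def, Measure.restrict_apply_univ, vol_I, ENNReal.toReal_ofReal hw.le]
  rw [hvol] at h1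
  have h2 : |∫ t in I a w, x t| ≤ ∫ t in I a w, |x t| := by
    simpa [Real.norm_eq_abs] using norm_integral_le_integral_norm (μ := volume.restrict (I a w)) x
  have h3 : 0 ≤ ∫ t in I a w, |x t| ^ p.toReal :=
    integral_nonneg fun t => Real.rpow_nonneg (abs_nonneg _) _
  calc |∫ t in I a w, x t| ^ p.toReal ≤
        ((∫ t in I a w, |x t| ^ p.toReal) ^ (1 / p.toReal) * w ^ (1 / q)) ^ p.toReal :=
        Real.rpow_le_rpow (abs_nonneg _) (h2.trans h1) hpr.le
    _ = w ^ (p.toReal - 1) * ∫ t in I a w, |x t| ^ p.toReal := by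
        rw [Real.mul_rpow (Real.rpow_nonneg h3 _) (by positivity), ← Real.rpow_mul h3,
          one_div_mul_cancel hpr.ne', Real.rpow_one, ← Real.rpow_mul hw.le, mul_comm]
        congr 2
        have := hpq.sub_one_mul_conj
        field_simp
        linarith

omit hpt in
theorem bound_J (x : E p) (a w : ℝ) :
    ‖∫ t in I a w, x t‖ ≤ (ENNReal.ofReal w ^ (1 - 1 / p.toReal)).toReal * ‖x‖ := by
  have h1 : ‖∫ t in I a w, x t‖ ≤ ∫ t in I a w, ‖x t‖ := norm_integral_le_integral_norm _
  have h2 : ∫ t in I a w, ‖x t‖ = (eLpNorm x 1 (volume.restrict (I a w))).toReal := by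
    rw [eLpNorm_one_eq_lintegral_enorm, integral_norm_eq_lintegral_enorm]
    exact (memLp_restrict x a w).aestronglyMeasurable
  have h3 : eLpNorm x 1 (volume.restrict (I a w)) ≤
      eLpNorm x p (volume.restrict (I a w)) * (ENNReal.ofReal w) ^ (1 - 1 / p.toReal) := by
    have := eLpNorm_le_eLpNorm_mul_rpow_measure_univ (μ := volume.restrict (I a w)) hp1.out
      (memLp_restrict x a w).aestronglyMeasurable
    simpa [Measure.restrict_apply_univ, vol_I] using this
  have h4 : eLpNorm x p (volume.restrict (I a w)) ≤ eLpNorm x p volume :=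
    eLpNorm_mono_measure _ Measure.restrict_le_self
  have h5 : eLpNorm x p volume * (ENNReal.ofReal w) ^ (1 - 1 / p.toReal) ≠ ∞ := by
    refine ENNReal.mul_ne_top (Lp.memLp x).eLpNorm_ne_top ?_
    refine ENNReal.rpow_ne_top_of_nonneg ?_ ENNReal.ofReal_ne_top
    rcases eq_or_ne p ∞ with h | h
    · rw [h]; simp
    · have h6 : 1 ≤ p.toReal := by
        rw [← ENNReal.toReal_one]
        exact ENNReal.toReal_mono h hp1.out
      rw [sub_nonneg, div_le_one (by linarith)]
      exact h6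
  calc ‖∫ t in I a w, x t‖ ≤ (eLpNorm x 1 (volume.restrict (I a w))).toReal := h1.trans h2.le
    _ ≤ (eLpNorm x p volume * (ENNReal.ofReal w) ^ (1 - 1 / p.toReal)).toReal :=
        ENNReal.toReal_mono h5 (h3.trans (mul_le_mul_left h4 _))
    _ = (ENNReal.ofReal w ^ (1 - 1 / p.toReal)).toReal * ‖x‖ := by
        rw [ENNReal.toReal_mul, mul_comm, Lp.norm_def]

omit hpt

/-- the functional `x ↦ ∫_{[a,a+w)} x` -/
noncomputable def J (p : ℝ≥0∞) [Fact (1 ≤ p)] (a w : ℝ) : E p →L[ℝ] ℝ :=
  LinearMap.mkContinuous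
    { toFun := fun x => ∫ t in I a w, x t
      map_add' := fun x y => by
        rw [← integral_add (integrableOn_I x a w) (integrableOn_I y a w)]
        exact integral_congr_ae (ae_restrict_of_ae (Lp.coeFn_add x y))
      map_smul' := fun c x => by
        rw [RingHom.id_apply, smul_eq_mul, ← integral_const_mul]
        exact integral_congr_ae (ae_restrict_of_ae (Lp.coeFn_smul c x)) }
    ((ENNReal.ofReal w ^ (1 - 1 / p.toReal)).toReal) (fun x => bound_J x a w)

theorem J_apply (x : E p) (a w : ℝ) : J p a w x = ∫ t in I a w, x t := rfl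

theorem J_ind (a w b v : ℝ) :
    J p a w (ind p b v) = (volume (I b v ∩ I a w)).toReal := by
  rw [J_apply]
  have h1 : ∫ t in I a w, (ind p b v) t = ∫ t in I a w, (I b v).indicator (fun _ => (1 : ℝ)) t :=
    integral_congr_ae (ae_restrict_of_ae indicatorConstLp_coeFn)
  rw [h1, integral_indicator (I_meas b v), setIntegral_const, smul_eq_mul, mul_one,
    measureReal_restrict_apply (I_meas b v), measureReal_def]

theorem J_ind_disj {a w b v : ℝ} (h : Disjoint (I b v) (I a w)) : J p a w (ind p b v) = 0 := by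
  rw [J_ind, Set.disjoint_iff_inter_eq_empty.1 h]
  simp

theorem J_ind_sub {a w b v : ℝ} (hv : 0 ≤ v) (h : I b v ⊆ I a w) : J p a w (ind p b v) = v := by
  rw [J_ind, Set.inter_eq_left.2 h, vol_I, ENNReal.toReal_ofReal hv]

theorem J_ind_sup {a w b v : ℝ} (hw : 0 ≤ w) (h : I a w ⊆ I b v) : J p a w (ind p b v) = w := by
  rw [J_ind, Set.inter_eq_right.2 h, vol_I, ENNReal.toReal_ofReal hw]

include hpt

/-- `p`-th power of the norm of a combination of indicators of disjoint intervals -/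
theorem norm_sum_ind {ι : Type*} (s : Finset ι) (c a w : ι → ℝ) (hw : ∀ i ∈ s, 0 < w i)
    (hd : ∀ i ∈ s, ∀ j ∈ s, i ≠ j → Disjoint (I (a i) (w i)) (I (a j) (w j))) :
    ‖∑ i ∈ s, c i • ind p (a i) (w i)‖ ^ p.toReal = ∑ i ∈ s, |c i| ^ p.toReal * w i := by
  classical
  have hp0 : p ≠ 0 := (lt_of_lt_of_le one_pos hp1.out).ne'
  have hpr : 0 < p.toReal := ENNReal.toReal_pos hp0 hpt
  rw [norm_rpow_eq hpt]
  have h1 : ∀ᵐ t, (∑ i ∈ s, c i • ind p (a i) (w i) : E p) t =
      ∑ i ∈ s, c i * (I (a i) (w i)).indicator (fun _ => (1 : ℝ)) t := by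
    have h2 : ∀ s' : Finset ι, (∑ i ∈ s', c i • ind p (a i) (w i) : E p) =ᵐ[volume]
        fun t => ∑ i ∈ s', c i * (I (a i) (w i)).indicator (fun _ => (1 : ℝ)) t := by
      intro s'
      induction s' using Finset.induction_on with
      | empty =>
        simp only [Finset.sum_empty]
        exact Lp.coeFn_zero _ _ _
      | insert i s' hi ih =>
        rw [Finset.sum_insert hi]
        filter_upwards [Lp.coeFn_add (c i • ind p (a i) (w i))
          (∑ i ∈ s', c i • ind p (a i) (w i)), ih, Lp.coeFn_smul (c i) (ind p (a i) (w i)),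
          ind_coeFn (p := p) (a i) (w i)] with t ht1 ht2 ht3 ht4
        rw [Finset.sum_insert hi, ht1, Pi.add_apply, ht2, ht3, Pi.smul_apply, ht4, smul_eq_mul]
    exact h2 s
  have h2 : ∀ t : ℝ, |∑ i ∈ s, c i * (I (a i) (w i)).indicator (fun _ => (1 : ℝ)) t| ^ p.toReal =
      ∑ i ∈ s, (I (a i) (w i)).indicator (fun _ => |c i| ^ p.toReal) t := by
    intro t
    by_cases ht : ∃ i ∈ s, t ∈ I (a i) (w i)
    · obtain ⟨i, hi, hti⟩ := ht
      have h3 : ∀ j ∈ s, j ≠ i → t ∉ I (a j) (w j) := fun j hj hji htj =>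
        Set.disjoint_left.1 (hd j hj i hi hji) htj hti
      rw [Finset.sum_eq_single_of_mem i hi, Finset.sum_eq_single_of_mem i hi]
      · rw [Set.indicator_of_mem hti, Set.indicator_of_mem hti, mul_one]
      · intro j hj hji
        rw [Set.indicator_of_notMem (h3 j hj hji)]
      · intro j hj hji
        rw [Set.indicator_of_notMem (h3 j hj hji), mul_zero]
    · push Not at ht
      rw [Finset.sum_eq_zero, Finset.sum_eq_zero, abs_zero, Real.zero_rpow hpr.ne']
      · intro i hi
        rw [Set.indicator_of_notMem (ht i hi)]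
      · intro i hi
        rw [Set.indicator_of_notMem (ht i hi), mul_zero]
  have h3 : ∫ t, |(∑ i ∈ s, c i • ind p (a i) (w i) : E p) t| ^ p.toReal =
      ∫ t, ∑ i ∈ s, (I (a i) (w i)).indicator (fun _ => |c i| ^ p.toReal) t := by
    refine integral_congr_ae ?_
    filter_upwards [h1] with t ht
    rw [ht, h2]
  rw [h3, integral_finsetSum]
  · refine Finset.sum_congr rfl fun i hi => ?_
    rw [integral_indicator (I_meas _ _), setIntegral_const, smul_eq_mul, measureReal_def, vol_I,
      ENNReal.toReal_ofReal (hw i hi).le, mul_comm]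
  · intro i _
    rw [integrable_indicator_iff (I_meas _ _)]
    exact integrable_const _

/-- sum of the `p`-th powers of the averages -/
theorem sum_J_rpow_le (h1p : 1 < p.toReal) {ι : Type*} (s : Finset ι) (a w : ι → ℝ)
    (hw : ∀ i ∈ s, 0 < w i)
    (hd : ∀ i ∈ s, ∀ j ∈ s, i ≠ j → Disjoint (I (a i) (w i)) (I (a j) (w j))) (x : E p) :
    ∑ i ∈ s, |J p (a i) (w i) x / w i| ^ p.toReal * w i ≤ ‖x‖ ^ p.toReal := by
  classical
  have hpr : 0 < p.toReal := by linarith
  have h1 : ∀ i ∈ s, |J p (a i) (w i) x / w i| ^ p.toReal * w i ≤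
      ∫ t in I (a i) (w i), |x t| ^ p.toReal := by
    intro i hi
    have hwi := hw i hi
    rw [abs_div, abs_of_pos hwi, Real.div_rpow (abs_nonneg _) hwi.le, J_apply]
    have h2 := abs_integral_rpow_le hpt h1p x (a := a i) hwi
    rw [div_mul_eq_mul_div, div_le_iff₀ (by positivity)]
    have h3 : w i ^ p.toReal = w i ^ (p.toReal - 1) * w i := by
      conv_rhs => rw [← Real.rpow_one (w i)]
      rw [← Real.rpow_mul hwi.le, ← Real.rpow_add hwi]
      congr 1
      ring
    rw [h3]
    calc |∫ t in I (a i) (w i), x t| ^ p.toReal * w i ≤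
          (w i ^ (p.toReal - 1) * ∫ t in I (a i) (w i), |x t| ^ p.toReal) * w i :=
          mul_le_mul_of_nonneg_right h2 hwi.le
      _ = _ := by ring
  refine (Finset.sum_le_sum h1).trans ?_
  rw [← integral_biUnion_finset s (fun i _ => I_meas _ _)
    (fun i hi j hj hij => hd i hi j hj hij)
    (fun i _ => (integrable_rpow hpt x).integrableOn), norm_rpow_eq hpt]
  exact setIntegral_le_integral (integrable_rpow hpt x)
    (Filter.Eventually.of_forall fun t => Real.rpow_nonneg (abs_nonneg _) _)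

/-- averaging over disjoint intervals is a contraction -/
theorem ce_contraction (h1p : 1 < p.toReal) {ι : Type*} (s : Finset ι) (a w : ι → ℝ)
    (hw : ∀ i ∈ s, 0 < w i)
    (hd : ∀ i ∈ s, ∀ j ∈ s, i ≠ j → Disjoint (I (a i) (w i)) (I (a j) (w j))) (x : E p) :
    ‖∑ i ∈ s, (J p (a i) (w i) x / w i) • ind p (a i) (w i)‖ ≤ ‖x‖ := by
  have hpr : 0 < p.toReal := by linarith
  have h1 : ‖∑ i ∈ s, (J p (a i) (w i) x / w i) • ind p (a i) (w i)‖ ^ p.toReal ≤
      ‖x‖ ^ p.toReal := by
    rw [norm_sum_ind hpt s _ a w hw hd]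
    exact sum_J_rpow_le hpt h1p s a w hw hd x
  exact (Real.rpow_le_rpow_iff (norm_nonneg _) (norm_nonneg _) hpr).1 h1

end Pool.Agent.W692.NN
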