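import Pool.Agent.W692.NNFin

/-!
# The tensoring step
-/

set_option autoImplicit false

open Finset

namespace Pool.Agent.W692.NN

/-- a good system: a nonnegative basis of `ℓ_p^N` with basis constant at most `C` and two
functionals `a`, `δ` with `|a(f_i)| ≤ δ(f_i)`, `‖a‖ = 1` (attained) and `‖δ‖ ≤ ρ`. -/
def Good (p C ρ : ℝ) : Prop := ∃ (N : ℕ) (f : ℕ → ℕ → ℝ) (a δ : ℕ → ℝ), 0 < N ∧
  (∀ j, 0 ≤ δ j) ∧ (∀ i j, 0 ≤ f i j) ∧ (∀ i < N, ∃ j < N, f i j ≠ 0) ∧
  (∀ (c : ℕ → ℝ) (n : ℕ), n ≤ N → nrm p N (comb f n c) ≤ C * nrm p N (comb f N c)) ∧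
  (∀ x : ℕ → ℝ, ∃ c : ℕ → ℝ, ∀ j < N, comb f N c j = x j) ∧
  (∀ i < N, |∑ j ∈ range N, a j * f i j| ≤ ∑ j ∈ range N, δ j * f i j) ∧
  (∀ x : ℕ → ℝ, |∑ j ∈ range N, δ j * x j| ≤ ρ * nrm p N x) ∧
  (∀ x : ℕ → ℝ, |∑ j ∈ range N, a j * x j| ≤ nrm p N x) ∧
  ∃ x : ℕ → ℝ, nrm p N x ≤ 1 ∧ ∑ j ∈ range N, a j * x j = 1

/-- the new vectors -/
noncomputable def tf (N : ℕ) (θ : ℝ) (f : ℕ → ℕ → ℝ) : ℕ → ℕ → ℝ := fun n j =>
  if j / N = n / N then f (n % N) (j % N)
  else if j / N = n / N + 1 then θ * f (n % N) (j % N) else 0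

theorem div_aux {N k j : ℕ} (hj : j < N) : (k * N + j) / N = k := by
  have hN : 0 < N := by omega
  rw [Nat.add_comm, Nat.add_mul_div_right _ _ hN, Nat.div_eq_of_lt hj, Nat.zero_add]

theorem mod_aux {N k j : ℕ} (hj : j < N) : (k * N + j) % N = j := by
  rw [Nat.add_comm, Nat.add_mul_mod_self_right, Nat.mod_eq_of_lt hj]

theorem tf_apply {N : ℕ} (θ : ℝ) (f : ℕ → ℕ → ℝ) {k i k' j : ℕ} (hi : i < N) (hj : j < N) :
    tf N θ f (k * N + i) (k' * N + j) =
      if k' = k then f i j else if k' = k + 1 then θ * f i j else 0 := by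
  unfold tf
  rw [div_aux hi, div_aux hj, mod_aux hi, mod_aux hj]

/-- the vectors of block `k` -/
noncomputable def V (f : ℕ → ℕ → ℝ) (N : ℕ) (c : ℕ → ℝ) (k : ℕ) : ℕ → ℝ :=
  comb f N (fun i => c (k * N + i))

/-- the coordinates of block `k` -/
noncomputable def X (f : ℕ → ℕ → ℝ) (N : ℕ) (θ : ℝ) (c : ℕ → ℝ) (k : ℕ) : ℕ → ℝ :=
  fun j => V f N c k j + (if k = 0 then 0 else θ * V f N c (k - 1) j)

theorem comb_tf {N M : ℕ} (θ : ℝ) (f : ℕ → ℕ → ℝ) (c : ℕ → ℝ) {k j : ℕ} (hk : k < M)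
    (hj : j < N) :
    comb (tf N θ f) (M * N) c (k * N + j) = X f N θ c k j := by
  have h1 : comb (tf N θ f) (M * N) c (k * N + j) =
      ∑ k' ∈ range M, ((if k = k' then V f N c k' j else 0) +
        (if k = k' + 1 then θ * V f N c k' j else 0)) := by
    unfold comb
    rw [sum_range_mul']
    refine Finset.sum_congr rfl fun k' _ => ?_
    have h2 : ∀ i ∈ range N, c (k' * N + i) * tf N θ f (k' * N + i) (k * N + j) =
        (if k = k' then c (k' * N + i) * f i j else 0) +
          (if k = k' + 1 then θ * (c (k' * N + i) * f i j) else 0) := by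
      intro i hi
      rw [tf_apply θ f (mem_range.1 hi) hj]
      by_cases h : k = k'
      · have h' : k ≠ k' + 1 := by omega
        rw [if_pos h, if_pos h, if_neg h', add_zero]
      · rw [if_neg h, if_neg h, zero_add]
        by_cases h' : k = k' + 1
        · rw [if_pos h', if_pos h']; ring
        · rw [if_neg h', if_neg h', mul_zero]
    rw [Finset.sum_congr rfl h2, Finset.sum_add_distrib]
    congr 1
    · by_cases h : k = k'
      · simp only [if_pos h, V, comb]
      · simp only [if_neg h, Finset.sum_const_zero]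
    · by_cases h : k = k' + 1
      · simp only [if_pos h, V, comb, Finset.mul_sum]
      · simp only [if_neg h, Finset.sum_const_zero]
  rw [h1, Finset.sum_add_distrib]
  unfold X
  congr 1
  · rw [Finset.sum_ite_eq, if_pos (mem_range.2 hk)]
  · by_cases hk0 : k = 0
    · rw [if_pos hk0]
      refine Finset.sum_eq_zero fun k' _ => ?_
      rw [if_neg (by omega)]
    · rw [if_neg hk0, Finset.sum_eq_single (k - 1)]
      · rw [if_pos (by omega)]
      · intro b _ hb
        rw [if_neg (by omega)]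
      · intro h
        exact absurd (mem_range.2 (by omega)) h

theorem S_comb_tf {p : ℝ} {N M : ℕ} (θ : ℝ) (f : ℕ → ℕ → ℝ) (c : ℕ → ℝ) :
    S p (M * N) (comb (tf N θ f) (M * N) c) = ∑ k ∈ range M, S p N (X f N θ c k) := by
  rw [S_mul]
  refine Finset.sum_congr rfl fun k hk => S_congr fun j hj => ?_
  exact comb_tf θ f c (mem_range.1 hk) hj

theorem nrm_V_le {p : ℝ} (hp : 1 < p) {N : ℕ} {θ : ℝ} (hθ0 : 0 ≤ θ) (hθ : θ ≤ 1 / 2)
    (f : ℕ → ℕ → ℝ) (c : ℕ → ℝ) (k : ℕ) :
    nrm p N (V f N c k) ≤ 2 * (∑ m ∈ range (k + 1), S p N (X f N θ c m)) ^ (1 / p) := by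
  have hp0 : 0 < p := by linarith
  have hX : ∀ k, nrm p N (X f N θ c k) ≤
      (∑ m ∈ range (k + 1), S p N (X f N θ c m)) ^ (1 / p) := by
    intro k
    unfold nrm
    refine Real.rpow_le_rpow (S_nonneg _) ?_ (by positivity)
    exact Finset.single_le_sum (f := fun m => S p N (X f N θ c m)) (fun m _ => S_nonneg _)
      (mem_range.2 (Nat.lt_succ_self k))
  have hA : ∀ k, 0 ≤ (∑ m ∈ range (k + 1), S p N (X f N θ c m)) ^ (1 / p) := fun k =>
    Real.rpow_nonneg (Finset.sum_nonneg fun _ _ => S_nonneg _) _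
  induction k with
  | zero =>
    have h1 : nrm p N (V f N c 0) = nrm p N (X f N θ c 0) :=
      nrm_congr fun j _ => by simp [X]
    rw [h1]
    have := hX 0
    have := hA 0
    linarith
  | succ k ih =>
    have h1 : nrm p N (V f N c (k + 1)) =
        nrm p N (fun j => X f N θ c (k + 1) j - θ * V f N c k j) :=
      nrm_congr fun j _ => by simp [X]
    have h2 := nrm_sub (N := N) hp (X f N θ c (k + 1)) (fun j => θ * V f N c k j)
    rw [nrm_smul hp, abs_of_nonneg hθ0] at h2
    have h3 : (∑ m ∈ range (k + 1), S p N (X f N θ c m)) ^ (1 / p) ≤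
        (∑ m ∈ range (k + 1 + 1), S p N (X f N θ c m)) ^ (1 / p) := by
      refine Real.rpow_le_rpow (Finset.sum_nonneg fun _ _ => S_nonneg _) ?_ (by positivity)
      rw [Finset.sum_range_succ _ (k + 1)]
      linarith [S_nonneg (p := p) (N := N) (X f N θ c (k + 1))]
    have h4 := hX (k + 1)
    have h5 := hA k
    have h6 : θ * nrm p N (V f N c k) ≤
        1 / 2 * (2 * (∑ m ∈ range (k + 1), S p N (X f N θ c m)) ^ (1 / p)) :=
      mul_le_mul hθ ih (nrm_nonneg _) (by norm_num)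
    rw [h1]
    linarith

theorem comb_trunc (f : ℕ → ℕ → ℝ) (c : ℕ → ℝ) {n L : ℕ} (hn : n ≤ L) :
    comb f n c = comb f L (fun m => if m < n then c m else 0) := by
  funext j
  unfold comb
  rw [← Finset.sum_subset (Finset.range_mono hn)]
  · refine Finset.sum_congr rfl fun i hi => ?_
    simp only [if_pos (mem_range.1 hi)]
  · intro i _ hi
    simp only [if_neg (fun h => hi (mem_range.2 h)), zero_mul]

/-- basis constant of the new system -/
theorem step_bound {p q : ℝ} (hpq : p.HolderConjugate q) {N M : ℕ} (hN : 0 < N) {C θ G : ℝ}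
    (hC : 2 ≤ C) (hθ0 : 0 ≤ θ) (hθ : θ ≤ 1 / 2)
    (hG : (1 + (4 * θ / (1 / 4 : ℝ) ^ (1 / p)) ^ q) ^ (p / q) + (2 * θ) ^ p ≤ G)
    (f : ℕ → ℕ → ℝ)
    (hf : ∀ (c : ℕ → ℝ) (n : ℕ), n ≤ N → nrm p N (comb f n c) ≤ C * nrm p N (comb f N c))
    (c : ℕ → ℝ) (n : ℕ) (hn : n ≤ M * N) :
    nrm p (M * N) (comb (tf N θ f) n c) ≤
      (C * G ^ (1 / p)) * nrm p (M * N) (comb (tf N θ f) (M * N) c) := by
  have hp1 : 1 < p := hpq.lt
  have hp0 : 0 < p := hpq.pos
  have hC0 : 0 ≤ C := by linarith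
  have hG1 : 1 ≤ G := by
    refine le_trans ?_ hG
    have h1 : 1 ≤ (1 + (4 * θ / (1 / 4 : ℝ) ^ (1 / p)) ^ q) ^ (p / q) :=
      Real.one_le_rpow (by
        have : 0 ≤ (4 * θ / (1 / 4 : ℝ) ^ (1 / p)) ^ q := by positivity
        linarith) (div_nonneg hp0.le hpq.symm.pos.le)
    have h2 : 0 ≤ (2 * θ) ^ p := by positivity
    linarith
  have hGp : 1 ≤ G ^ (1 / p) := Real.one_le_rpow hG1 (by positivity)
  rcases hn.eq_or_lt with rfl | hn
  · have h1 : (1 : ℝ) ≤ C * G ^ (1 / p) := by nlinarith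
    have := nrm_nonneg (p := p) (N := M * N) (comb (tf N θ f) (M * N) c)
    nlinarith
  obtain ⟨k0, hk0⟩ : ∃ k0, k0 = n / N := ⟨_, rfl⟩
  obtain ⟨i0, hi0⟩ : ∃ i0, i0 = n % N := ⟨_, rfl⟩
  have hi0N : i0 < N := hi0 ▸ Nat.mod_lt _ hN
  have hn' : n = k0 * N + i0 := by
    rw [hk0, hi0, Nat.mul_comm]
    exact (Nat.div_add_mod n N).symm
  have hk0M : k0 < M := hk0 ▸ Nat.div_lt_of_lt_mul (by rwa [Nat.mul_comm] at hn)
  clear hk0 hi0
  set c' : ℕ → ℝ := fun m => if m < n then c m else 0 with hc'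
  -- blocks of the truncation
  have hV1 : ∀ k < k0, V f N c' k = V f N c k := by
    intro k hk
    funext j
    unfold V comb
    refine Finset.sum_congr rfl fun i hi => ?_
    have h1 : k * N + i < n := by
      have h2 : (k + 1) * N ≤ k0 * N := Nat.mul_le_mul_right _ hk
      have h3 := mem_range.1 hi
      rw [Nat.succ_mul] at h2
      omega
    simp only [hc', if_pos h1]
  have hV2 : V f N c' k0 = comb f i0 (fun i => c (k0 * N + i)) := by
    rw [comb_trunc f (fun i => c (k0 * N + i)) hi0N.le]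
    unfold V
    congr 1
    funext i
    by_cases h : i < i0
    · rw [if_pos h]
      simp only [hc']
      rw [if_pos (by omega)]
    · rw [if_neg h]
      simp only [hc']
      rw [if_neg (by omega)]
  have hV3 : ∀ k, k0 < k → V f N c' k = fun _ => 0 := by
    intro k hk
    funext j
    unfold V comb
    refine Finset.sum_eq_zero fun i _ => ?_
    have h1 : ¬ (k * N + i < n) := by
      have h2 : (k0 + 1) * N ≤ k * N := Nat.mul_le_mul_right _ hk
      rw [Nat.succ_mul] at h2
      omega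
    simp only [hc', if_neg h1, zero_mul]
  have hX1 : ∀ k < k0, X f N θ c' k = X f N θ c k := by
    intro k hk
    funext j
    unfold X
    rw [hV1 k hk]
    by_cases h0 : k = 0
    · simp [h0]
    · rw [if_neg h0, if_neg h0, hV1 (k - 1) (by omega)]
  have hX3 : ∀ k, k0 + 2 ≤ k → S p N (X f N θ c' k) = 0 := by
    intro k hk
    have : S p N (X f N θ c' k) = S p N (fun _ => 0) := by
      refine S_congr fun j _ => ?_
      unfold X
      rw [hV3 k (by omega), hV3 (k - 1) (by omega)]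
      simp
    rw [this]
    unfold S
    simp [Real.zero_rpow hp0.ne']
  -- a and b
  obtain ⟨a, ha⟩ : ∃ a : ℝ, a = (∑ k ∈ range k0, S p N (X f N θ c k)) ^ (1 / p) := ⟨_, rfl⟩
  obtain ⟨b, hb⟩ : ∃ b : ℝ, b = nrm p N (X f N θ c k0) := ⟨_, rfl⟩
  have hsum0 : 0 ≤ ∑ k ∈ range k0, S p N (X f N θ c k) :=
    Finset.sum_nonneg fun _ _ => S_nonneg _
  have ha0 : 0 ≤ a := ha ▸ Real.rpow_nonneg hsum0 _
  have hb0 : 0 ≤ b := hb ▸ nrm_nonneg _
  have hap : a ^ p = ∑ k ∈ range k0, S p N (X f N θ c k) := by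
    rw [ha, ← Real.rpow_mul hsum0, one_div_mul_cancel hp0.ne', Real.rpow_one]
  have hbp : b ^ p = S p N (X f N θ c k0) := by rw [hb]; exact nrm_rpow hp1 _
  have habp : a ^ p + b ^ p ≤ S p (M * N) (comb (tf N θ f) (M * N) c) := by
    rw [S_comb_tf, hap, hbp, ← Finset.sum_range_succ]
    exact Finset.sum_le_sum_of_subset_of_nonneg (Finset.range_mono hk0M)
      fun _ _ _ => S_nonneg _
  have hVk0 : nrm p N (V f N c k0) ≤ 2 * (a ^ p + b ^ p) ^ (1 / p) := by
    have := nrm_V_le hp1 (N := N) hθ0 hθ f c k0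
    rwa [Finset.sum_range_succ, ← hap, ← hbp] at this
  -- middle block
  have hmid : nrm p N (X f N θ c' k0) ≤ C * b + θ * (C + 1) * (2 * a) := by
    by_cases h0 : k0 = 0
    · have h1 : nrm p N (X f N θ c' k0) = nrm p N (comb f i0 (fun i => c (k0 * N + i))) := by
        refine nrm_congr fun j _ => ?_
        unfold X
        rw [if_pos h0, add_zero, hV2]
      have h2 : nrm p N (comb f N (fun i => c (k0 * N + i))) = b := by
        rw [hb]
        refine nrm_congr fun j _ => ?_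
        unfold X
        rw [if_pos h0, add_zero]
        rfl
      have h3 := hf (fun i => c (k0 * N + i)) i0 hi0N.le
      rw [h2] at h3
      rw [h1]
      have : 0 ≤ θ * (C + 1) * (2 * a) := by positivity
      linarith
    · set d : ℕ → ℝ := fun i => c (k0 * N + i) + θ * c ((k0 - 1) * N + i) with hd
      have h1 : nrm p N (X f N θ c' k0) = nrm p N (fun j =>
          (comb f i0 d j - θ * comb f i0 (fun i => c ((k0 - 1) * N + i)) j) +
            θ * V f N c (k0 - 1) j) := by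
        refine nrm_congr fun j _ => ?_
        unfold X
        rw [if_neg h0, hV2, hV1 (k0 - 1) (by omega), hd, comb_add,
          comb_smul f i0 θ (fun i => c ((k0 - 1) * N + i))]
        ring
      have h2 : nrm p N (comb f N d) = b := by
        rw [hb]
        refine nrm_congr fun j _ => ?_
        unfold X
        rw [if_neg h0, hd, comb_add, comb_smul f N θ (fun i => c ((k0 - 1) * N + i))]
        rfl
      have h3 := hf d i0 hi0N.le
      rw [h2] at h3
      have h4 := hf (fun i => c ((k0 - 1) * N + i)) i0 hi0N.le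
      have h5 : nrm p N (V f N c (k0 - 1)) ≤ 2 * a := by
        have := nrm_V_le hp1 (N := N) hθ0 hθ f c (k0 - 1)
        rwa [Nat.sub_add_cancel (by omega), ← ha] at this
      have h6 : nrm p N (comb f N (fun i => c ((k0 - 1) * N + i))) = nrm p N (V f N c (k0 - 1)) :=
        rfl
      rw [h6] at h4
      have h7 := nrm_add (N := N) hp1
        (fun j => comb f i0 d j - θ * comb f i0 (fun i => c ((k0 - 1) * N + i)) j)
        (fun j => θ * V f N c (k0 - 1) j)
      have h8 := nrm_sub (N := N) hp1 (comb f i0 d)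
        (fun j => θ * comb f i0 (fun i => c ((k0 - 1) * N + i)) j)
      rw [nrm_smul hp1, abs_of_nonneg hθ0] at h7
      rw [nrm_smul hp1, abs_of_nonneg hθ0] at h8
      rw [h1]
      have h9 : θ * nrm p N (comb f i0 (fun i => c ((k0 - 1) * N + i))) ≤ θ * (C * (2 * a)) :=
        mul_le_mul_of_nonneg_left (h4.trans (mul_le_mul_of_nonneg_left h5 hC0)) hθ0
      have h10 : θ * nrm p N (V f N c (k0 - 1)) ≤ θ * (2 * a) :=
        mul_le_mul_of_nonneg_left h5 hθ0
      calc _ ≤ nrm p N (comb f i0 d) + θ * nrm p N (comb f i0 (fun i => c ((k0 - 1) * N + i))) +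
            θ * nrm p N (V f N c (k0 - 1)) := by linarith
        _ ≤ C * b + θ * (C * (2 * a)) + θ * (2 * a) := by linarith
        _ = _ := by ring
  have hlast : S p N (X f N θ c' (k0 + 1)) ≤ (θ * C * 2) ^ p * (a ^ p + b ^ p) := by
    have h1 : S p N (X f N θ c' (k0 + 1)) = S p N (fun j => θ * V f N c' k0 j) := by
      refine S_congr fun j _ => ?_
      unfold X
      rw [hV3 (k0 + 1) (by omega)]
      simp
    have h2 : nrm p N (V f N c' k0) ≤ C * (2 * (a ^ p + b ^ p) ^ (1 / p)) := by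
      rw [hV2]
      exact (hf (fun i => c (k0 * N + i)) i0 hi0N.le).trans
        (mul_le_mul_of_nonneg_left hVk0 hC0)
    have habnn : 0 ≤ a ^ p + b ^ p := by positivity
    rw [h1, S_smul, abs_of_nonneg hθ0, ← nrm_rpow hp1]
    calc θ ^ p * nrm p N (V f N c' k0) ^ p ≤
          θ ^ p * (C * (2 * (a ^ p + b ^ p) ^ (1 / p))) ^ p := by
          refine mul_le_mul_of_nonneg_left ?_ (by positivity)
          exact Real.rpow_le_rpow (nrm_nonneg _) h2 hp0.le
      _ = (θ * C * 2) ^ p * (a ^ p + b ^ p) := by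
          have h3 : θ ^ p * (C * (2 * (a ^ p + b ^ p) ^ (1 / p))) ^ p =
              (θ * C * 2 * (a ^ p + b ^ p) ^ (1 / p)) ^ p := by
            rw [← Real.mul_rpow hθ0 (by positivity)]
            congr 1
            ring
          rw [h3, Real.mul_rpow (by positivity) (by positivity), ← Real.rpow_mul habnn,
            one_div_mul_cancel hp0.ne', Real.rpow_one]
  -- total
  have htot : S p (M * N) (comb (tf N θ f) n c) ≤ C ^ p * G * (a ^ p + b ^ p) := by
    rw [comb_trunc (tf N θ f) c hn.le, S_comb_tf]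
    have h1 : ∑ k ∈ range M, S p N (X f N θ c' k) ≤
        ∑ k ∈ range (k0 + 2), S p N (X f N θ c' k) := by
      have h2 : ∑ k ∈ range M, S p N (X f N θ c' k) ≤
          ∑ k ∈ range (max M (k0 + 2)), S p N (X f N θ c' k) :=
        Finset.sum_le_sum_of_subset_of_nonneg (Finset.range_mono (le_max_left _ _))
          fun _ _ _ => S_nonneg _
      refine h2.trans (le_of_eq ?_)
      refine (Finset.sum_subset (Finset.range_mono (le_max_right _ _)) fun k _ hk => ?_).symm
      exact hX3 k (by rw [mem_range] at hk; omega)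
    refine h1.trans ?_
    rw [Finset.sum_range_succ, Finset.sum_range_succ]
    have h3 : ∑ k ∈ range k0, S p N (X f N θ c' k) = a ^ p := by
      rw [hap]
      exact Finset.sum_congr rfl fun k hk => by rw [hX1 k (mem_range.1 hk)]
    have h4 : S p N (X f N θ c' k0) ≤ (C * b + θ * (C + 1) * (2 * a)) ^ p := by
      rw [← nrm_rpow hp1]
      exact Real.rpow_le_rpow (nrm_nonneg _) hmid hp0.le
    rw [h3]
    have h5 := scalar_step hpq hC hθ0 ha0 hb0 hG
    linarith
  have hfin : S p (M * N) (comb (tf N θ f) n c) ≤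
      ((C * G ^ (1 / p)) * nrm p (M * N) (comb (tf N θ f) (M * N) c)) ^ p := by
    rw [Real.mul_rpow (by positivity) (nrm_nonneg _), nrm_rpow hp1,
      Real.mul_rpow hC0 (by positivity), ← Real.rpow_mul (by linarith : (0 : ℝ) ≤ G),
      one_div_mul_cancel hp0.ne', Real.rpow_one]
    exact htot.trans (mul_le_mul_of_nonneg_left habp (by positivity))
  exact nrm_le_of_S_le hp1 (mul_nonneg (by positivity) (nrm_nonneg _)) hfin

end Pool.Agent.W692.NN
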