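import Mathlib

/-!
# Countable weak pi-bases of unit balls of spaces with a 1-unconditional basis
-/

set_option autoImplicit false

open Filter Topology

namespace Pool.Agent.W692.PiBase

variable {X : Type*} [NormedAddCommGroup X] [NormedSpace ℝ X]

/-- Coordinates with respect to a `1`-unconditional basis. -/
structure Coord (e : ℕ → X) (g : ℕ → X →ₗ[ℝ] ℝ) : Prop where
  sum : ∀ x, HasSum (fun n => g n x • e n) x
  bio : ∀ n m, g n (e m) = if n = m then 1 else 0
  bd : ∀ (x : X) (D : Finset ℕ) (ε : ℕ → ℝ), (∀ n, |ε n| = 1) →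
    ‖∑ n ∈ D, (ε n * g n x) • e n‖ ≤ ‖x‖

/-- coordinate projection -/
def P (e : ℕ → X) (g : ℕ → X →ₗ[ℝ] ℝ) (D : Finset ℕ) (x : X) : X := ∑ n ∈ D, g n x • e n

variable {e : ℕ → X} {g : ℕ → X →ₗ[ℝ] ℝ}

theorem coord_P (h : Coord e g) (D : Finset ℕ) (x : X) (n : ℕ) :
    g n (P e g D x) = if n ∈ D then g n x else 0 := by
  classical
  unfold P
  rw [map_sum]
  simp only [map_smul, h.bio, smul_eq_mul]
  simp

theorem P_add (D : Finset ℕ) (x y : X) : P e g D (x + y) = P e g D x + P e g D y := by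
  simp only [P, map_add, add_smul, Finset.sum_add_distrib]

theorem P_smul (D : Finset ℕ) (c : ℝ) (x : X) : P e g D (c • x) = c • P e g D x := by
  rw [P, P, Finset.smul_sum]
  refine Finset.sum_congr rfl fun n _ => ?_
  rw [map_smul, smul_smul, smul_eq_mul]

theorem norm_P_le (h : Coord e g) (D : Finset ℕ) (x : X) : ‖P e g D x‖ ≤ ‖x‖ := by
  have := h.bd x D (fun _ => 1) (by simp)
  simpa [P] using this

variable {ι : Type*} [Fintype ι]

/-- weight of a coordinate -/
noncomputable def wt (e : ℕ → X) (f : ι → X →L[ℝ] ℝ) (n : ℕ) : ℝ := ∑ i, |f i (e n)|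

/-- mass of `x` on `S` -/
noncomputable def mass (e : ℕ → X) (g : ℕ → X →ₗ[ℝ] ℝ) (f : ι → X →L[ℝ] ℝ) (S : Finset ℕ)
    (x : X) : ℝ := ∑ n ∈ S, wt e f n * |g n x|

variable {f : ι → X →L[ℝ] ℝ}

theorem wt_nonneg (n : ℕ) : 0 ≤ wt e f n := Finset.sum_nonneg fun _ _ => abs_nonneg _

theorem mass_nonneg (S : Finset ℕ) (x : X) : 0 ≤ mass e g f S x :=
  Finset.sum_nonneg fun _ _ => mul_nonneg (wt_nonneg _) (abs_nonneg _)

theorem mass_eq (S : Finset ℕ) (x : X) :
    mass e g f S x = ∑ i, ∑ n ∈ S, |f i (g n x • e n)| := by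
  unfold mass wt
  rw [Finset.sum_comm]
  refine Finset.sum_congr rfl fun n _ => ?_
  rw [Finset.sum_mul]
  refine Finset.sum_congr rfl fun i _ => ?_
  rw [map_smul, smul_eq_mul, abs_mul, mul_comm]

theorem abs_sum_le_norm (h : Coord e g) (F : X →L[ℝ] ℝ) (S : Finset ℕ) (x : X) :
    ∑ n ∈ S, |F (g n x • e n)| ≤ ‖F‖ * ‖x‖ := by
  let ε : ℕ → ℝ := fun n => if 0 ≤ F (g n x • e n) then 1 else -1
  have hε : ∀ n, |ε n| = 1 := by
    intro n
    change |if 0 ≤ F (g n x • e n) then (1 : ℝ) else -1| = 1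
    split_ifs <;> simp
  have h1 : ∀ n, |F (g n x • e n)| = F ((ε n * g n x) • e n) := by
    intro n
    have h2 : F ((ε n * g n x) • e n) = ε n * F (g n x • e n) := by
      rw [mul_smul, F.map_smul, smul_eq_mul]
    rw [h2]
    change |F (g n x • e n)| = (if 0 ≤ F (g n x • e n) then (1 : ℝ) else -1) * F (g n x • e n)
    split_ifs with h0
    · rw [one_mul, abs_of_nonneg h0]
    · rw [neg_one_mul, abs_of_neg (not_le.mp h0)]
  calc ∑ n ∈ S, |F (g n x • e n)| = F (∑ n ∈ S, (ε n * g n x) • e n) := by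
        rw [map_sum]
        exact Finset.sum_congr rfl fun n _ => h1 n
    _ ≤ |F (∑ n ∈ S, (ε n * g n x) • e n)| := le_abs_self _
    _ ≤ ‖F‖ * ‖∑ n ∈ S, (ε n * g n x) • e n‖ := F.le_opNorm _
    _ ≤ ‖F‖ * ‖x‖ := mul_le_mul_of_nonneg_left (h.bd x S ε hε) (norm_nonneg _)

theorem mass_le (h : Coord e g) (S : Finset ℕ) (x : X) :
    mass e g f S x ≤ (∑ i, ‖f i‖) * ‖x‖ := by
  rw [mass_eq, Finset.sum_mul]
  exact Finset.sum_le_sum fun i _ => abs_sum_le_norm h (f i) S x

theorem abs_f_P_le (S : Finset ℕ) (x : X) (i : ι) :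
    |f i (P e g S x)| ≤ mass e g f S x := by
  rw [mass_eq]
  calc |f i (P e g S x)| = |∑ n ∈ S, f i (g n x • e n)| := by rw [P, map_sum]
    _ ≤ ∑ n ∈ S, |f i (g n x • e n)| := Finset.abs_sum_le_sum_abs _ _
    _ ≤ ∑ i, ∑ n ∈ S, |f i (g n x • e n)| :=
      Finset.single_le_sum (f := fun i => ∑ n ∈ S, |f i (g n x • e n)|)
        (fun j _ => Finset.sum_nonneg fun _ _ => abs_nonneg _) (Finset.mem_univ i)

theorem mass_congr {S : Finset ℕ} {x y : X} (hxy : ∀ n ∈ S, |g n x| = |g n y|) :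
    mass e g f S x = mass e g f S y :=
  Finset.sum_congr rfl fun n hn => by rw [hxy n hn]

theorem mass_union {S T : Finset ℕ} (hST : Disjoint S T) (x : X) :
    mass e g f (S ∪ T) x = mass e g f S x + mass e g f T x :=
  Finset.sum_union hST

/-- `Good D x ρ c`: every vector of the ball whose coordinates on `D` are within `ρ` of those of
`x` has mass at most `c` off `D`. -/
def Good (e : ℕ → X) (g : ℕ → X →ₗ[ℝ] ℝ) (f : ι → X →L[ℝ] ℝ) (D : Finset ℕ) (x : X)
    (ρ c : ℝ) : Prop :=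
  ∀ y : X, ‖y‖ ≤ 1 → (∀ n ∈ D, |g n y - g n x| < ρ) → ∀ S : Finset ℕ, Disjoint S D →
    mass e g f S y ≤ c

/-- the averaging construction -/
theorem exists_blocks (h : Coord e g) {D : Finset ℕ} {x : X} {ρ c b : ℝ}
    (hgood : Good e g f D x ρ c)
    (hbad : ∀ D' : Finset ℕ, D ⊆ D' → ∃ y : X, ‖y‖ ≤ 1 ∧ (∀ n ∈ D', |g n y - g n x| < ρ) ∧
      ∃ S : Finset ℕ, Disjoint S D' ∧ b < mass e g f S y) (L : ℕ) :
    ∃ (T : Finset ℕ) (w z : X), Disjoint T D ∧ P e g D w = w ∧ P e g T z = z ∧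
      ‖w + z‖ ≤ L ∧ (∀ n ∈ D, |g n w - L * g n x| ≤ L * ρ) ∧
      L * b ≤ mass e g f T z ∧ ∑ i, (f i z) ^ 2 ≤ L * (Fintype.card ι * c ^ 2) := by
  classical
  induction L with
  | zero =>
    refine ⟨∅, 0, 0, by simp, ?_, ?_, by simp, by simp, ?_, ?_⟩
    · simp [P]
    · simp [P]
    · simp [mass]
    · simp
  | succ L ih =>
    obtain ⟨T, w, z, hTD, hw, hz, hn, hwx, hm, hs⟩ := ih
    obtain ⟨y, hy1, hyD, S, hS, hSb⟩ := hbad (D ∪ T) Finset.subset_union_left
    have hSD : Disjoint S D := (Finset.disjoint_union_right.1 hS).1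
    have hST : Disjoint S T := (Finset.disjoint_union_right.1 hS).2
    have hyD' : ∀ n ∈ D, |g n y - g n x| < ρ := fun n hn =>
      hyD n (Finset.mem_union_left _ hn)
    have hSc : mass e g f S y ≤ c := hgood y hy1 hyD' S hSD
    -- choice of the sign
    obtain ⟨σ, hσ, hσs⟩ : ∃ σ : ℝ, |σ| = 1 ∧ σ * ∑ i, f i z * f i (P e g S y) ≤ 0 := by
      rcases le_total 0 (∑ i, f i z * f i (P e g S y)) with h0 | h0
      · exact ⟨-1, by simp, by linarith⟩
      · exact ⟨1, by simp, by linarith⟩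
    have hσ2 : σ ^ 2 = 1 := by
      rw [← sq_abs, hσ, one_pow]
    refine ⟨T ∪ S, w + P e g D y, z + σ • P e g S y, ?_, ?_, ?_, ?_, ?_, ?_, ?_⟩
    · exact Finset.disjoint_union_left.2 ⟨hTD, hSD⟩
    · have hPP : P e g D (P e g D y) = P e g D y := by
        conv_lhs => rw [P]
        refine Finset.sum_congr rfl fun n hn => ?_
        rw [coord_P h, if_pos hn]
      rw [P_add, hPP, hw]
    · have hzT : ∀ n, n ∉ T → g n z = 0 := by
        intro n hn
        rw [← hz, coord_P h, if_neg hn]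
      have h1 : P e g (T ∪ S) (z + σ • P e g S y) =
          P e g (T ∪ S) z + σ • P e g (T ∪ S) (P e g S y) := by
        rw [P_add, P_smul]
      have h2 : P e g (T ∪ S) z = z := by
        conv_rhs => rw [← hz]
        unfold P
        refine (Finset.sum_subset Finset.subset_union_left fun n _ hn => ?_).symm
        rw [hzT n hn, zero_smul]
      have h3 : P e g (T ∪ S) (P e g S y) = P e g S y := by
        conv_lhs => rw [P]
        conv_rhs => rw [P]
        rw [← Finset.sum_subset (Finset.subset_union_right : S ⊆ T ∪ S)]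
        · refine Finset.sum_congr rfl fun n hn => ?_
          rw [coord_P h, if_pos hn]
        · intro n _ hn
          rw [coord_P h, if_neg hn, zero_smul]
      rw [h1, h2, h3]
    · have h1 : w + P e g D y + (z + σ • P e g S y) =
          (w + z) + (P e g D y + σ • P e g S y) := by abel
      have h2 : P e g D y + σ • P e g S y =
          ∑ n ∈ D ∪ S, ((if n ∈ D then 1 else σ) * g n y) • e n := by
        rw [Finset.sum_union hSD.symm]
        congr 1
        · refine Finset.sum_congr rfl fun n hn => ?_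
          rw [if_pos hn, one_mul]
        · rw [P, Finset.smul_sum]
          refine Finset.sum_congr rfl fun n hn => ?_
          rw [if_neg (Finset.disjoint_left.1 hSD hn), smul_smul]
      have h3 : ‖P e g D y + σ • P e g S y‖ ≤ 1 := by
        rw [h2]
        refine (h.bd y (D ∪ S) (fun n => if n ∈ D then 1 else σ) fun n => ?_).trans hy1
        by_cases hn : n ∈ D <;> simp [hn, hσ]
      rw [h1]
      push_cast
      exact (norm_add_le _ _).trans (add_le_add hn h3)
    · intro n hn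
      have h1 := hwx n hn
      have h2 := hyD' n hn
      rw [map_add, coord_P h, if_pos hn]
      push_cast
      calc |g n w + g n y - (L + 1) * g n x| = |(g n w - L * g n x) + (g n y - g n x)| := by
            congr 1; ring
        _ ≤ |g n w - L * g n x| + |g n y - g n x| := abs_add_le _ _
        _ ≤ L * ρ + ρ := add_le_add h1 h2.le
        _ = (L + 1) * ρ := by ring
    · have hTS : Disjoint T S := hST.symm
      rw [mass_union hTS]
      have h1 : mass e g f T (z + σ • P e g S y) = mass e g f T z := by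
        refine mass_congr fun n hn => ?_
        rw [map_add, map_smul, coord_P h, if_neg (Finset.disjoint_left.1 hTS hn)]
        simp
      have h2 : mass e g f S (z + σ • P e g S y) = mass e g f S y := by
        refine mass_congr fun n hn => ?_
        have hzn : g n z = 0 := by
          rw [← hz, coord_P h, if_neg (Finset.disjoint_left.1 hST hn)]
        rw [map_add, map_smul, coord_P h, if_pos hn, hzn, zero_add, smul_eq_mul, abs_mul, hσ,
          one_mul]
      rw [h1, h2]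
      push_cast
      linarith
    · have h1 : ∀ i, (f i (z + σ • P e g S y)) ^ 2 =
          (f i z) ^ 2 + 2 * (σ * (f i z * f i (P e g S y))) + (f i (P e g S y)) ^ 2 := by
        intro i
        rw [map_add, map_smul, smul_eq_mul]
        have : (f i z + σ * f i (P e g S y)) ^ 2 = (f i z) ^ 2 +
          2 * (σ * (f i z * f i (P e g S y))) + σ ^ 2 * (f i (P e g S y)) ^ 2 := by ring
        rw [this, hσ2, one_mul]
      have h2 : ∑ i, (f i (P e g S y)) ^ 2 ≤ Fintype.card ι * c ^ 2 := by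
        have h3 : ∀ i ∈ (Finset.univ : Finset ι), (f i (P e g S y)) ^ 2 ≤ c ^ 2 := by
          intro i _
          have h4 : |f i (P e g S y)| ≤ c := (abs_f_P_le S y i).trans hSc
          exact sq_le_sq' (by linarith [(abs_le.1 h4).1]) (abs_le.1 h4).2
        have h5 := Finset.sum_le_card_nsmul _ _ _ h3
        simpa using h5
      simp_rw [h1]
      rw [Finset.sum_add_distrib, Finset.sum_add_distrib, ← Finset.mul_sum, ← Finset.mul_sum]
      push_cast
      linarith

theorem P_eq_of_subset (h : Coord e g) {D D' : Finset ℕ} (hD : D ⊆ D') {x : X}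
    (hx : P e g D x = x) : P e g D' x = x := by
  conv_rhs => rw [← hx]
  unfold P
  refine (Finset.sum_subset hD fun n _ hn => ?_).symm
  rw [← hx, coord_P h, if_neg hn, zero_smul]

theorem key (h : Coord e g) (f : ι → X →L[ℝ] ℝ) {x₀ : X} (hx₀ : ‖x₀‖ ≤ 1) {ε : ℝ} (hε : 0 < ε)
    {δ : ℝ} (hδ : 0 < δ) :
    ∃ (D : Finset ℕ) (x : X) (ρ : ℝ), 0 < ρ ∧ P e g D x = x ∧ ‖x‖ ≤ 1 ∧
      (∀ i, |f i x - f i x₀| < ε) ∧ Good e g f D x ρ δ := by
  classical
  set A : Set ℝ := {c | ∃ (D : Finset ℕ) (x : X) (ρ : ℝ), 0 < ρ ∧ P e g D x = x ∧ ‖x‖ ≤ 1 ∧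
      (∀ i, |f i x - f i x₀| < ε) ∧ Good e g f D x ρ c} with hA
  have hA0 : ∀ c ∈ A, 0 ≤ c := by
    rintro c ⟨D, x, ρ, hρ, hPx, hx1, hfx, hgood⟩
    have := hgood x hx1 (fun n _ => by simpa using hρ) ∅ (by simp)
    simpa [mass] using this
  have hAne : A.Nonempty := by
    have h1 : ∀ᶠ S : Finset ℕ in atTop, ∀ i, |f i (P e g S x₀) - f i x₀| < ε := by
      rw [eventually_all]
      intro i
      have h2 : Tendsto (fun S : Finset ℕ => f i (P e g S x₀)) atTop (𝓝 (f i x₀)) :=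
        ((f i).continuous.tendsto x₀).comp (h.sum x₀)
      have h3 := (Metric.tendsto_nhds.1 h2) ε hε
      filter_upwards [h3] with S hS
      rwa [Real.dist_eq] at hS
    obtain ⟨S, hS⟩ := h1.exists
    refine ⟨∑ i, ‖f i‖, S, P e g S x₀, 1, one_pos, ?_, (norm_P_le h S x₀).trans hx₀, hS, ?_⟩
    · conv_lhs => rw [P]
      conv_rhs => rw [P]
      refine Finset.sum_congr rfl fun n hn => ?_
      rw [coord_P h, if_pos hn]
    · intro y hy _ T _
      refine (mass_le h T y).trans ?_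
      calc (∑ i, ‖f i‖) * ‖y‖ ≤ (∑ i, ‖f i‖) * 1 :=
            mul_le_mul_of_nonneg_left hy (Finset.sum_nonneg fun _ _ => norm_nonneg _)
        _ = _ := mul_one _
  set m := sInf A with hm
  have hbdd : BddBelow A := ⟨0, hA0⟩
  have hm0 : 0 ≤ m := le_csInf hAne hA0
  rcases hm0.eq_or_lt with hm0 | hmpos
  · obtain ⟨c, hc, hcδ⟩ := exists_lt_of_csInf_lt hAne (show sInf A < δ by rw [← hm, ← hm0]; exact hδ)
    obtain ⟨D, x, ρ, hρ, hPx, hx1, hfx, hgood⟩ := hc
    exact ⟨D, x, ρ, hρ, hPx, hx1, hfx, fun y hy hyD S hS => (hgood y hy hyD S hS).trans hcδ.le⟩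
  exfalso
  obtain ⟨c, hc, hcm⟩ := exists_lt_of_csInf_lt hAne (show sInf A < 5 / 4 * m by
    rw [← hm]; linarith)
  obtain ⟨D, x, ρ, hρ, hPx, hx1, hfx, hgood⟩ := hc
  have hmin : ∀ c' ∈ A, m ≤ c' := fun c' hc' => csInf_le hbdd hc'
  -- slack
  obtain ⟨s, hs0, hs⟩ : ∃ s : ℝ, 0 < s ∧ ∀ i, |f i x - f i x₀| + s < ε := by
    have h1 : ∀ᶠ t : ℝ in 𝓝[>] 0, ∀ i, |f i x - f i x₀| + t < ε := by
      rw [eventually_all]
      intro i
      have h2 : Tendsto (fun t : ℝ => |f i x - f i x₀| + t) (𝓝[>] 0)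
          (𝓝 (|f i x - f i x₀| + 0)) :=
        (tendsto_const_nhds.add tendsto_id).mono_left nhdsWithin_le_nhds
      exact h2.eventually_lt_const (by rw [add_zero]; exact hfx i)
    obtain ⟨t, ht1, ht2⟩ := (h1.and self_mem_nhdsWithin).exists
    exact ⟨t, ht2, ht1⟩
  set Wt : ℝ := ∑ n ∈ D, wt e f n with hWt
  have hWt0 : 0 ≤ Wt := Finset.sum_nonneg fun n _ => wt_nonneg n
  obtain ⟨ρ₁, hρ₁, hρ₁ρ, hρ₁s⟩ : ∃ ρ₁ : ℝ, 0 < ρ₁ ∧ ρ₁ ≤ ρ / 2 ∧ ρ₁ * Wt ≤ s / 2 := by
    refine ⟨min (ρ / 2) (s / (2 * (Wt + 1))), by positivity, min_le_left _ _, ?_⟩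
    calc min (ρ / 2) (s / (2 * (Wt + 1))) * Wt ≤ s / (2 * (Wt + 1)) * Wt :=
          mul_le_mul_of_nonneg_right (min_le_right _ _) hWt0
      _ ≤ s / (2 * (Wt + 1)) * (Wt + 1) :=
          mul_le_mul_of_nonneg_left (by linarith) (by positivity)
      _ = s / 2 := by field_simp
  have hgood₁ : Good e g f D x ρ₁ c := fun y hy hyD S hS =>
    hgood y hy (fun n hn => (hyD n hn).trans_le (by linarith)) S hS
  have hbad : ∀ D' : Finset ℕ, D ⊆ D' → ∃ y : X, ‖y‖ ≤ 1 ∧
      (∀ n ∈ D', |g n y - g n x| < ρ₁) ∧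
      ∃ S : Finset ℕ, Disjoint S D' ∧ 3 / 4 * m < mass e g f S y := by
    intro D' hDD'
    by_contra hcon
    push Not at hcon
    have h1 : 3 / 4 * m ∈ A := ⟨D', x, ρ₁, hρ₁, P_eq_of_subset h hDD' hPx, hx1, hfx,
      fun y hy hyD S hS => hcon y hy hyD S hS⟩
    have := hmin _ h1
    linarith
  obtain ⟨L, hL⟩ : ∃ L : ℕ, (Fintype.card ι * c ^ 2) / (s / 4) ^ 2 < L := exists_nat_gt _
  have hL0 : (0 : ℝ) < L := lt_of_le_of_lt (by positivity) hL
  obtain ⟨T, w, z, hTD, hw, hz, hwz, hwx, hmz, hfz⟩ := exists_blocks h hgood₁ hbad L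
  -- the new vector
  set x' : X := (L : ℝ)⁻¹ • (w + z) with hx'
  have hwT : ∀ n ∈ T, g n w = 0 := by
    intro n hn
    rw [← hw, coord_P h, if_neg (Finset.disjoint_left.1 hTD hn)]
  have hzD : ∀ n ∈ D, g n z = 0 := by
    intro n hn
    rw [← hz, coord_P h, if_neg (Finset.disjoint_right.1 hTD hn)]
  have hx'D : ∀ n ∈ D, |g n x' - g n x| ≤ ρ₁ := by
    intro n hn
    have h1 : g n x' - g n x = (L : ℝ)⁻¹ * (g n w - L * g n x) := by
      rw [hx', map_smul, map_add, hzD n hn, smul_eq_mul]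
      field_simp
      ring
    rw [h1, abs_mul, abs_of_pos (inv_pos.2 hL0)]
    calc (L : ℝ)⁻¹ * |g n w - L * g n x| ≤ (L : ℝ)⁻¹ * (L * ρ₁) :=
          mul_le_mul_of_nonneg_left (hwx n hn) (by positivity)
      _ = ρ₁ := by field_simp
  have hx'1 : ‖x'‖ ≤ 1 := by
    rw [hx', norm_smul, norm_inv, Real.norm_of_nonneg hL0.le]
    calc (L : ℝ)⁻¹ * ‖w + z‖ ≤ (L : ℝ)⁻¹ * L :=
          mul_le_mul_of_nonneg_left hwz (by positivity)
      _ = 1 := by field_simp
  have hx'P : P e g (D ∪ T) x' = x' := by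
    rw [hx', P_smul, P_add, P_eq_of_subset h Finset.subset_union_left hw,
      P_eq_of_subset h Finset.subset_union_right hz]
  have hx'f : ∀ i, |f i x' - f i x₀| < ε := by
    intro i
    have h1 : f i x' - f i x₀ = (L : ℝ)⁻¹ * f i (w - (L : ℝ) • x) + (L : ℝ)⁻¹ * f i z +
        (f i x - f i x₀) := by
      rw [hx', map_smul, map_add, map_sub, map_smul, smul_eq_mul, smul_eq_mul]
      field_simp
      ring
    have h2 : |f i (w - (L : ℝ) • x)| ≤ L * (s / 2) := by
      have h3 : P e g D (w - (L : ℝ) • x) = w - (L : ℝ) • x := by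
        rw [sub_eq_add_neg, ← neg_smul, P_add, P_smul, hw, hPx]
      rw [← h3]
      refine (abs_f_P_le D _ i).trans ?_
      unfold mass
      calc ∑ n ∈ D, wt e f n * |g n (w - (L : ℝ) • x)| ≤ ∑ n ∈ D, wt e f n * (L * ρ₁) := by
            refine Finset.sum_le_sum fun n hn => mul_le_mul_of_nonneg_left ?_ (wt_nonneg n)
            rw [map_sub, map_smul, smul_eq_mul]
            exact hwx n hn
        _ = L * (ρ₁ * Wt) := by rw [← Finset.sum_mul]; ring
        _ ≤ L * (s / 2) := mul_le_mul_of_nonneg_left hρ₁s hL0.le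
    have h4 : |(L : ℝ)⁻¹ * f i z| ≤ s / 4 := by
      have h5 : (f i z) ^ 2 ≤ L * (Fintype.card ι * c ^ 2) :=
        (Finset.single_le_sum (f := fun i => (f i z) ^ 2) (fun j _ => sq_nonneg _)
          (Finset.mem_univ i)).trans hfz
      have h6 : Fintype.card ι * c ^ 2 ≤ L * (s / 4) ^ 2 := by
        rw [div_lt_iff₀ (by positivity)] at hL
        exact hL.le
      have h7 : ((L : ℝ)⁻¹ * f i z) ^ 2 ≤ (s / 4) ^ 2 := by
        rw [mul_pow, inv_pow]
        calc ((L : ℝ) ^ 2)⁻¹ * (f i z) ^ 2 ≤ ((L : ℝ) ^ 2)⁻¹ * (L * (L * (s / 4) ^ 2)) :=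
              mul_le_mul_of_nonneg_left (h5.trans (mul_le_mul_of_nonneg_left h6 hL0.le))
                (by positivity)
          _ = (s / 4) ^ 2 := by field_simp
      exact abs_le_of_sq_le_sq h7 (by positivity)
    have h8 : |(L : ℝ)⁻¹ * f i (w - (L : ℝ) • x)| ≤ s / 2 := by
      rw [abs_mul, abs_of_pos (inv_pos.2 hL0)]
      calc (L : ℝ)⁻¹ * |f i (w - (L : ℝ) • x)| ≤ (L : ℝ)⁻¹ * (L * (s / 2)) :=
            mul_le_mul_of_nonneg_left h2 (by positivity)
        _ = s / 2 := by field_simp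
    rw [h1]
    have h9 := abs_add_le ((L : ℝ)⁻¹ * f i (w - (L : ℝ) • x) + (L : ℝ)⁻¹ * f i z)
      (f i x - f i x₀)
    have h10 := abs_add_le ((L : ℝ)⁻¹ * f i (w - (L : ℝ) • x)) ((L : ℝ)⁻¹ * f i z)
    have h11 := hs i
    linarith
  set Wt' : ℝ := ∑ n ∈ T, wt e f n with hWt'
  have hWt'0 : 0 ≤ Wt' := Finset.sum_nonneg fun n _ => wt_nonneg n
  obtain ⟨ρ', hρ', hρ'ρ, hρ'm⟩ : ∃ ρ' : ℝ, 0 < ρ' ∧ ρ' ≤ ρ / 2 ∧ ρ' * Wt' ≤ m / 4 := by
    refine ⟨min (ρ / 2) (m / (4 * (Wt' + 1))), by positivity, min_le_left _ _, ?_⟩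
    calc min (ρ / 2) (m / (4 * (Wt' + 1))) * Wt' ≤ m / (4 * (Wt' + 1)) * Wt' :=
          mul_le_mul_of_nonneg_right (min_le_right _ _) hWt'0
      _ ≤ m / (4 * (Wt' + 1)) * (Wt' + 1) :=
          mul_le_mul_of_nonneg_left (by linarith) (by positivity)
      _ = m / 4 := by field_simp
  have hx'T : 3 / 4 * m ≤ mass e g f T x' := by
    have h1 : mass e g f T x' = (L : ℝ)⁻¹ * mass e g f T z := by
      unfold mass
      rw [Finset.mul_sum]
      refine Finset.sum_congr rfl fun n hn => ?_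
      rw [hx', map_smul, map_add, hwT n hn, zero_add, smul_eq_mul, abs_mul,
        abs_of_pos (inv_pos.2 hL0)]
      ring
    rw [h1]
    calc 3 / 4 * m = (L : ℝ)⁻¹ * (L * (3 / 4 * m)) := by field_simp
      _ ≤ _ := mul_le_mul_of_nonneg_left hmz (by positivity)
  have hnew : 3 / 4 * m ∈ A := by
    refine ⟨D ∪ T, x', ρ', hρ', hx'P, hx'1, hx'f, fun y hy hyD S hS => ?_⟩
    have hSD : Disjoint S D := (Finset.disjoint_union_right.1 hS).1
    have hST : Disjoint S T := (Finset.disjoint_union_right.1 hS).2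
    have h1 : mass e g f (S ∪ T) y ≤ c := by
      refine hgood y hy (fun n hn => ?_) (S ∪ T) (Finset.disjoint_union_left.2 ⟨hSD, hTD⟩)
      have h2 := hyD n (Finset.mem_union_left _ hn)
      have h3 := hx'D n hn
      calc |g n y - g n x| = |(g n y - g n x') + (g n x' - g n x)| := by congr 1; ring
        _ ≤ |g n y - g n x'| + |g n x' - g n x| := abs_add_le _ _
        _ < ρ := by linarith
    rw [mass_union hST] at h1
    have h4 : mass e g f T x' - m / 4 ≤ mass e g f T y := by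
      have h5 : mass e g f T x' ≤ mass e g f T y + ρ' * Wt' := by
        unfold mass
        rw [hWt', Finset.mul_sum, ← Finset.sum_add_distrib]
        refine Finset.sum_le_sum fun n hn => ?_
        have h6 := hyD n (Finset.mem_union_right _ hn)
        have h7 : |g n x'| ≤ |g n y| + ρ' := by
          have h8 : |g n x'| ≤ |g n y| + |g n x' - g n y| := by
            calc |g n x'| = |g n y + (g n x' - g n y)| := by congr 1; ring
              _ ≤ _ := abs_add_le _ _
          rw [abs_sub_comm] at h8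
          linarith
        calc wt e f n * |g n x'| ≤ wt e f n * (|g n y| + ρ') :=
              mul_le_mul_of_nonneg_left h7 (wt_nonneg n)
          _ = wt e f n * |g n y| + ρ' * wt e f n := by ring
      linarith
    linarith
  have := hmin _ hnew
  linarith

/-- In every nonempty relatively weakly open part of the ball there is a cylinder. -/
theorem exists_cylinder (h : Coord e g) (f : ι → X →L[ℝ] ℝ) {x₀ : X} (hx₀ : ‖x₀‖ ≤ 1) {ε : ℝ}
    (hε : 0 < ε) :
    ∃ (D : Finset ℕ) (x : X) (ρ : ℝ), 0 < ρ ∧ ‖x‖ ≤ 1 ∧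
      ∀ y : X, ‖y‖ ≤ 1 → (∀ n ∈ D, |g n y - g n x| < ρ) → ∀ i, |f i (y - x₀)| < ε := by
  classical
  obtain ⟨D, x, ρ, hρ, hPx, hx1, hfx, hgood⟩ := key h f hx₀ (half_pos hε)
    (δ := ε / 8) (by positivity)
  set Wt : ℝ := ∑ n ∈ D, wt e f n with hWt
  have hWt0 : 0 ≤ Wt := Finset.sum_nonneg fun n _ => wt_nonneg n
  obtain ⟨ρ₁, hρ₁, hρ₁ρ, hρ₁s⟩ : ∃ ρ₁ : ℝ, 0 < ρ₁ ∧ ρ₁ ≤ ρ ∧ ρ₁ * Wt ≤ ε / 8 := by
    refine ⟨min ρ (ε / (8 * (Wt + 1))), by positivity, min_le_left _ _, ?_⟩
    calc min ρ (ε / (8 * (Wt + 1))) * Wt ≤ ε / (8 * (Wt + 1)) * Wt :=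
          mul_le_mul_of_nonneg_right (min_le_right _ _) hWt0
      _ ≤ ε / (8 * (Wt + 1)) * (Wt + 1) :=
          mul_le_mul_of_nonneg_left (by linarith) (by positivity)
      _ = ε / 8 := by field_simp
  refine ⟨D, x, ρ₁, hρ₁, hx1, fun y hy hyD i => ?_⟩
  -- off `D`
  have hoff : |f i y - f i (P e g D y)| ≤ ε / 8 := by
    have h1 : Tendsto (fun S : Finset ℕ => f i (P e g S y) - f i (P e g D y)) atTop
        (𝓝 (f i y - f i (P e g D y))) :=
      (((f i).continuous.tendsto y).comp (h.sum y)).sub tendsto_const_nhds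
    refine le_of_tendsto h1.abs ?_
    filter_upwards [eventually_ge_atTop D] with S hS
    have h2 : P e g S y = P e g D y + P e g (S \ D) y := by
      unfold P
      rw [add_comm]
      exact (Finset.sum_sdiff hS).symm
    rw [h2, map_add, add_sub_cancel_left]
    refine (abs_f_P_le _ y i).trans ?_
    exact hgood y hy (fun n hn => (hyD n hn).trans_le hρ₁ρ) _ Finset.sdiff_disjoint
  have hon : |f i (P e g D y) - f i x| ≤ ε / 8 := by
    have h1 : f i (P e g D y) - f i x = f i (P e g D (y - x)) := by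
      rw [sub_eq_add_neg y x, ← neg_one_smul ℝ x, P_add, P_smul, hPx, map_add, map_smul]
      simp
      ring
    rw [h1]
    refine (abs_f_P_le D _ i).trans ?_
    unfold mass
    calc ∑ n ∈ D, wt e f n * |g n (y - x)| ≤ ∑ n ∈ D, wt e f n * ρ₁ := by
          refine Finset.sum_le_sum fun n hn => mul_le_mul_of_nonneg_left ?_ (wt_nonneg n)
          rw [map_sub]
          exact (hyD n hn).le
      _ = ρ₁ * Wt := by rw [← Finset.sum_mul]; ring
      _ ≤ ε / 8 := hρ₁s
  have h1 : f i (y - x₀) = (f i y - f i (P e g D y)) + (f i (P e g D y) - f i x) +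
      (f i x - f i x₀) := by rw [map_sub]; ring
  rw [h1]
  have h2 := abs_add_le ((f i y - f i (P e g D y)) + (f i (P e g D y) - f i x))
    (f i x - f i x₀)
  have h3 := abs_add_le (f i y - f i (P e g D y)) (f i (P e g D y) - f i x)
  have h4 := hfx i
  linarith

end Pool.Agent.W692.PiBase
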