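import Pool.Agent.W886.RU.Stm0

/-! Project RU, part TUP -/

set_option autoImplicit false

namespace Pool.Agent.W692.RUTUP

theorem pair_inj {x y x' y' : ℕ} (h : (x + y) ^ 2 + x = (x' + y') ^ 2 + x') :
    x = x' ∧ y = y' := by
  have key : x + y = x' + y' := by
    rcases lt_trichotomy (x + y) (x' + y') with h1 | h1 | h1
    · exfalso
      nlinarith
    · exact h1
    · exfalso
      nlinarith
  rw [key] at h
  omega

theorem task : Pool.Agent.W886.RU.S_TUP := by
  intro k
  induction k with
  | zero =>
    refine ⟨0, fun v w _ => Subsingleton.elim v w, fun v i => i.elim0⟩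
  | succ k ih =>
    obtain ⟨q, hq1, hq2⟩ := ih
    refine ⟨(MvPolynomial.X 0 + MvPolynomial.rename Fin.succ q) ^ 2 + MvPolynomial.X 0, ?_, ?_⟩
    · intro v w h
      simp only [map_add, map_pow, MvPolynomial.eval_X, MvPolynomial.eval_rename] at h
      obtain ⟨h1, h2⟩ := pair_inj h
      have h3 := hq1 h2
      funext i
      refine Fin.cases h1 (fun j => ?_) i
      exact congrFun h3 j
    · intro v i
      simp only [map_add, map_pow, MvPolynomial.eval_X, MvPolynomial.eval_rename]
      refine Fin.cases ?_ (fun j => ?_) i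
      · exact Nat.le_add_left _ _
      · have h1 := hq2 (v ∘ Fin.succ) j
        have h2 : v (Fin.succ j) = (v ∘ Fin.succ) j := rfl
        rw [h2]
        refine le_trans h1 ?_
        nlinarith [Nat.zero_le (v 0), sq_nonneg (v 0 + MvPolynomial.eval (v ∘ Fin.succ) q),
          Nat.le_self_pow (n := 2) (by norm_num) (v 0 + MvPolynomial.eval (v ∘ Fin.succ) q)]

end Pool.Agent.W692.RUTUP
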